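import Mathlib
import Pool.Agent.Work.MP_392c8e_co_unl.ClsT
import Pool.Agent.Work.MP_392c8e_co_uni.Mirror
import Pool.Agent.Work.MP_392c8e_co_uni.OccB
import Pool.Agent.Work.MP_392c8e_co_uni.GeoEight
import Pool.Agent.Work.MP_392c8e_co_uni.GeoNo5

/-!
# Cubic plane graphs without triangles and bridges, basic facts

The condition `N4 R n v` (no face of length four and no nontrivial edge cut with at most three edges
near a vertex) under moves and in the mirror image, the table of places far from these faces and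
cuts, and its reduction to the table of stage B.
-/

set_option autoImplicit false
set_option linter.unusedSectionVars false

namespace Pool.Agent.U2Geo

open Finset Pool.Agent.Sub392 Pool.T1Side Pool.Agent.T392 Pool.Agent.T1FF Pool.Agent.Disch392

variable {V : Type} [Fintype V] [DecidableEq V] {G : SimpleGraph V} [DecidableRel G.Adj]
  {R : Rot G}

/-- Cyclically 5-edge-connected graphs are in the class. -/
theorem C5.c4 (h : C5 R) : C4 R where
  plane := h.plane
  cub := h.cub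
  tri := h.tri
  br := h.geo.br
  big := h.big
  conn := fun A hA => by
    rcases h.cut A (by omega) with h1 | h1
    · left
      by_contra hcon
      have h2 := three_le_out h.cub A (card_pos.2 (nonempty_iff_ne_empty.2 hcon)) h1
      omega
    · right
      by_contra hcon
      have h3 : (Aᶜ).Nonempty := by
        rw [nonempty_iff_ne_empty, Ne, compl_eq_empty_iff]
        exact hcon
      have h2 := three_le_out h.cub Aᶜ (card_pos.2 h3) h1
      rw [out_compl] at h2
      omega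

theorem C4.mir (h : C4 R) : C4 (Disch392.mir R) :=
  ⟨mir_plane h.plane, h.cub, h.tri, fun d => by
    rw [Ne, face_eq_iff, mir_same, ← face_eq_iff]
    exact h.br d.symm, h.conn, h.big⟩

theorem N3.to_mir {n : ℕ} {v : V} (h : N3 R n v) : N3 (Disch392.mir R) n v := h

theorem N4.to_mir {n : ℕ} {v : V} (h : N4 R n v) : N4 (Disch392.mir R) n v := by
  refine ⟨?_, h.2⟩
  rintro d ⟨p, hp⟩ h4
  rw [sz_mir] at h4
  refine h.1 (R.next d.symm) ⟨p.copy rfl (by rw [R.fst_next]; rfl), by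
    rw [SimpleGraph.Walk.length_copy]; exact hp⟩ ?_
  rw [sz_next]
  exact h4

theorem N4.mir_iff {n : ℕ} {v : V} : N4 (Disch392.mir R) n v ↔ N4 R n v :=
  ⟨fun h => by
    have h1 := h.to_mir
    rwa [mir_mir] at h1, N4.to_mir⟩

/-- The condition at a near dart. -/
theorem _root_.Pool.Agent.Disch392.Near.n4 {k n : ℕ} {d e : G.Dart} (h : Near R k d e)
    (hN : N4 R (n + k) d.fst) : N4 R n e.fst := by
  obtain ⟨p, hp⟩ := h.walk
  exact hN.walk p hp

/-! ### Corners of faces which have not length five -/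

variable {S : V → Prop}

/-- No closed walk of length five through the corner at the first end. -/
theorem ClsT.no5 (h : ClsT R S) (d : G.Dart) (hS : S (X R d 0)) (hd : sz R d ≠ 5) (x y : V) :
    ¬ NB G [X R d 0, X R d 1, X R d 2, x, y] := by
  have e1 : X R d 1 = d.snd := R.fst_next d
  have e2 : X R d 2 = (R.next d).snd := R.fst_next (R.next d)
  rw [e1, e2]
  exact h.five d x y hS hd

/-- The corner of the face across an edge, at the first end of the edge. -/
theorem ClsT.no5a (h : ClsT R S) (p : G.Dart) (k : ℕ) (hS : S (X R p (k + 1)))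
    (hd : sz R (ac R p k) ≠ 5) (x y : V) :
    ¬ NB G [X R p (k + 1), X R p k, Y R p k, x, y] := by
  have := h.no5 (ac R p k) (by rw [ac_X0]; exact hS) hd x y
  rwa [ac_X0, ac_X1, ac_X2] at this

/-- The corner of the face across an edge, at the second end of the edge. -/
theorem ClsT.no5b (h : ClsT R S) (p : G.Dart) (k : ℕ) (hS : S (Y R p (k + 1)))
    (hd : sz R (ac R p k) ≠ 5) (x y : V) :
    ¬ NB G [Y R p (k + 1), X R p (k + 1), X R p k, x, y] := by
  -- the previous dart of the face across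
  set q : G.Dart := (R.rot ((R.next ^ (k + 1)) p)).symm with hq
  have h1 : R.next q = ac R p k := by
    have h2 : R.next q = R.rot (R.rot ((R.next ^ (k + 1)) p)) := by
      rw [R.rot_eq (R.rot ((R.next ^ (k + 1)) p))]
    rw [h2]
    have h3 : (R.next ^ (k + 1)) p = R.next ((R.next ^ k) p) := by
      rw [pow_succ', Equiv.Perm.mul_apply]
    rw [h3, next_rot2 R (h.cub _)]
    rfl
  have h2 : sz R q ≠ 5 := by
    rw [← sz_next, h1]
    exact hd
  have e0 : X R q 0 = Y R p (k + 1) := rfl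
  have h3 := h.no5 q (by rw [e0]; exact hS) h2 x y
  have e1 : X R q 1 = X R p (k + 1) := by
    rw [← snd_pow R q 0]
    show (R.rot ((R.next ^ (k + 1)) p)).fst = _
    rw [R.fst_rot]
    rfl
  have e2 : X R q 2 = X R p k := by
    rw [← snd_pow R q 1, pow_one, h1]
    rfl
  rwa [e0, e1, e2] at h3

end Pool.Agent.U2Geo

namespace Pool.Agent.DischB

open Finset Pool.Agent.Sub392 Pool.Agent.T392 Pool.Agent.Disch392 Pool.Agent.U2Geo

variable {V : Type} [Fintype V] [DecidableEq V] {G : SimpleGraph V} [DecidableRel G.Adj]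
  {R : Rot G} {K : ℕ} {P : V → Prop}

/-- The second outer neighbour of the contact 0. -/
theorem Pair7.o3 (h3 : ∀ v, G.degree v = 3) {d : G.Dart} (hp : Pair7 R d)
    (h : 2 ≤ c5 R (ad R d 0)) : nb R (ad R d 0) 3 = 5 := by
  by_contra hcon
  have h0 : nb R (ad R d 0) 0 ≠ 5 := by
    rw [nb_ad_zero, hp.s]; norm_num
  have h1 : nb R (ad R d 0) 1 ≠ 5 := by
    rw [nb1_seven (R := R) h3 hp.s 0]; exact hp.n6
  have hsub : ((range 5).filter fun i => nb R (ad R d 0) i = 5) ⊆ {4} := by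
    intro i hi
    rw [mem_filter, mem_range] at hi
    rw [mem_singleton]
    obtain ⟨hi5, hi⟩ := hi
    interval_cases i
    · exact absurd hi h0
    · exact absurd hi h1
    · exact absurd hi hp.n02
    · exact absurd hi hcon
    · rfl
  have h2 := card_le_card hsub
  rw [card_singleton] at h2
  have h4 : 2 ≤ #((range 5).filter fun i => nb R (ad R d 0) i = 5) := h
  omega

/-- The first outer neighbour of the contact 1. -/
theorem Pair7.o2 (h3 : ∀ v, G.degree v = 3) {d : G.Dart} (hp : Pair7 R d)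
    (h : 2 ≤ c5 R (ad R d 1)) : nb R (ad R d 1) 2 = 5 := by
  by_contra hcon
  have h0 : nb R (ad R d 1) 0 ≠ 5 := by
    rw [nb_ad_zero, hp.s]; norm_num
  have h4 : nb R (ad R d 1) 4 ≠ 5 := by
    rw [nb_ad_last (R := R) h3 d (i := 1) (n := 4) hp.s1]; exact hp.n2
  have hsub : ((range 5).filter fun i => nb R (ad R d 1) i = 5) ⊆ {1} := by
    intro i hi
    rw [mem_filter, mem_range] at hi
    rw [mem_singleton]
    obtain ⟨hi5, hi⟩ := hi
    interval_cases i
    · exact absurd hi h0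
    · rfl
    · exact absurd hi hcon
    · exact absurd hi hp.n13
    · exact absurd hi h4
  have h2 := card_le_card hsub
  rw [card_singleton] at h2
  have h5 : 2 ≤ #((range 5).filter fun i => nb R (ad R d 1) i = 5) := h
  omega

/-- The lines of the table, the lines for the contacts 0, 1, 4 with one more hypothesis: the contact
0 has a second neighbour of length five. -/
structure TabE (R : Rot G) (K : ℕ) (P : V → Prop) : Prop extends TabBC R K P where
  r2 : ∀ d, Snd R K d → PairS R d → nb R d 1 = 6 → P d.fst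
  l2 : ∀ d, Snd R K d → PairS R d → nb R d 2 = 6 → P d.fst
  g1 : ∀ d, Pair7 R d → nb R d 3 = 5 → nb R d 5 ≠ 5 → Snd R K (ad R d 0) → Snd R K (ad R d 1) →
    Snd R K (ad R d 3) → P d.fst
  p2 : ∀ d, HypP2 R d → Snd R K (ad R d 3) →
    ((Snd R K (ad R d 0) ∧ Snd R K (ad R d 1)) ∨
      (Snd R K (ad R d 5) ∧ (Snd R K (ad R d 0) ∨ Snd R K (ad R d 1)))) → P d.fst
  p1 : ∀ d, HypP1 R d → Snd R K (ad R d 0) → Snd R K (ad R d 1) → Snd R K (ad R d 3) →
    Snd R K (ad R d 4) → P d.fst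
  g2 : ∀ d, HypG2 R d → nb R (ad R d 0) 3 = 5 → Snd R K (ad R d 0) → Snd R K (ad R d 1) →
    Snd R K (ad R d 4) → P d.fst
  g2r : ∀ d, HypG2R R d → nb R (ad R d 0) 3 = 5 → Snd R K (ad R d 0) → Snd R K (ad R d 1) →
    Snd R K (ad R d 4) → P d.fst
  g3 : ∀ d, sz R d = 7 → Snd R K (ad R d 0) → Snd R K (ad R d 2) → Snd R K (ad R d 4) →
    c5 R (ad R d 0) = 0 → c5 R (ad R d 2) = 0 → c5 R (ad R d 4) = 0 → P d.fst

/-- **A configuration of stage B gives a legal place or a pattern**; the face of the dart has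
length at least five. -/
theorem TabE.occE (hT : TabE R K P) (hT' : TabE (mir R) K P) (h3 : ∀ v, G.degree v = 3)
    (hK : 6 ≤ K) {e : G.Dart} (h5 : 5 ≤ sz R e) (h : ¬ LocB R K e) :
    (∃ x, Near R 60 e x ∧ P x.fst) ∨ Pat7 R e := by
  by_contra hcon
  push Not at hcon
  obtain ⟨hno, hpat⟩ := hcon
  -- the chains
  have hC : ∀ x, Near R 45 e x → sz R x = 5 → ClB R K x := by
    intro x hx hs
    refine ⟨fun hB h0 h2 => ?_, fun hB h0 h2 => ?_, fun hB h0 h2 => ?_⟩
    · obtain ⟨y, hy, hP⟩ := hT.toTabBC.two hT'.toTabBC h3 hK hB h0 h2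
      exact hno y ((hx.trans hy).mono (by norm_num)) hP
    · rcases hT.toTabBC.fin hT'.toTabBC h3 hK hB h0 h2 with h6 | ⟨y, hy, hP⟩
      · exact h6
      · exact absurd hP (hno y ((hx.trans hy).mono (by norm_num)))
    · have s0 : sz R (ad R x 0) = 5 := h0
      rcases TabBC.fin (R := mir R) hT'.toTabBC hT.toTabBC h3 hK hB.mir
        (by rw [nb5_mir0 hs]; exact h0)
        (by rw [ad5_mir0 hs, nb5_mir s0 (by norm_num)]; exact h2) with h6 | ⟨y, hy, hP⟩
      · exact h6.of_mir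
      · have hy' := near_mir' hy
        exact absurd hP (hno y (((hx.trans hy').symm').mono (by norm_num)) ∘ fun h => h)
  have hNB : ∀ x, Near R 20 e x → NoB R K 25 x := fun x hx y hy =>
    hC y ((hx.trans hy).mono (by norm_num))
  -- no neighbours of lengths five and six
  have h6 : ∀ x, Near R 17 e x → Snd R K x → nb R x 0 = 5 → ∀ j < 5, nb R x j ≠ 6 := by
    intro x hx hS h0 j hj hj6
    have hs := hS.1.1
    have hn := hNB x (hx.mono (by norm_num))
    have hp : PairS R x := hn.pairS (by norm_num) hS h0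
    have hp' : PairS (mir R) x.symm := by
      have hn' : NoB (mir R) K 20 x.symm := NoB.mir hn
      exact hn'.pairS (by norm_num) hS.mir (by rw [nb5_mir0 hs]; exact h0)
    have hx' : Near R 60 e x.symm := hx.symm'.mono (by norm_num)
    interval_cases j
    · omega
    · exact hno x (hx.mono (by norm_num)) (hT.r2 x hS hp hj6)
    · exact hno x (hx.mono (by norm_num)) (hT.l2 x hS hp hj6)
    · exact hno x.symm hx' (hT'.l2 x.symm hS.mir hp' (by
        rw [nb5_mir hs (by norm_num)]; exact hj6))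
    · exact hno x.symm hx' (hT'.r2 x.symm hS.mir hp' (by
        rw [nb5_mir hs (by norm_num)]; exact hj6))
  have nR : Near R 60 e e := Near.refl R 60 e
  have hn0 : NoB R K 25 e := hNB e (Near.refl R 20 e)
  apply h
  refine ⟨h5, fun hs => ?_, fun hs => ?_, fun hs ho => ?_⟩
  · -- faces of length five
    have hc := hC e (Near.refl R 45 e) hs
    refine ⟨hc.two, hc.end1, hc.end2, fun hS h0 => h6 e (Near.refl R 17 e) hS h0,
      fun hS h0 h1 => ?_⟩
    apply hpat
    refine ⟨hs, h0, h1, fun i hi h5' => ?_⟩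
    have h7 : Near R 17 e (R.next^[i] e) := ((Near.refl R 0 e).iter i).mono (by omega)
    have h8 := h6 _ h7 (hS.iter i) (by rw [nb_iter]; exact h5') (5 - i)
    rcases Nat.eq_zero_or_pos i with rfl | hi0
    · have h9 : nb R e 0 = 6 := h0
      omega
    · have h9 := h8 (by omega)
      rw [nb_iter, show i + (5 - i) = 0 + 5 by omega, nb_per R hs] at h9
      exact h9 h0
  · -- faces of length seven
    have hx' : Near R 60 e (R.next e).symm := (((Near.refl R 0 e).next).symm').mono (by norm_num)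
    have n1 : NoB R K 25 (R.next e) := hNB _ (((Near.refl R 0 e).next).mono (by norm_num))
    have hs1 : sz R (R.next e) = 7 := by rw [sz_next]; exact hs
    have hs' : sz (mir R) (R.next e).symm = 7 := by rw [sz_mir_symm]; exact hs1
    have n1' : NoB (mir R) K 20 (R.next e).symm := NoB.mir n1
    refine ⟨?_, ?_, ?_, ?_, ?_, ?_, ?_⟩
    · intro a b _ _ f
      rcases hn0.t3 h3 (by norm_num) hs a b f with ⟨k5, k3, hp⟩ | hp
      · exact hno e nR (hT.g1 e hp k3 k5 a b f)
      · exact hno e nR (hT.p2 e hp f (Or.inl ⟨a, b⟩))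
    · intro a b ca cb f
      have hp := hn0.pair7 h3 (by norm_num) hs a.1.1 b.1.1 (Or.inl a)
      rcases hn0.t4 h3 (by norm_num) hs a b f with k | k | k
      · exact hno e nR (hT.g2 e k (hp.o3 h3 ca) a b f)
      · have e3 := k.n03
        rw [ad_iter, show 4 + 0 = 4 from rfl] at e3
        refine hno _ hx' (hT'.g2 _ (g2_mir hp f.1.1 e3) ?_ ?_ ?_ ?_)
        · have s1 : sz R (ad R e 1) = 5 := hp.s1
          rw [ad7_mir0 hs, nb5_mir s1 (by norm_num)]
          exact hp.o2 h3 cb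
        · rw [ad7_mir0 hs]; exact b.mir
        · rw [ad7_mir1 hs]; exact a.mir
        · rw [ad7_mir hs (by norm_num)]; exact f.mir
      · exact hno e nR (hT.g2r e k (hp.o3 h3 ca) a b f)
    · intro a b _ _ f
      have a' : Snd (mir R) K (ad (mir R) (R.next e).symm 0) := by rw [ad7_mir0 hs]; exact b.mir
      have b' : Snd (mir R) K (ad (mir R) (R.next e).symm 1) := by rw [ad7_mir1 hs]; exact a.mir
      have f' : Snd (mir R) K (ad (mir R) (R.next e).symm 3) := by
        rw [ad7_mir hs (by norm_num)]; exact f.mir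
      rcases n1'.t3 h3 (by norm_num) hs' a' b' f' with ⟨k5, k3, hp⟩ | hp
      · exact hno _ hx' (hT'.g1 _ hp k3 k5 a' b' f')
      · exact hno _ hx' (hT'.p2 _ hp f' (Or.inl ⟨a', b'⟩))
    · rintro ⟨a, b, c, d⟩
      exact hno e nR (hT.p1 e (hn0.p1 h3 (by norm_num) hs a.1.1 b.1.1 (Or.inl a) c.1.1 d.1.1
        (Or.inl c)) a b c d)
    · rintro ⟨a, b, c, d⟩
      exact hno e nR (hT.p2 e (hn0.p2 h3 (by norm_num) hs a.1.1 b (Or.inl a) c d.1.1) c
        (Or.inr ⟨d, Or.inl a⟩))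
    · rintro ⟨a, b, c, d⟩
      exact hno e nR (hT.p2 e (hn0.p2 h3 (by norm_num) hs a b.1.1 (Or.inr b) c d.1.1) c
        (Or.inr ⟨d, Or.inr b⟩))
    · rintro ⟨a, b, c, d, f, k⟩
      exact hno e nR (hT.g3 e hs a b c d f k)
  · -- long faces
    obtain ⟨y, hy, hP⟩ := hT.toTabBC.long hT'.toTabBC h3 hK hs fun i hi => ho i (by omega)
    exact hno y (hy.mono (by norm_num)) hP


/-- The lines of the table: the lines of stage B at vertices far from the faces of length four and
from the nontrivial edge cuts with at most three edges. -/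
structure TabC (R : Rot G) (K : ℕ) (P : V → Prop) : Prop where
  m2 : ∀ d, N4 R 60 d.fst → Chain R d → nb R (ad R d 4) 2 ≠ 5 → ¬ (nb R d 0 = 5 ∧ nb R d 2 = 5) →
    ¬ (K ≤ nb R (ad R d 4) 3 ∧ K ≤ nb R d 3) →
    ¬ (K ≤ nb R (ad R d 1) 3 ∧ K ≤ nb R (ad R d 1) 2) →
    ¬ (K ≤ nb R d 2 ∧ K ≤ nb R d 0) → P d.fst
  m3 : ∀ d, N4 R 60 d.fst → Chain R d → nb R (ad R d 4) 2 ≠ 5 → nb R (ad R d 1) 3 ≠ 5 →
    nb R d 0 < K → nb R d 2 < K → nb R d 3 < K → P d.fst
  m6 : ∀ d, N4 R 60 d.fst → Chain R d → nb R (ad R d 4) 2 ≠ 5 → nb R (ad R d 1) 2 ≠ 5 →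
    nb R d 0 < K → nb R d 2 < K → nb R d 3 < K → nb R (ad R d 1) 3 < K → P d.fst
  flower : ∀ d, N4 R 60 d.fst → sz R d = 5 → (∀ i < 5, nb R d i = 5) → P d.fst
  z4 : ∀ d, N4 R 60 d.fst → Chain R d → nb R (ad R d 4) 2 = 5 → ¬ (nb R d 0 = 5 ∧ nb R d 2 = 5) →
    ¬ (nb R d 3 = 5 ∧ nb R (ad R d 4) 3 = 5) →
    One4 (K ≤ nb R d 0 ∧ K ≤ nb R d 2) (K ≤ nb R (ad R d 1) 2 ∧ K ≤ nb R (ad R d 1) 3)
      (K ≤ nb R d 3 ∧ K ≤ nb R (ad R d 4) 3)
      (K ≤ nb R (ad R (ad R d 4) 2) 2 ∧ K ≤ nb R (ad R (ad R d 4) 2) 3) → P d.fst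
  r2 : ∀ d, N4 R 60 d.fst → Snd R K d → PairS R d → nb R d 1 = 6 → P d.fst
  l2 : ∀ d, N4 R 60 d.fst → Snd R K d → PairS R d → nb R d 2 = 6 → P d.fst
  g1 : ∀ d, N4 R 60 d.fst → Pair7 R d → nb R d 3 = 5 → nb R d 5 ≠ 5 → Snd R K (ad R d 0) →
    Snd R K (ad R d 1) → Snd R K (ad R d 3) → P d.fst
  p2 : ∀ d, N4 R 60 d.fst → HypP2 R d → Snd R K (ad R d 3) →
    ((Snd R K (ad R d 0) ∧ Snd R K (ad R d 1)) ∨
      (Snd R K (ad R d 5) ∧ (Snd R K (ad R d 0) ∨ Snd R K (ad R d 1)))) → P d.fst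
  p1 : ∀ d, N4 R 60 d.fst → HypP1 R d → Snd R K (ad R d 0) → Snd R K (ad R d 1) →
    Snd R K (ad R d 3) → Snd R K (ad R d 4) → P d.fst
  g2 : ∀ d, N4 R 60 d.fst → HypG2 R d → nb R (ad R d 0) 3 = 5 → Snd R K (ad R d 0) →
    Snd R K (ad R d 1) → Snd R K (ad R d 4) → P d.fst
  g2r : ∀ d, N4 R 60 d.fst → HypG2R R d → nb R (ad R d 0) 3 = 5 → Snd R K (ad R d 0) →
    Snd R K (ad R d 1) → Snd R K (ad R d 4) → P d.fst
  g3 : ∀ d, N4 R 60 d.fst → sz R d = 7 → Snd R K (ad R d 0) → Snd R K (ad R d 2) →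
    Snd R K (ad R d 4) → c5 R (ad R d 0) = 0 → c5 R (ad R d 2) = 0 → c5 R (ad R d 4) = 0 → P d.fst

/-- A place, or a face of length four or a nontrivial edge cut with at most three edges near the
vertex. -/
def PC (R : Rot G) (P : V → Prop) (v : V) : Prop := P v ∨ ¬ N4 R 60 v

/-- The table gives the table without the hypothesis on faces and cuts for the predicate `PC`. -/
theorem TabC.tabE (h : TabC R K P) : TabE R K (PC R P) where
  m2 := fun d a1 a2 a3 a4 a5 a6 => by
    by_cases hN : N4 R 60 d.fst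
    · exact Or.inl (h.m2 d hN a1 a2 a3 a4 a5 a6)
    · exact Or.inr hN
  m3 := fun d a1 a2 a3 a4 a5 a6 => by
    by_cases hN : N4 R 60 d.fst
    · exact Or.inl (h.m3 d hN a1 a2 a3 a4 a5 a6)
    · exact Or.inr hN
  m6 := fun d a1 a2 a3 a4 a5 a6 a7 => by
    by_cases hN : N4 R 60 d.fst
    · exact Or.inl (h.m6 d hN a1 a2 a3 a4 a5 a6 a7)
    · exact Or.inr hN
  flower := fun d a1 a2 => by
    by_cases hN : N4 R 60 d.fst
    · exact Or.inl (h.flower d hN a1 a2)
    · exact Or.inr hN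
  z4 := fun d a1 a2 a3 a4 a5 => by
    by_cases hN : N4 R 60 d.fst
    · exact Or.inl (h.z4 d hN a1 a2 a3 a4 a5)
    · exact Or.inr hN
  r2 := fun d a1 a2 a3 => by
    by_cases hN : N4 R 60 d.fst
    · exact Or.inl (h.r2 d hN a1 a2 a3)
    · exact Or.inr hN
  l2 := fun d a1 a2 a3 => by
    by_cases hN : N4 R 60 d.fst
    · exact Or.inl (h.l2 d hN a1 a2 a3)
    · exact Or.inr hN
  g1 := fun d a1 a2 a3 a4 a5 a6 => by
    by_cases hN : N4 R 60 d.fst
    · exact Or.inl (h.g1 d hN a1 a2 a3 a4 a5 a6)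
    · exact Or.inr hN
  p2 := fun d a1 a2 a3 => by
    by_cases hN : N4 R 60 d.fst
    · exact Or.inl (h.p2 d hN a1 a2 a3)
    · exact Or.inr hN
  p1 := fun d a1 a2 a3 a4 a5 => by
    by_cases hN : N4 R 60 d.fst
    · exact Or.inl (h.p1 d hN a1 a2 a3 a4 a5)
    · exact Or.inr hN
  g2 := fun d a1 a2 a3 a4 a5 => by
    by_cases hN : N4 R 60 d.fst
    · exact Or.inl (h.g2 d hN a1 a2 a3 a4 a5)
    · exact Or.inr hN
  g2r := fun d a1 a2 a3 a4 a5 => by
    by_cases hN : N4 R 60 d.fst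
    · exact Or.inl (h.g2r d hN a1 a2 a3 a4 a5)
    · exact Or.inr hN
  g3 := fun d a1 a2 a3 a4 a5 a6 a7 => by
    by_cases hN : N4 R 60 d.fst
    · exact Or.inl (h.g3 d hN a1 a2 a3 a4 a5 a6 a7)
    · exact Or.inr hN

theorem PC.mir_eq : PC (mir R) P = PC R P := by
  funext v
  unfold PC
  rw [N4.mir_iff]

/-- The same for the mirror image. -/
theorem TabC.tabE_mir (h : TabC (mir R) K P) : TabE (mir R) K (PC R P) := by
  have h1 := h.tabE
  rwa [PC.mir_eq] at h1

/-- A nontrivial edge cut with at most three edges near a vertex. -/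
def Cut3At (_R : Rot G) (n : ℕ) (v : V) : Prop :=
  ∃ A : Finset V, out G A ≤ 3 ∧ 2 ≤ #A ∧ 2 ≤ #Aᶜ ∧ ∃ y : G.Dart, y.fst ∈ A ∧ y.snd ∉ A ∧
    ((∃ p : G.Walk v y.fst, p.length ≤ n) ∨ ∃ p : G.Walk v y.snd, p.length ≤ n)

theorem not_N3 {n : ℕ} {v : V} : ¬ N3 R n v ↔ Cut3At R n v := by
  unfold N3 Cut3At
  constructor
  · intro h
    push Not at h
    obtain ⟨A, h1, ⟨d, h2, h3, h4⟩, h5, h6⟩ := h
    exact ⟨A, h1, h5, h6, d, h2, h3, h4⟩
  · rintro ⟨A, h1, h5, h6, d, h2, h3, h4⟩ hN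
    rcases hN A h1 ⟨d, h2, h3, h4⟩ with h | h <;> omega

theorem Cut3At.of_walk {n m k : ℕ} {v w : V} (h : Cut3At R n w) (p : G.Walk v w)
    (hp : p.length ≤ m) (hk : n + m ≤ k) : Cut3At R k v := by
  rw [← not_N3] at h ⊢
  exact fun hN => h (hN.of_walk p hp hk)

/-- **A configuration gives a place, a face of length four or a nontrivial edge cut with at most
three edges near the dart, or a pattern.** -/
theorem TabC.occC (hC : TabC R K P) (hC' : TabC (mir R) K P) (h3 : ∀ v, G.degree v = 3)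
    (h4 : ∀ d, 4 ≤ sz R d) (hK : 6 ≤ K) {e : G.Dart} (h : ¬ LocB R K e) :
    (∃ x, Near R 60 e x ∧ P x.fst) ∨
      (∃ x, sz R x = 4 ∧ ∃ p : G.Walk e.fst x.fst, p.length ≤ 120) ∨ Pat7 R e ∨
      Cut3At R 120 e.fst := by
  by_cases he : sz R e = 4
  · exact Or.inr (Or.inl ⟨e, he, SimpleGraph.Walk.nil, by
      rw [SimpleGraph.Walk.length_nil]; omega⟩)
  have h5 : 5 ≤ sz R e := by
    have := h4 e
    omega
  rcases hC.tabE.occE hC'.tabE_mir h3 hK h5 h with ⟨x, hx, hP | hN⟩ | hp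
  · exact Or.inl ⟨x, hx, hP⟩
  · right
    obtain ⟨p, hp⟩ := hx.walk
    unfold N4 at hN
    rw [not_and_or] at hN
    rcases hN with hN | hN
    · left
      push Not at hN
      obtain ⟨y, ⟨q, hq⟩, hy⟩ := hN
      exact ⟨y, hy, p.append q, by rw [SimpleGraph.Walk.length_append]; omega⟩
    · right
      right
      exact (not_N3.1 hN).of_walk p hp (by norm_num)
  · exact Or.inr (Or.inr (Or.inl hp))

end Pool.Agent.DischB
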