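import Mathlib
import Pool.Agent.Work.MP_392c8e_co_unl.C4Base

/-!
# Near darts along walks of a cubic graph
-/

set_option autoImplicit false
set_option linter.unusedSectionVars false

namespace Pool.Agent.DischB

open Finset Pool.Agent.Sub392 Pool.Agent.T392 Pool.Agent.Disch392 Pool.Agent.U2Geo

variable {V : Type} [Fintype V] [DecidableEq V] {G : SimpleGraph V} [DecidableRel G.Adj]
  {R : Rot G} {K : ℕ} {P : V → Prop}

theorem rot_eq_next_symm (R : Rot G) (d : G.Dart) : R.rot d = R.next d.symm := by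
  rw [R.rot_eq]

/-- The darts at a vertex of a cubic graph. -/
theorem dart_cases (h3 : ∀ v, G.degree v = 3) {d x : G.Dart} (h : d.fst = x.fst) :
    x = d ∨ x = R.rot d ∨ x = R.rot (R.rot d) := by
  obtain ⟨i, hi⟩ := R.cyc d x h
  have hr : R.rot (R.rot (R.rot d)) = d := T1FF.rot3 R (h3 _)
  have key : ∀ n : ℕ, (R.rot ^ n) d = d ∨ (R.rot ^ n) d = R.rot d ∨
      (R.rot ^ n) d = R.rot (R.rot d) := by
    intro n
    induction n with
    | zero => exact Or.inl rfl
    | succ n ih =>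
      rw [pow_succ', Equiv.Perm.mul_apply]
      rcases ih with h | h | h
      · rw [h]; exact Or.inr (Or.inl rfl)
      · rw [h]; exact Or.inr (Or.inr rfl)
      · rw [h, hr]; exact Or.inl rfl
  obtain ⟨n, hn⟩ : ∃ n : ℕ, (R.rot ^ n) d = x := by
    obtain ⟨n, hn⟩ := (Equiv.Perm.SameCycle.exists_nat_pow_eq (f := R.rot) ⟨i, hi⟩ :
      ∃ n : ℕ, (R.rot ^ n) d = x)
    exact ⟨n, hn⟩
  rcases key n with h | h | h
  · exact Or.inl (by rw [← hn, h])
  · exact Or.inr (Or.inl (by rw [← hn, h]))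
  · exact Or.inr (Or.inr (by rw [← hn, h]))

/-- Darts at the same vertex are near. -/
theorem near_same (h3 : ∀ v, G.degree v = 3) {d x : G.Dart} (h : d.fst = x.fst) :
    Near R 2 d x := by
  rcases dart_cases (R := R) h3 h with rfl | rfl | rfl
  · exact Near.refl R 2 _
  · rw [rot_eq_next_symm]
    exact ((Near.refl R 0 d).symm').next
  · have hr : R.rot (R.rot (R.rot d)) = d := T1FF.rot3 R (h3 _)
    have h1 : R.rot.symm d = R.rot (R.rot d) := by
      rw [Equiv.symm_apply_eq]; exact hr.symm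
    rw [← h1, rot_symm_eq]
    exact ((Near.refl R 0 d).prev).symm'

/-- **Darts at the end of a walk are near.** -/
theorem near_of_walk (h3 : ∀ v, G.degree v = 3) {v w : V} (p : G.Walk v w) :
    ∀ {n : ℕ} {d x : G.Dart}, p.length ≤ n → d.fst = v → x.fst = w → Near R (3 * n + 2) d x := by
  induction p with
  | nil =>
    intro n d x _ hd hx
    exact (near_same h3 (hd.trans hx.symm)).mono (by omega)
  | @cons a b c hab q ih =>
    intro n d x hp hd hx
    rw [SimpleGraph.Walk.length_cons] at hp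
    obtain ⟨m, rfl⟩ : ∃ m, n = m + 1 := ⟨n - 1, by omega⟩
    set y : G.Dart := ⟨(a, b), hab⟩ with hy
    have h1 : Near R 2 d y := near_same h3 hd
    have h2 : Near R 3 d y.symm := h1.symm'
    have h3' : Near R (3 * m + 2) y.symm x := ih (by omega) rfl hx
    exact (h2.trans h3').mono (by omega)

/-- A nontrivial edge cut with at most three edges near a dart. -/
def Cut3Near (R : Rot G) (k : ℕ) (e : G.Dart) : Prop :=
  ∃ A : Finset V, out G A ≤ 3 ∧ 2 ≤ #A ∧ 2 ≤ #Aᶜ ∧ ∃ y : G.Dart, y.fst ∈ A ∧ y.snd ∉ A ∧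
    Near R k e y

theorem Cut3At.near (h3 : ∀ v, G.degree v = 3) {n : ℕ} {e : G.Dart} (h : Cut3At R n e.fst) :
    Cut3Near R (3 * n + 3) e := by
  obtain ⟨A, h1, h2, h4, y, h5, h6, ⟨p, hp⟩ | ⟨p, hp⟩⟩ := h
  · exact ⟨A, h1, h2, h4, y, h5, h6, (near_of_walk h3 p hp rfl rfl).mono (by omega)⟩
  · refine ⟨A, h1, h2, h4, y, h5, h6, ?_⟩
    have h7 : Near R (3 * n + 2) e y.symm := near_of_walk h3 p hp rfl rfl
    have h8 := h7.symm'
    rw [SimpleGraph.Dart.symm_symm] at h8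
    exact h8.mono (by omega)

theorem Cut3Near.mono {k m : ℕ} {e : G.Dart} (h : Cut3Near R k e) (hkm : k ≤ m) :
    Cut3Near R m e := by
  obtain ⟨A, h1, h2, h4, y, h5, h6, h7⟩ := h
  exact ⟨A, h1, h2, h4, y, h5, h6, h7.mono hkm⟩

theorem Cut3Near.trans {k m : ℕ} {d e : G.Dart} (hd : Near R m d e) (h : Cut3Near R k e) :
    Cut3Near R (m + k) d := by
  obtain ⟨A, h1, h2, h4, y, h5, h6, h7⟩ := h
  exact ⟨A, h1, h2, h4, y, h5, h6, hd.trans h7⟩

/-- **The local theorem**, with near darts. -/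
theorem TabC.occN (hC : TabC R K P) (hC' : TabC (mir R) K P) (h3 : ∀ v, G.degree v = 3)
    (h4 : ∀ d, 4 ≤ sz R d) (hK : 6 ≤ K) {e : G.Dart} (h : ¬ LocB R K e) :
    (∃ x, Near R 60 e x ∧ P x.fst) ∨ Pat7 R e ∨ (∃ x, Near R 363 e x ∧ sz R x = 4) ∨
      Cut3Near R 363 e := by
  rcases hC.occC hC' h3 h4 hK h with h1 | ⟨x, hx, p, hp⟩ | h1 | h1
  · exact Or.inl h1
  · exact Or.inr (Or.inr (Or.inl ⟨x, (near_of_walk h3 p hp rfl rfl).mono (by norm_num), hx⟩))
  · exact Or.inr (Or.inl h1)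
  · exact Or.inr (Or.inr (Or.inr (h1.near h3)))

end Pool.Agent.DischB
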