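import Mathlib
import Pool.Agent.Work.MP_392c8e_co_uni.MainOf
import Pool.Agent.Work.MP_392c8e_co_uni.FamilyB
import Pool.Agent.Work.MP_392c8e_co_uni.FamNearQ
import Pool.Agent.Work.MP_392c8e_co_uni.CombQC
import Pool.Agent.Work.MP_392c8e_co_unl.C4Near
import Pool.Agent.Work.MP_392c8e_co_unl.GeoC4

/-!
# Places, patterns, faces of length four and small edge cuts near the darts where the condition fails
-/

set_option autoImplicit false
set_option linter.unusedSectionVars false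

namespace Pool.Agent.Uni21

open Finset Pool.Agent.Sub392 Pool.Agent.T392 Pool.Agent.U2Geo Pool.Agent.Disch392
open Pool.Agent.DischB
open Pool.Agent.Uni392 (StrictN Place MidQ PlOK AtCat family_genQ CE GdB)
open Pool.Agent.Uni91 (VD ends Fam FI FP FG)
open Pool.Agent.T1Red (newG Deg3 deg3_iff HasStrict)

variable {V : Type} [Fintype V] [DecidableEq V] {G : SimpleGraph V} [DecidableRel G.Adj]

/-- The darts at which the condition fails are near a place, a pattern, a face of length four or a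
nontrivial edge cut with at most three edges. -/
theorem occ_gdC {R : Rot G} (hcub : ∀ v, G.degree v = 3) (h4 : ∀ d, 4 ≤ sz R d) {K c : ℕ}
    (hK : 6 ≤ K) {Cat : Place V → Prop} (hT : TabC R K (AtCat Cat))
    (hT' : TabC (mir R) K (AtCat Cat)) (d : G.Dart) (hd : ¬ GdB R K c d) :
    (∃ x, Near R (c + 363) d x ∧ ∃ q, Cat q ∧ x.fst ∈ q.Vert) ∨
      (∃ e, Near R (c + 363) d e ∧ Pat7 R e) ∨ (∃ e, Near R (c + 363) d e ∧ sz R e = 4) ∨
      Cut3Near R (c + 363) d := by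
  unfold GdB at hd
  push Not at hd
  obtain ⟨e, he, hB⟩ := hd
  rcases hT.occN hT' hcub h4 hK hB with ⟨x, hx, hq⟩ | hpat | ⟨x, hx, h⟩ | hcut
  · exact Or.inl ⟨x, (he.trans hx).mono (by omega), hq⟩
  · exact Or.inr (Or.inl ⟨e, he.mono (by omega), hpat⟩)
  · exact Or.inr (Or.inr (Or.inl ⟨x, he.trans hx, h⟩))
  · exact Or.inr (Or.inr (Or.inr (hcut.trans he)))

/-- The same, if every nontrivial edge cut with at most three edges is near a marked vertex. -/
theorem occ_gdC_base {R : Rot G} (hcub : ∀ v, G.degree v = 3) (h4 : ∀ d, 4 ≤ sz R d) {K c : ℕ}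
    (hK : 6 ≤ K) {Cat : Place V → Prop} (hT : TabC R K (AtCat Cat))
    (hT' : TabC (mir R) K (AtCat Cat)) {BV : V → Prop} {m : ℕ}
    (hcut : ∀ A : Finset V, out G A ≤ 3 → 2 ≤ #A → 2 ≤ #Aᶜ → ∀ y : G.Dart, y.fst ∈ A →
      y.snd ∉ A → ∃ x, Near R m y x ∧ BV x.fst)
    (d : G.Dart) (hd : ¬ GdB R K c d) :
    (∃ x, Near R (c + 363 + m) d x ∧ ∃ q, Cat q ∧ x.fst ∈ q.Vert) ∨
      (∃ e, Near R (c + 363 + m) d e ∧ Pat7 R e) ∨
      (∃ e, Near R (c + 363 + m) d e ∧ sz R e = 4) ∨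
      ∃ x, Near R (c + 363 + m) d x ∧ BV x.fst := by
  rcases occ_gdC hcub h4 hK hT hT' d hd with ⟨x, hx, h⟩ | ⟨x, hx, h⟩ | ⟨x, hx, h⟩ |
    ⟨A, h1, h2, h5, y, h6, h7, h8⟩
  · exact Or.inl ⟨x, hx.mono (by omega), h⟩
  · exact Or.inr (Or.inl ⟨x, hx.mono (by omega), h⟩)
  · exact Or.inr (Or.inr (Or.inl ⟨x, hx.mono (by omega), h⟩))
  · obtain ⟨x, hx, h9⟩ := hcut A h1 h2 h5 y h6 h7
    exact Or.inr (Or.inr (Or.inr ⟨x, h8.trans hx, h9⟩))

end Pool.Agent.Uni21
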