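import Mathlib
import Pool.Agent.Work.MP_392c8e_co_uni.StrictBaseT
import Pool.Agent.Work.MP_392c8e_co_uni.Poles7
import Pool.Agent.Work.MP_392c8e_co_unl.MainC

/-!
# The uniform bound for graphs with vertices of degree two

The vertices of degree two get cube poles; the small cuts of the graph with poles are near the
poles.  With the table of places this gives the bound for the graph and for the graph after a
surgery.
-/

set_option autoImplicit false
set_option linter.unusedSectionVars false

namespace Pool.Agent.BCore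

open Finset Pool.Agent.Red Pool.Agent.Sub392 Pool.Agent.T392 Pool.Agent.Uni392 Pool.Agent.U2Geo
open Pool.Agent.DischB Pool.Agent.Disch392 Pool.Agent.Poles
open Pool.Agent.Uni91 (VD OnP Cs full ends)
open Pool.Agent.T1Red (newG Deg3 HasStrict deg3_iff)
open Pool.Agent.Uni21 (occ_gdC_base)

variable {V M : Type} [Fintype V] [DecidableEq V] [Fintype M] [DecidableEq M]
  {L : SimpleGraph V} [DecidableRel L.Adj] {σ β : M → V} {D : V → Prop}
  {E : List (V × List V × V)}

/-- **The core.** -/
theorem strictN_core (h : PD L σ β) (R : Rot (poleG L σ β)) (hC : C4 R) {r m : ℕ}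
    (hT : TabC R 1000 (AtCat (PlOK R r))) (hT' : TabC (mir R) 1000 (AtCat (PlOK R r)))
    (hpl : Pl L) {D0 : ℕ} {T : Finset V} (hb : BaseT L D E D0 T) (hD0 : 1 ≤ D0)
    (hE : ∀ q ∈ E, ∀ u v, OnP q u v → ∀ m, s(u, v) ≠ s(σ m, β m))
    (hlen : ∀ q ∈ E, q.2.1.length ≤ 299)
    (htri : (newG L D (ends E)).CliqueFree 3) (hdeg : Deg3 (newG L D (ends E)))
    (hcut : ∀ A : Finset (V ⊕ (M × Fin 7)), out (poleG L σ β) A ≤ 3 → 2 ≤ #A → 2 ≤ #Aᶜ →
      ∀ y : (poleG L σ β).Dart, y.fst ∈ A → y.snd ∉ A →
      ∃ x, Near R m y x ∧ x.fst ∈ Uni392.BV (poleG L σ β) (I1 M D)) :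
    StrictN (newG L D (ends E)) (NBase 7 15 (376 + m) r D0) := by
  classical
  have g := hC.geo
  refine strictN_old1 h ?_
  refine strictN_baseT (R := R) (T := T.image Sum.inl) (Gd := GdB R 1000 13) hC.plane hC.cub g.br
    (baseT1 h hb hE hD0) ?_ (pl1 h hpl hb.vd hE) (cliqueFree1 h htri) (deg3_1 h hdeg)
    (PlOK R r) (fun _ h => h) ?_ (A := 7) (E := 15) ?_
  · exact fun q hq => length_P1 (by norm_num) hlen hq
  · intro d hd
    rcases occ_gdC_base hC.cub g.four_le_sz (by norm_num) hT hT' hcut d hd with h1 | h1 | h1 | h1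
    · exact Or.inl h1
    · exact Or.inr (Or.inl h1)
    · exact Or.inr (Or.inr (Or.inl h1))
    · exact Or.inr (Or.inr (Or.inr h1))
  · intro U
    refine (disch_locB (le_refl 1000) (le_refl 13) R hC.cub U).trans (le_of_eq ?_)
    push_cast
    refine congrArg (fun n : ℕ => _ + 7 * (n : ℝ) + _) (congrArg Finset.card
      (Finset.ext fun d => ?_))
    rw [mem_filter, mem_filter]
    simp only [mem_univ, true_and, GdB]

end Pool.Agent.BCore
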