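import Mathlib
import Pool.Agent.Work.MP_392c8e_co_unl.BaseCore
import Pool.Agent.Work.MP_392c8e_co_uni.GoodS
import Pool.Agent.Work.MP_392c8e_co_uni.ColBridge

/-!
# One level for the base class: the graph and the graph after the surgery at a root
-/

set_option autoImplicit false
set_option linter.unusedSectionVars false

namespace Pool.Agent.BCore

open Finset Pool.Agent.Red Pool.Agent.Sub392 Pool.Agent.T392 Pool.Agent.Uni392 Pool.Agent.U2Geo
open Pool.Agent.DischB Pool.Agent.Disch392 Pool.Agent.Poles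
open Pool.Agent.Uni91 (VD OnP Cs full ends)
open Pool.Agent.T1Red (newG Deg3 HasStrict deg3_iff)
open Pool.Agent.CutN (RootG ColN colN_iff)

/-- No surgery. -/
theorem baseT_none {V : Type} [Fintype V] [DecidableEq V] {L : SimpleGraph V}
    [DecidableRel L.Adj] : BaseT L (fun _ => False) [] 1 ∅ where
  vd := {
    chain := fun p hp => absurd hp List.not_mem_nil
    disj := List.Pairwise.nil
    int := fun p hp => absurd hp List.not_mem_nil
    edge := fun p hp => absurd hp List.not_mem_nil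
    edisj := List.Pairwise.nil }
  int := fun v hv => hv.elim
  ter := fun v _ h => (by
    obtain ⟨w, -, hw⟩ := h
    exact hw.elim)
  sub := fun v hv => absurd hv (Finset.notMem_empty v)
  card := by simp
  joined := fun v hv => absurd hv (Finset.notMem_empty v)

section Spot

variable {V : Type} [Fintype V] [DecidableEq V] {G : SimpleGraph V} [DecidableRel G.Adj]
  {x p q y : V}

theorem nbr3 (h : Spot.At G x p q y) (h3 : G.degree x = 3) {z : V} (hz : G.Adj x z) :
    z = p ∨ z = q ∨ z = y := by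
  by_contra hcon
  push Not at hcon
  have h1 : ({z, p, q, y} : Finset V) ⊆ G.neighborFinset x := by
    intro w hw
    rw [G.mem_neighborFinset]
    simp only [mem_insert, mem_singleton] at hw
    rcases hw with rfl | rfl | rfl | rfl
    · exact hz
    · exact h.hp
    · exact h.hq
    · exact h.hy
  have h2 : #({z, p, q, y} : Finset V) = 4 := by
    rw [card_insert_of_notMem, card_insert_of_notMem, card_insert_of_notMem, card_singleton]
    · simpa using h.hqy
    · simpa using ⟨h.hpq, h.hpy⟩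
    · simpa using hcon
  have h4 := card_le_card h1
  rw [G.card_neighborFinset_eq_degree] at h4
  omega

/-- **The spot is a base surgery.** -/
theorem baseT_spot (h : Spot.At G x p q y) (h3 : G.degree x = 3) :
    BaseT G (Spot.I0 x) (Spot.P0 x p q) 1 {p, q} where
  vd := Spot.vd h
  int := by
    intro v hv
    left
    refine ⟨_, List.mem_singleton.2 rfl, ?_⟩
    rw [show v = x from hv]
    exact List.mem_singleton.2 rfl
  ter := by
    rintro v - ⟨w, hw, hwx⟩
    rw [show w = x from hwx] at hw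
    rcases nbr3 h h3 hw.symm with rfl | rfl | rfl
    · exact Or.inr (by simp)
    · exact Or.inr (by simp)
    · exact Or.inl ⟨0, Nat.zero_le _, v, x, (Spot.del h).symm, Steps.refl _⟩
  sub := by
    intro v hv
    rw [mem_insert, mem_singleton] at hv
    rcases hv with rfl | rfl
    · exact ⟨Or.inr ⟨x, h.hp.symm, rfl⟩, fun h1 => h.hp.ne (show v = x from h1).symm⟩
    · exact ⟨Or.inr ⟨x, h.hq.symm, rfl⟩, fun h1 => h.hq.ne (show v = x from h1).symm⟩
  card := (card_insert_le _ _).trans (by rw [card_singleton]; norm_num)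
  joined := by
    have h1 : Steps (nbN G (Spot.I0 x) (Spot.P0 x p q)) 1 p q :=
      Steps.cons (mem_nbN.2 ((Spot.adj_iff h).2 (Or.inr (Or.inl ⟨rfl, rfl⟩)))) (Steps.refl _)
    have h2 : Steps (nbN G (Spot.I0 x) (Spot.P0 x p q)) 1 q p :=
      Steps.cons (mem_nbN.2 ((Spot.adj_iff h).2 (Or.inr (Or.inr ⟨rfl, rfl⟩)))) (Steps.refl _)
    intro t ht t' ht'
    rw [mem_insert, mem_singleton] at ht ht'
    rcases ht with rfl | rfl <;> rcases ht' with rfl | rfl
    · exact ⟨0, Nat.zero_le _, Steps.refl _⟩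
    · exact ⟨1, le_rfl, h1⟩
    · exact ⟨1, le_rfl, h2⟩
    · exact ⟨0, Nat.zero_le _, Steps.refl _⟩

/-- The third neighbour. -/
theorem exists_at (hx3 : G.degree x = 3) (hp : G.Adj x p) (hq : G.Adj x q) (hpq : p ≠ q)
    (ho : ∀ w, G.Adj p w → G.Adj q w → w = x) : ∃ y, Spot.At G x p q y := by
  obtain ⟨y, hy, hyp, hyq⟩ : ∃ y, G.Adj x y ∧ y ≠ p ∧ y ≠ q := by
    by_contra hcon
    push Not at hcon
    have h3 : G.neighborFinset x ⊆ {p, q} := by
      intro z hz
      rw [G.mem_neighborFinset] at hz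
      rw [mem_insert, mem_singleton]
      by_contra h4
      push Not at h4
      exact h4.2 (hcon z hz h4.1)
    have h4 := card_le_card h3
    rw [G.card_neighborFinset_eq_degree, hx3] at h4
    have h5 := card_le_two (a := p) (b := q)
    omega
  exact ⟨y, hp, hq, hy, hpq, hyp.symm, hyq.symm, ho⟩

end Spot

/-- The table of places of all graphs. -/
def TabH (r : ℕ) : Prop :=
  ∀ (V : Type) [Fintype V] [DecidableEq V] (G : SimpleGraph V) [DecidableRel G.Adj] (R : Rot G),
    C4 R → TabC R 1000 (AtCat (PlOK R r)) ∧ TabC (mir R) 1000 (AtCat (PlOK R r))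

variable {V M : Type} [Fintype V] [DecidableEq V] [Fintype M] [DecidableEq M]
  {L : SimpleGraph V} [DecidableRel L.Adj] {σ β : M → V}

/-- The constant. -/
def NStar (rr r : ℕ) : ℕ := NBase 7 15 (376 + (5 * (r + 2) + 4)) rr 1

/-- The data at the poles. -/
structure PoleOK (L : SimpleGraph V) [DecidableRel L.Adj] (σ β : M → V) (r : ℕ) : Prop where
  pd : PD L σ β
  hd : ∀ v, L.degree v = 3 ∨ ∃ m, σ m = v
  hm : ∀ m, L.degree (σ m) = 2
  hc1 : ∀ A : Finset V, A.Nonempty → Aᶜ.Nonempty → 2 ≤ out L A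
  hc2 : ∀ A : Finset V, out L A ≤ 2 → #A ≤ 2 ∨ #Aᶜ ≤ 2
  hc3 : ∀ A : Finset V, out L A ≤ 3 → 2 ≤ #(A.filter fun v => L.degree v = 3) →
    2 ≤ #(Aᶜ.filter fun v => L.degree v = 3) → ∀ u ∈ A, ∀ v ∉ A, L.Adj u v →
    ∃ w, L.degree w = 2 ∧ ∃ p : L.Walk u w, p.length ≤ r
  pl : Pl L
  tri : L.CliqueFree 3
  deg : Deg3 L

/-- **The graph.** -/
theorem strictN_star {rr r : ℕ} (hTab : TabH rr) (h : PoleOK L σ β r)
    (R : Rot (poleG L σ β)) (hC : C4 R) : StrictN L (NStar rr r) := by
  obtain ⟨h1, h2⟩ := hTab _ _ R hC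
  have h3 := strictN_core h.pd R hC (m := 5 * (r + 2) + 4) h1 h2 h.pl
    (D := fun _ => False) (E := []) baseT_none le_rfl (fun q hq => absurd hq List.not_mem_nil)
    (fun q hq => absurd hq List.not_mem_nil) (by rw [newG_none]; exact h.tri)
    (by rw [newG_none]; exact h.deg)
    (fun A a1 a2 a3 y a4 a5 => hcut_poles h.pd h.hd h.hm h.hc1 h.hc2 h.hc3 R _ A a1 a2 a3 y a4 a5)
  rw [newG_none] at h3
  exact h3

/-- **The graph after the surgery at a root.** -/
theorem strictN_starX {rr r : ℕ} (hTab : TabH rr) (h : PoleOK L σ β r)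
    (R : Rot (poleG L σ β)) (hC : C4 R) {x p q : V} (hr : RootG L x) (hp : L.Adj x p)
    (hq : L.Adj x q) (hpq : p ≠ q) (ho : ∀ w, L.Adj p w → L.Adj q w → w = x) :
    StrictN (newG L (fun v => v = x) [(p, q)]) (NStar rr r) := by
  classical
  obtain ⟨h1, h2⟩ := hTab _ _ R hC
  have hdeg : ∀ v, (L.neighborSet v).ncard = L.degree v := by
    intro v
    rw [← L.card_neighborFinset_eq_degree, ← Set.ncard_coe_finset, L.coe_neighborFinset]
  have hx3 : L.degree x = 3 := by rw [← hdeg]; exact hr.1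
  obtain ⟨y, hat⟩ := exists_at hx3 hp hq hpq ho
  have hx1 : ∀ m, σ m ≠ x := by
    intro m hm
    have := h.hm m
    rw [hm] at this
    omega
  have hx2 : ∀ m, β m ≠ x := by
    intro m hm
    have h3 := h.pd.adj m
    rw [hm] at h3
    have h4 := hr.2 _ h3.symm
    rw [hdeg, h.hm m] at h4
    omega
  have h3 := strictN_core h.pd R hC (m := 5 * (r + 2) + 4) h1 h2 h.pl
    (D := Spot.I0 x) (E := Spot.P0 x p q) (baseT_spot hat hx3) le_rfl (spot_avoid hx1 hx2)
    (fun s hs => by
      rw [Spot.P0, List.mem_singleton] at hs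
      subst hs
      norm_num) (Spot.cliqueFree hat h.tri) (Spot.deg3 hat h.deg)
    (fun A a1 a2 a3 y a4 a5 => hcut_poles h.pd h.hd h.hm h.hc1 h.hc2 h.hc3 R _ A a1 a2 a3 y a4 a5)
  exact h3

end Pool.Agent.BCore
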