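import Mathlib
import Pool.Agent.Work.MP_392c8e_co_uni.Poles8
import Pool.Agent.Work.MP_392c8e_co_unl.ClsT

/-!
# The graph with poles satisfies the working definition of the local stage C
-/

set_option autoImplicit false
set_option linter.unusedSectionVars false

namespace Pool.Agent.Poles

open Finset Pool.Agent.Red Pool.Agent.Sub392 Pool.Agent.T392 Pool.Agent.Uni392 Pool.Agent.U2Geo

/-- **The poles of a graph of maximum degree three.** -/
theorem exists_poles {W : Type} [Fintype W] [DecidableEq W] {L : SimpleGraph W}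
    [DecidableRel L.Adj] (hpl : Pl L) (htri : L.CliqueFree 3)
    (hdeg : ∀ v, (L.neighborSet v).ncard ≤ 3)
    (two : ∀ A : Set W, A.Nonempty → A ≠ Set.univ → 2 ≤ (leave L A).ncard)
    (cut2 : ∀ A : Set W, (leave L A).ncard ≤ 2 → A.ncard ≤ 2 ∨ Aᶜ.ncard ≤ 2)
    (hbig : 9 ≤ Fintype.card W) :
    ∃ (M : Type) (_ : Fintype M) (_ : DecidableEq M) (σ β : M → W), PD L σ β ∧
      (∀ v, L.degree v = 3 ∨ ∃ m, σ m = v) ∧ (∀ m, L.degree (σ m) = 2) ∧
      (∀ m, L.degree (β m) = 3) ∧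
      (∀ A : Finset W, A.Nonempty → Aᶜ.Nonempty → 2 ≤ out L A) ∧
      (∀ A : Finset W, out L A ≤ 2 → #A ≤ 2 ∨ #Aᶜ ≤ 2) ∧
      ∃ R : Rot (poleG L σ β), C4 R := by
  classical
  have h : Sub2 L := ⟨hdeg, two, cut2, by omega⟩
  obtain ⟨R, hR, hb⟩ := h.rot hpl
  exact ⟨M2 L, inferInstance, inferInstance, Subtype.val, foot h, h.pd, h.hd, fun m => m.2,
    foot_deg h, h.hc1, h.hc2, R, hR, h.cub, cliqueFree_poleG h.pd htri, hb, h.conn,
    h.big7 (by omega)⟩

/-- A vertex with its neighbours of degree three is not at a pole. -/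
theorem root_avoid {W M : Type} [Fintype W] [DecidableEq W] {L : SimpleGraph W}
    [DecidableRel L.Adj] {σ β : M → W} (ha : ∀ m, L.Adj (σ m) (β m))
    (hm : ∀ m, L.degree (σ m) = 2) {x : W} (hx : (L.neighborSet x).ncard = 3)
    (hn : ∀ s, L.Adj x s → (L.neighborSet s).ncard = 3) :
    (∀ m, σ m ≠ x) ∧ ∀ m, β m ≠ x := by
  refine ⟨fun m h => ?_, fun m h => ?_⟩
  · rw [ncard_nb, ← h, hm m] at hx
    omega
  · have h1 := ha m
    rw [h] at h1
    have h2 := hn _ h1.symm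
    rw [ncard_nb, hm m] at h2
    omega

end Pool.Agent.Poles
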