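import Mathlib
import Pool.Agent.Work.MP_392c8e_co_unl.BaseStarA
import Pool.Agent.Work.MP_392c8e_co_unl.PoleC4

/-!
# One level for the base class
-/

set_option autoImplicit false
set_option linter.unusedSectionVars false

namespace Pool.Agent.BCore

open Finset Pool.Agent.Red Pool.Agent.Sub392 Pool.Agent.T392 Pool.Agent.Uni392 Pool.Agent.U2Geo
open Pool.Agent.DischB Pool.Agent.Disch392 Pool.Agent.Poles
open Pool.Agent.Uni91 (VD OnP Cs full ends)
open Pool.Agent.T1Red (newG Deg3 HasStrict deg3_iff)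
open Pool.Agent.CutN (RootG ColN colN_iff BaseG BaseR BaseLevel Th3 EX Deg2In Thick)

/-- The small cuts of a graph of the base class. -/
def NearOut (r : ℕ) : Prop :=
  ∀ (W : Type) [Fintype W] [DecidableEq W] (L : SimpleGraph W) [DecidableRel L.Adj] (x : W),
    BaseG r L x → ∀ A : Finset W, out L A ≤ 3 → 2 ≤ #(A.filter fun v => L.degree v = 3) →
    2 ≤ #(Aᶜ.filter fun v => L.degree v = 3) → ∀ u ∈ A, ∀ v ∉ A, L.Adj u v →
    ∃ w, L.degree w = 2 ∧ ∃ p : L.Walk u w, p.length ≤ r + 1

theorem deg3_of_ncard {V : Type} [Fintype V] [DecidableEq V] {L : SimpleGraph V}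
    (h : ∀ v, (L.neighborSet v).ncard ≤ 3) : Deg3 L := by
  intro v A hA
  have h1 : (A : Set V) ⊆ L.neighborSet v := fun w hw => hA w hw
  have h2 := Set.ncard_le_ncard h1 (Set.toFinite _)
  rw [Set.ncard_coe_finset] at h2
  exact h2.trans (h v)

/-- **One level for the base class.** -/
theorem baseLevel {rr r : ℕ} (hTab : TabH rr) (hN : NearOut r) :
    BaseLevel r ((NStar rr (r + 1) + 8 : ℕ) : ℤ) := by
  have hpos : 0 < NStar rr (r + 1) + 8 := by omega
  constructor
  · intro W _ _ L x h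
    classical
    rw [colN_iff hpos]
    have hd3 : Deg3 L := deg3_of_ncard h.deg
    by_cases hc : 9 ≤ Fintype.card W
    · obtain ⟨M, hM, hM', σ, β, a1, a2, a3, -, a5, a6, R, hR⟩ :=
        exists_poles h.pl h.tri h.deg h.two h.cut2 hc
      exact (strictN_star hTab ⟨a1, a2, a3, a5, a6, hN W L x h, h.pl, h.tri, hd3⟩ R hR).mono le_rfl
        (by omega)
    · exact (Uni91.strictN_of_hasStrict (T392.facts.strict h.pl h.tri (deg3_iff.1 hd3))).mono le_rfl
        (by omega)
  · intro W _ _ L x p q h hr hp hq hpq ho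
    classical
    rw [colN_iff hpos]
    have hd3 : Deg3 L := deg3_of_ncard h.deg
    by_cases hc : 9 ≤ Fintype.card W
    · obtain ⟨M, hM, hM', σ, β, a1, a2, a3, -, a5, a6, R, hR⟩ :=
        exists_poles h.pl h.tri h.deg h.two h.cut2 hc
      exact (strictN_starX hTab ⟨a1, a2, a3, a5, a6, hN W L x h, h.pl, h.tri, hd3⟩ R hR hr hp hq
        hpq ho).mono le_rfl (by omega)
    · have hx3 : L.degree x = 3 := by
        rw [← L.card_neighborFinset_eq_degree, ← Set.ncard_coe_finset, L.coe_neighborFinset]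
        exact hr.1
      obtain ⟨y, hat⟩ := exists_at hx3 hp hq hpq ho
      refine (Uni91.strictN_of_hasStrict (T392.facts.strict (Spot.pl hat h.pl)
        (Spot.cliqueFree hat h.tri) (deg3_iff.1 (Spot.deg3 hat hd3)))).mono le_rfl (by omega)

end Pool.Agent.BCore
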