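import Mathlib
import Pool.Agent.Work.MP_392c8e_co_unl.SideT
import Pool.Agent.Work.MP_392c8e_co_unl.C4Base

/-!
# Patches of stage C: labels far from the faces of length four, and ties with both turns

`n4_tab`: all labels of a table are far from the faces of length four.  `false_tie`: a tie is
impossible if both orders of the neighbours of the common vertex lead to contradictions.
-/

namespace Pool.Agent.U2Geo

open Pool.T1Side Pool.Agent.T1Red Pool.Agent.T1FF Pool.Agent.Sub392 Pool.Agent.T392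
open Pool.Agent.Once392 (RotOk NbR)

set_option linter.unusedSectionVars false

/-- The labels below `n` reached from `b` by the rows of the table. -/
def rchN (N : List (ℕ × ℕ × ℕ × ℕ)) (n b : ℕ) : ℕ → List ℕ
  | 0 => [b]
  | k + 1 => let L := rchN N n b k
    (List.range n).filter fun j => L.elem j ||
      N.any fun e => L.elem e.1 && (Nat.beq j e.2.1 || Nat.beq j e.2.2.1 || Nat.beq j e.2.2.2)

variable {V : Type} [Fintype V] [DecidableEq V] {G : SimpleGraph V} [DecidableRel G.Adj]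
  {R : Rot G} {S : V → Prop}

theorem rchN_walk {f : ℕ → V} {N : List (ℕ × ℕ × ℕ × ℕ)} (ht : TabOk G f N) {n b : ℕ} :
    ∀ (k j : ℕ), j ∈ rchN N n b k → ∃ p : G.Walk (f b) (f j), p.length ≤ k
  | 0, j, h => by
    have : j = b := by simpa [rchN] using h
    subst this
    exact ⟨SimpleGraph.Walk.nil, le_refl 0⟩
  | k + 1, j, h => by
    have h1 : j ∈ (List.range n).filter fun j => (rchN N n b k).elem j ||
      N.any fun e => (rchN N n b k).elem e.1 &&
        (Nat.beq j e.2.1 || Nat.beq j e.2.2.1 || Nat.beq j e.2.2.2) := h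
    rw [List.mem_filter, Bool.or_eq_true, List.any_eq_true] at h1
    obtain ⟨-, h1 | ⟨e, he, h1⟩⟩ := h1
    · obtain ⟨p, hp⟩ := rchN_walk ht k j (by simpa using h1)
      exact ⟨p, by omega⟩
    · simp only [Bool.and_eq_true, Bool.or_eq_true] at h1
      obtain ⟨h2, h3⟩ := h1
      obtain ⟨p, hp⟩ := rchN_walk ht k e.1 (by simpa using h2)
      have hadj : G.Adj (f e.1) (f j) := by
        have hr := ht e he
        rcases h3 with (h3 | h3) | h3
        · rw [Nat.eq_of_beq_eq_true h3]; exact hr.ha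
        · rw [Nat.eq_of_beq_eq_true h3]; exact hr.hb
        · rw [Nat.eq_of_beq_eq_true h3]; exact hr.hc
      exact ⟨p.concat hadj, by rw [SimpleGraph.Walk.length_concat]; omega⟩

/-- **All labels are far from the faces of length four.** -/
theorem n4_tab {f : ℕ → V} {N : List (ℕ × ℕ × ℕ × ℕ)} (ht : TabOk G f N) {n b k m : ℕ}
    {al : List ℕ} (hal : ∀ j ∈ al, f j = f b)
    (h : ((List.range n).all fun j => (rchN N n b k).elem j || al.elem j) = true)
    (hb : N4 R (m + k) (f b)) : ∀ j, j < n → N4 R m (f j) := by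
  intro j hj
  rw [List.all_eq_true] at h
  have h1 := h j (List.mem_range.2 hj)
  rw [Bool.or_eq_true] at h1
  rcases h1 with h1 | h1
  · obtain ⟨p, hp⟩ := rchN_walk ht k j (by simpa using h1)
    exact hb.walk p hp
  · rw [hal j (by simpa using h1)]
    exact hb.mono (by omega)

theorem nb3_of_nbR {p a b c : V} (h3 : G.degree p = 3) (h : NbR R p a b c) : Nb3 G p a b c := by
  obtain ⟨x, x1, x2, x3, x4, x5⟩ := h
  have hx : G.degree x.fst = 3 := by rw [x1]; exact h3
  obtain ⟨⟨n1, n2, n3⟩, n4⟩ := nbr3 R hx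
  have f1 : (R.rot x).fst = x.fst := R.fst_rot x
  have f2 : (R.rot (R.rot x)).fst = x.fst := (R.fst_rot _).trans f1
  have a1 := x.adj
  have a2 := (R.rot x).adj
  have a3 := (R.rot (R.rot x)).adj
  rw [f1] at a2
  rw [f2] at a3
  rw [x1, x2] at a1
  rw [x1, x3] at a2
  rw [x1, x4] at a3
  rw [x2, x3] at n1
  rw [x2, x4] at n2
  rw [x3, x4] at n3
  refine ⟨a2, a1, a3, n1.symm, n3, n2, fun w hw => ?_⟩
  rw [x1, x2, x3, x4] at n4
  rcases n4 w hw with h | h | h
  · exact Or.inr (Or.inl h)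
  · exact Or.inl h
  · exact Or.inr (Or.inr h)

/-- The two orders of the neighbours. -/
theorem exists_row {p u v : V} (h3 : G.degree p = 3) (hu : G.Adj p u) (hv : G.Adj p v)
    (huv : u ≠ v) : ∃ w, NbR R p u v w ∨ NbR R p v u w := by
  set x : G.Dart := ⟨(p, v), hv⟩ with hx
  have hr : R.rot (R.rot (R.rot x)) = x := rot3 R h3
  have f1 : (R.rot x).fst = p := R.fst_rot x
  have f2 : (R.rot (R.rot x)).fst = p := (R.fst_rot _).trans f1
  rcases (nbr3 R (d := x) h3).2 u hu with h | h | h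
  · exact absurd h huv
  · exact ⟨(R.rot (R.rot x)).snd, Or.inl ⟨x, rfl, rfl, h.symm, rfl, hr⟩⟩
  · refine ⟨(R.rot x).snd, Or.inr ⟨R.rot (R.rot x), f2, h.symm, ?_, ?_, ?_⟩⟩
    · rw [hr]
    · rw [hr]
    · rw [hr]

/-- All labels are below `m`. -/
def ltM (m : ℕ) (ti xn xa : List (ℕ × ℕ)) (N : List (ℕ × ℕ × ℕ × ℕ)) (F : List (ℕ × ℕ × ℕ))
    (p u v : ℕ) : Bool :=
  (N.all fun e => Nat.blt e.1 m && Nat.blt e.2.1 m && Nat.blt e.2.2.1 m && Nat.blt e.2.2.2 m) &&
    ((ti ++ xn ++ xa).all fun e => Nat.blt e.1 m && Nat.blt e.2 m) &&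
    (F.all fun e => Nat.blt e.1 m && Nat.blt e.2.1 m && Nat.blt e.2.2 m) &&
    Nat.blt p m && Nat.blt u m && Nat.blt v m

/-- **A tie with both turns.**  The label `m` is a new one. -/
theorem false_tie (hG : ClsT R S) {A : Red} {ti xn xa : List (ℕ × ℕ)}
    {F : List (ℕ × ℕ × ℕ)} {ts ts' : List StepT} {c c' : CertT} {f : ℕ → V}
    {N : List (ℕ × ℕ × ℕ × ℕ)} (ht : TabOk G f N) (hN : RotOk R f N)
    (hc : chk A.ed (inner A) N = true) (hS : ∀ k, k < A.t + A.m → S (f k)) (hF : No5 G F f)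
    (hti : ∀ e ∈ ti, f e.1 = f e.2) (hxn : ∀ e ∈ xn, f e.1 ≠ f e.2)
    (hxa : ∀ e ∈ xa, ¬ G.Adj (f e.1) (f e.2)) {p u v m : ℕ} (hu : G.Adj (f p) (f u))
    (hv : G.Adj (f p) (f v)) (huv : f u ≠ f v) (hm : A.t + A.m ≤ m)
    (hl : ltM m ti xn xa N F p u v = true)
    (h1 : absT A ti [] xn xa ((p, u, v, m) :: N) F ts c = true)
    (h2 : absT A ti [] xn xa ((p, v, u, m) :: N) F ts' c' = true) : False := by
  obtain ⟨w, hw⟩ := exists_row (R := R) (hG.cub _) hu hv huv
  unfold ltM at hl
  simp only [Bool.and_eq_true, List.all_eq_true, Nat.blt_eq, List.mem_append] at hl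
  obtain ⟨⟨⟨⟨⟨l1, l2⟩, l3⟩, l4⟩, l5⟩, l6⟩ := hl
  set f' : ℕ → V := fun x => if x = m then w else f x with hf'
  have key : ∀ x, x < m → f' x = f x := fun x hx => by
    show (if x = m then w else f x) = f x
    rw [if_neg (by omega)]
  have key0 : f' m = w := by
    show (if m = m then w else f m) = w
    rw [if_pos rfl]
  have hTab : TabOk G f' N := fun e he => by
    obtain ⟨⟨⟨k1, k2⟩, k3⟩, k4⟩ := l1 e he
    rw [key _ k1, key _ k2, key _ k3, key _ k4]
    exact ht e he
  have hRot : RotOk R f' N := fun e he => by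
    obtain ⟨⟨⟨k1, k2⟩, k3⟩, k4⟩ := l1 e he
    rw [key _ k1, key _ k2, key _ k3, key _ k4]
    exact hN e he
  have hS' : ∀ k, k < A.t + A.m → S (f' k) := fun k hk => by
    rw [key k (by omega)]
    exact hS k hk
  have hF' : No5 G F f' := fun e he x y => by
    obtain ⟨⟨k1, k2⟩, k3⟩ := l3 e he
    rw [key _ k1, key _ k2, key _ k3]
    exact hF e he x y
  have hti' : ∀ e ∈ ti, f' e.1 = f' e.2 := fun e he => by
    obtain ⟨k1, k2⟩ := l2 e (Or.inl (Or.inl he))
    rw [key _ k1, key _ k2]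
    exact hti e he
  have hxn' : ∀ e ∈ xn, f' e.1 ≠ f' e.2 := fun e he => by
    obtain ⟨k1, k2⟩ := l2 e (Or.inl (Or.inr he))
    rw [key _ k1, key _ k2]
    exact hxn e he
  have hxa' : ∀ e ∈ xa, ¬ G.Adj (f' e.1) (f' e.2) := fun e he => by
    obtain ⟨k1, k2⟩ := l2 e (Or.inr he)
    rw [key _ k1, key _ k2]
    exact hxa e he
  have hchk : ∀ r : ℕ × ℕ × ℕ × ℕ, chk A.ed (inner A) (r :: N) = true := fun r => by
    unfold chk at hc ⊢
    rw [Bool.and_eq_true, List.all_eq_true] at hc ⊢
    refine ⟨fun i hi => ?_, hc.2⟩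
    rw [List.any_cons, Bool.or_eq_true]
    exact Or.inr (hc.1 i hi)
  rcases hw with hw | hw
  · have hr : NbR R (f' p) (f' u) (f' v) (f' m) := by
      rw [key p l4, key u l5, key v l6, key0]
      exact hw
    refine false_ofT hG (N := (p, u, v, m) :: N) (f := f') ?_ ?_ (hchk _) hS' hF' hti'
      (fun e he => absurd he List.not_mem_nil) hxn' hxa' h1
    · intro e he
      rcases List.mem_cons.1 he with rfl | he
      · exact nb3_of_nbR (hG.cub _) hr
      · exact hTab e he
    · intro e he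
      rcases List.mem_cons.1 he with rfl | he
      · exact hr
      · exact hRot e he
  · have hr : NbR R (f' p) (f' v) (f' u) (f' m) := by
      rw [key p l4, key u l5, key v l6, key0]
      exact hw
    refine false_ofT hG (N := (p, v, u, m) :: N) (f := f') ?_ ?_ (hchk _) hS' hF' hti'
      (fun e he => absurd he List.not_mem_nil) hxn' hxa' h2
    · intro e he
      rcases List.mem_cons.1 he with rfl | he
      · exact nb3_of_nbR (hG.cub _) hr
      · exact hTab e he
    · intro e he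
      rcases List.mem_cons.1 he with rfl | he
      · exact hr
      · exact hRot e he

end Pool.Agent.U2Geo
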