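import Mathlib
import Pool.Agent.Work.MP_392c8e_co_uni.RotTabs
import Pool.Agent.Work.MP_392c8e_co_uni.Mirror
import Pool.Agent.Work.MP_392c8e_co_unl.SideTX

/-!
# The table of the patch G2'' with the vertices of two further faces of length five

The labels 28, 29 are the third neighbours of the terminals 3, 4 (which are adjacent), the labels
30, 31 the third neighbours of the terminals 0, 9 (which are adjacent).
-/

set_option autoImplicit false

namespace Pool.Agent.U2Geo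

open Finset Pool.Agent.Sub392 Pool.T1Side Pool.Agent.T392 Pool.Agent.T1FF
open Pool.Agent.Once392 (NbR RotOk Dt)
open Pool.Agent.Disch392 (mir)

set_option linter.unusedSectionVars false

variable {V : Type} [Fintype V] [DecidableEq V] {G : SimpleGraph V} [DecidableRel G.Adj]
variable {R : Rot G} {d : G.Dart}

/-- The labels: terminals 0, …, 9, interior 10, …, 27, further vertices 28, …, 31. -/
def fG2X (R : Rot G) (d : G.Dart) (n : ℕ) : V :=
  [Y R (ac R d 4) 4, Y R d 6, Y R (ac R d 0) 2, Y R (ac R d 0) 3, Y R (ac R d 1) 3,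
    Y R (ac R d 1) 4, Y R d 3, Y R (ac R (ac R d 4) 2) 2, Y R (ac R (ac R d 4) 2) 3,
    Y R (ac R (ac R d 4) 2) 4,
    X R d 0, X R d 1, X R d 2, X R d 3, X R d 4, X R d 5, X R d 6,
    Y R d 0, X R (ac R d 0) 3, Y R d 1, X R (ac R d 1) 3, Y R d 2,
    Y R d 4, X R (ac R d 4) 3, Y R d 5,
    Y R (ac R d 4) 2, X R (ac R (ac R d 4) 2) 3, Y R (ac R d 4) 3,
    Y R (ac R (ac R d 0) 3) 2, Y R (ac R (ac R d 0) 3) 3,
    Y R (ac R (ac R d 4) 3) 4, Y R (ac R (ac R d 4) 3) 3].getD n (X R d 0)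

/-- The table. -/
def tG2X : List (ℕ × ℕ × ℕ × ℕ) :=
  [(10, 11, 16, 17), (11, 12, 10, 19), (12, 13, 11, 21), (13, 14, 12, 6), (14, 15, 13, 22),
    (15, 16, 14, 24), (16, 10, 15, 1), (17, 18, 10, 2), (18, 19, 17, 3), (19, 11, 18, 20),
    (20, 21, 19, 4), (21, 12, 20, 5), (22, 23, 14, 25), (23, 24, 22, 27), (24, 15, 23, 0),
    (25, 26, 22, 7), (26, 27, 25, 8), (27, 23, 26, 9),
    (3, 4, 18, 28), (4, 20, 3, 29), (9, 0, 27, 31), (0, 24, 9, 30)]

/-- Rotating a row. -/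
theorem NbR.cyc {p a b c : V} (h : NbR R p a b c) : NbR R p b c a := by
  obtain ⟨x, h1, h2, h3, h4, h5⟩ := h
  refine ⟨R.rot (R.rot x), ?_, h4, ?_, ?_, ?_⟩
  · rw [R.fst_rot, R.fst_rot]; exact h1
  · rw [h5]; exact h2
  · rw [h5]; exact h3
  · rw [h5]

/-- Two rows at a vertex which share a neighbour. -/
theorem NbR.eq_of {p a b c a' b' c' : V} (h : NbR R p a b c) (h' : NbR R p a' b' c')
    (hb : b = b') : a = a' ∧ c = c' := by
  obtain ⟨x, h1, h2, h3, h4, -⟩ := h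
  obtain ⟨y, k1, k2, k3, k4, -⟩ := h'
  have hxy : x = y := by
    apply SimpleGraph.Dart.ext
    exact Prod.ext (h1.trans k1.symm) ((h2.trans hb).trans k2.symm)
  subst hxy
  exact ⟨h3.symm.trans k3, h4.symm.trans k4⟩

/-- **The extended table is in the order of the rotation.** -/
theorem rotG2X (h : Good R d 7) (g0 : Good R (ac R d 0) 5) (g1 : Good R (ac R d 1) 5) (g4 :
    Good R (ac R d 4) 5) (gr : Good R (ac R (ac R d 4) 2) 5) (gs : Good R (ac R (ac R d 4) 3) 5)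
    (go : Good R (ac R (ac R d 0) 3) 5) :
    RotOk R (fG2X R d) tG2X := by
  obtain ⟨a0, a1, a2, a3, a4, a5, a6⟩ := h.rstars7
  obtain ⟨f0_2, f0_3, f0_4⟩ := h.router5 0 g0
  obtain ⟨f1_2, f1_3, f1_4⟩ := h.router5 1 g1
  obtain ⟨f4_2, f4_3, f4_4⟩ := h.router5 4 g4
  obtain ⟨r_2, r_3, r_4⟩ := g4.router5 2 gr
  obtain ⟨s_2, s_3, s_4⟩ := g4.router5 3 gs
  obtain ⟨o_2, o_3, o_4⟩ := g0.router5 3 go
  have e0 : Y R (ac R d 0) 4 = X R (ac R d 1) 3 := h.ac_Ylast 0 g0 (by norm_num)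
  have e4 : X R (ac R d 0) 4 = Y R d 1 := h.ac_last 0 g0 (by norm_num)
  rw [e0] at f0_4
  rw [ac_X2] at r_2
  have e5 : X R (ac R d 4) 4 = Y R d 5 := h.ac_last 4 g4 (by norm_num)
  norm_num only at o_2 o_3 o_4 s_2 s_3 s_4 f1_3 f0_3
  rw [e0] at o_3 o_4
  rw [e4] at o_4
  rw [e5] at s_4
  -- the terminals 4 and 9 are vertices of the further faces
  have k4 : X R (ac R (ac R d 0) 3) 3 = Y R (ac R d 1) 3 :=
    (NbR.eq_of (NbR.cyc (NbR.cyc o_4)) f1_3 rfl).2
  have k9 : X R (ac R (ac R d 4) 3) 3 = Y R (ac R (ac R d 4) 2) 4 :=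
    (NbR.eq_of s_2 (NbR.cyc (NbR.cyc r_4)) rfl).1
  rw [k4] at o_2 o_3
  rw [k9] at s_3 s_4
  intro e he
  simp only [tG2X, List.mem_cons, List.not_mem_nil, or_false] at he
  rcases he with rfl | rfl | rfl | rfl | rfl | rfl | rfl | rfl | rfl | rfl | rfl | rfl | rfl
    | rfl | rfl | rfl | rfl | rfl | rfl | rfl | rfl | rfl
  · exact a0
  · exact a1
  · exact a2
  · exact a3
  · exact a4
  · exact a5
  · exact a6
  · exact f0_2
  · exact f0_3
  · exact f0_4
  · exact f1_3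
  · exact f1_4
  · exact f4_2
  · exact f4_3
  · exact f4_4
  · exact r_2
  · exact r_3
  · exact r_4
  · exact o_2
  · exact o_3
  · exact s_3
  · exact s_4

/-- The table of a cubic graph. -/
theorem tab_of_rot (h3 : ∀ v, G.degree v = 3) {f : ℕ → V} {N : List (ℕ × ℕ × ℕ × ℕ)}
    (h : RotOk R f N) : TabOk G f N := fun e he => nb3_of_nbR (h3 _) (h e he)

theorem NbR.mir {p a b c : V} (h : NbR R p a b c) : NbR (mir R) p b a c := by
  obtain ⟨x, h1, h2, h3, h4, h5⟩ := h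
  have k1 : R.rot.symm (R.rot x) = x := R.rot.symm_apply_apply x
  have k2 : R.rot.symm x = R.rot (R.rot x) := by
    rw [Equiv.symm_apply_eq]; exact h5.symm
  have k3 : R.rot.symm (R.rot (R.rot x)) = R.rot x := R.rot.symm_apply_apply _
  refine ⟨R.rot x, ?_, h3, ?_, ?_, ?_⟩
  · rw [R.fst_rot]; exact h1
  · show (R.rot.symm (R.rot x)).snd = b
    rw [k1]; exact h2
  · show (R.rot.symm (R.rot.symm (R.rot x))).snd = c
    rw [k1, k2]; exact h4
  · show R.rot.symm (R.rot.symm (R.rot.symm (R.rot x))) = R.rot x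
    rw [k1, k2, k3]

/-- The symmetry of the table. -/
def piG2X (n : ℕ) : ℕ :=
  [25, 6, 5, 4, 3, 2, 1, 30, 31, 26, 12, 11, 10, 16, 15, 14, 13, 21, 20, 19, 18, 17, 24, 23, 22,
    0, 9, 27, 29, 28, 7, 8].getD n n

/-- **The mirror image of the extended table.** -/
theorem RotOk.mirG2X {f : ℕ → V} (h : RotOk R f tG2X) :
    RotOk (mir R) (fun n => f (piG2X n)) tG2X := by
  have key : ∀ e ∈ tG2X, (piG2X e.1, piG2X e.2.2.1, piG2X e.2.1, piG2X e.2.2.2) ∈ tG2X ∨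
      (piG2X e.1, piG2X e.2.1, piG2X e.2.2.2, piG2X e.2.2.1) ∈ tG2X ∨
      (piG2X e.1, piG2X e.2.2.2, piG2X e.2.2.1, piG2X e.2.1) ∈ tG2X := by
    decide
  intro e he
  rcases key e he with h1 | h1 | h1
  · exact NbR.mir (h _ h1)
  · exact NbR.mir (NbR.cyc (NbR.cyc (h _ h1)))
  · exact NbR.mir (NbR.cyc (h _ h1))

end Pool.Agent.U2Geo
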