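import Mathlib
import Pool.Agent.Work.MP_392c8e_co_unl.ClsT
import Pool.Agent.Work.MP_392c8e_co_t1.Facial
import Pool.Agent.Work.MP_392c8e_co_t1.Corners

/-!
# A path from one side of a cycle to the other meets the cycle
-/

namespace Pool.Agent.U2Geo

open Finset Pool.Agent.Sub392 Pool.T1Side Pool.Agent.T392 Pool.Agent.T1FF Pool.Agent.OddFlow

set_option linter.unusedSectionVars false

variable {V : Type} [Fintype V] [DecidableEq V] {G : SimpleGraph V} [DecidableRel G.Adj]

/-- Exactly one of the two directions of a corner turns left. -/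
theorem lr_of (R : Rot G) (hc : ∀ v, G.degree v = 3) :
    ∀ t : V × V × V, G.Adj t.1 t.2.1 → G.Adj t.2.1 t.2.2 → t.1 ≠ t.2.2 →
      (Lt R (rv t) ↔ ¬ Lt R t) := by
  classical
  rintro ⟨x, v, z⟩ h1 h2 h3
  simp only at h1 h2 h3
  set A : G.Dart := ⟨(v, x), h1.symm⟩ with hA
  set B : G.Dart := ⟨(v, z), h2⟩ with hB
  have hAB : A ≠ B := fun h => h3 (congrArg (fun d : G.Dart => d.snd) h)
  have hd : ∀ v, G.degree v ≤ 3 := fun v => (hc v).le
  have e1 : Lt R (x, v, z) ↔ R.rot A = B := by
    constructor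
    · rintro ⟨d, k1, k2, k3⟩
      have hd' : d = A.symm := SimpleGraph.Dart.ext _ _ (Prod.ext k1 k2)
      rw [hd', next_eq, SimpleGraph.Dart.symm_symm] at k3
      exact SimpleGraph.Dart.ext _ _ (Prod.ext (R.fst_rot A) k3)
    · intro h
      refine ⟨A.symm, rfl, rfl, ?_⟩
      rw [next_eq, SimpleGraph.Dart.symm_symm, h]
  have e2 : Lt R (rv (x, v, z)) ↔ R.rot B = A := by
    constructor
    · rintro ⟨d, k1, k2, k3⟩
      have hd' : d = B.symm := SimpleGraph.Dart.ext _ _ (Prod.ext k1 k2)
      rw [hd', next_eq, SimpleGraph.Dart.symm_symm] at k3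
      exact SimpleGraph.Dart.ext _ _ (Prod.ext (R.fst_rot B) k3)
    · intro h
      refine ⟨B.symm, rfl, rfl, ?_⟩
      rw [next_eq, SimpleGraph.Dart.symm_symm, h]
      rfl
  rw [e1, e2]
  have nA : R.rot A ≠ A := rot_ne R (by rw [hc]; omega)
  have nB : R.rot B ≠ B := rot_ne R (by rw [hc]; omega)
  constructor
  · intro h k
    have h3 := rot_three R (d := A) (hc _)
    rw [k, h, k] at h3
    exact hAB h3.symm
  · intro k
    by_contra h
    have h4 : R.rot A = R.rot B :=
      third_unique hd hAB rfl (R.fst_rot A) (R.fst_rot B) nA k h nB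
    exact hAB (R.rot.injective h4)

section cyc

variable {l : ℕ} [NeZero l] {R : Rot G}

/-- A dart which is not an edge of the cycle. -/
def Off (w : ZMod l → V) (ha : ∀ i, G.Adj (w i) (w (i + 1))) (x : G.Dart) : Prop :=
  (∀ j, x ≠ ed w ha j) ∧ ∀ j, x ≠ (ed w ha j).symm

theorem Off.symm {w : ZMod l → V} {ha : ∀ i, G.Adj (w i) (w (i + 1))} {x : G.Dart}
    (h : Off w ha x) : Off w ha x.symm := by
  constructor
  · intro j hj
    apply h.2 j
    rw [← hj, SimpleGraph.Dart.symm_symm]
  · intro j hj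
    apply h.1 j
    have := congrArg SimpleGraph.Dart.symm hj
    rwa [SimpleGraph.Dart.symm_symm, SimpleGraph.Dart.symm_symm] at this

theorem off_fst {w : ZMod l → V} {ha : ∀ i, G.Adj (w i) (w (i + 1))} {x : G.Dart}
    (h : ∀ i, x.fst ≠ w i) : Off w ha x := by
  constructor
  · rintro j rfl
    exact h j rfl
  · rintro j rfl
    exact h (j + 1) rfl

theorem off_snd {w : ZMod l → V} {ha : ∀ i, G.Adj (w i) (w (i + 1))} {x : G.Dart}
    (h : ∀ i, x.snd ≠ w i) : Off w ha x := by
  have := (off_fst (ha := ha) (x := x.symm) h).symm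
  rwa [SimpleGraph.Dart.symm_symm] at this

/-- The third dart at a vertex of the cycle. -/
theorem third_of {w : ZMod l → V} {ha : ∀ i, G.Adj (w i) (w (i + 1))}
    (hd : ∀ v, G.degree v ≤ 3) (hb : ∀ i, w i ≠ w (i + 2)) {i : ZMod l} {x y : G.Dart}
    (hx : x.fst = w (i + 1)) (hy : y.fst = w (i + 1)) (ox : Off w ha x) (oy : Off w ha y) :
    x = y := by
  refine third_unique hd (P := (ed w ha i).symm) (Q := ed w ha (i + 1)) ?_ rfl hx hy
    (ox.2 i) (ox.1 (i + 1)) (oy.2 i) (oy.1 (i + 1))
  intro h
  have h1 := congrArg (fun d : G.Dart => d.snd) h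
  have h2 : w i = w (i + 1 + 1) := h1
  apply hb i
  rw [h2]
  congr 1
  ring

/-- The potential of a cycle. -/
theorem cyc_pot (hP : R.Plane) (hc : ∀ v, G.degree v = 3) (w : ZMod l → V)
    (ha : ∀ i, G.Adj (w i) (w (i + 1))) (hb : ∀ i, w i ≠ w (i + 2))
    (hinj : Function.Injective w) :
    ∃ (a : R.Face → ℚ) (α : ℚ), (∀ x, Off w ha x → a (R.face x.symm) = a (R.face x)) ∧
      (∀ i, a (R.face (ed w ha i)) = α) ∧ ∀ i, a (R.face (ed w ha i).symm) = α - 1 := by
  classical
  have g3 : ∀ v, G.degree v ≤ 3 := fun v => (hc v).le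
  set e := ed w ha with he
  have efst : ∀ i, (e i).fst = w i := fun i => rfl
  have esnd : ∀ i, (e i).snd = w (i + 1) := fun i => rfl
  have einj : ∀ i j, e i = e j → i = j := fun i j h => hinj (by
    have := congrArg (fun d : G.Dart => d.fst) h
    exact this)
  have ens : ∀ i j, e i ≠ (e j).symm := by
    intro i j h
    have h1 : (e i).fst = (e j).symm.fst := by rw [h]
    have h2 : (e i).snd = (e j).symm.snd := by rw [h]
    have h3 : w i = w (j + 1) := h1
    have h4 : w (i + 1) = w j := h2
    have h5 := hinj h3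
    subst h5
    exact hb j (by rw [← h4]; congr 1; ring)
  have essy : ∀ i, (e i).symm.symm = e i := fun i => SimpleGraph.Dart.symm_symm _
  -- the flow along the cycle
  set y : G.Dart → ℚ := fun d => ∑ i, ((if d = e i then 1 else 0) - (if d = (e i).symm then 1 else 0))
    with hy
  have hsymm : ∀ d d' : G.Dart, d.symm = d' ↔ d = d'.symm := by
    intro d d'
    constructor
    · rintro rfl; simp
    · rintro rfl; simp
  obtain ⟨a, hya⟩ := exact_dual R hP (k := ℚ) y (by
    intro d
    rw [hy]
    simp only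
    rw [← Finset.sum_neg_distrib]
    refine sum_congr rfl fun i _ => ?_
    simp only [hsymm, essy]
    ring) (by
    intro v
    rw [hy]
    simp only
    rw [sum_comm]
    simp only [sum_sub_distrib]
    rw [sub_eq_zero]
    have h1 : ∀ i, ∑ d : G.Dart with d.fst = v, (if d = e i then (1 : ℚ) else 0) =
        if w i = v then 1 else 0 := by
      intro i
      rw [Finset.sum_ite_eq']
      simp only [mem_filter, mem_univ, true_and, efst]
    have h2 : ∀ i, ∑ d : G.Dart with d.fst = v, (if d = (e i).symm then (1 : ℚ) else 0) =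
        if w (i + 1) = v then 1 else 0 := by
      intro i
      rw [Finset.sum_ite_eq']
      simp only [mem_filter, mem_univ, true_and]
      rfl
    simp only [h1, h2]
    exact (Equiv.sum_comp (Equiv.addRight (1 : ZMod l))
      (fun i => if w i = v then (1 : ℚ) else 0)).symm)
  have hye : ∀ i, y (e i) = 1 := by
    intro i
    rw [hy]
    simp only
    rw [sum_sub_distrib]
    have h1 : ∀ j, (if e i = (e j).symm then (1 : ℚ) else 0) = 0 := fun j => if_neg (ens i j)
    have h2 : ∀ j, (if e i = e j then (1 : ℚ) else 0) = if i = j then 1 else 0 := by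
      intro j
      by_cases hij : i = j
      · rw [if_pos hij, hij, if_pos rfl]
      · rw [if_neg hij, if_neg fun h => hij (einj i j h)]
    simp only [h1, h2, sum_const_zero, sub_zero, sum_ite_eq, mem_univ, if_true]
  have hy0 : ∀ d : G.Dart, (∀ i, d ≠ e i) → (∀ i, d ≠ (e i).symm) → y d = 0 := by
    intro d h1 h2
    rw [hy]
    simp only
    refine sum_eq_zero fun i _ => ?_
    rw [if_neg (h1 i), if_neg (h2 i), sub_self]
  -- a dart at a vertex of the cycle
  have atv : ∀ i (x : G.Dart), x.fst = w (i + 1) → x ≠ (e i).symm → x ≠ e (i + 1) →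
      (∀ j, x ≠ e j) ∧ (∀ j, x ≠ (e j).symm) := by
    intro i x hx h1 h2
    constructor
    · rintro j rfl
      have := hinj (show w j = w (i + 1) from hx)
      subst this
      exact h2 rfl
    · rintro j rfl
      have := hinj (show w (j + 1) = w (i + 1) from hx)
      have h3 : j = i := add_right_cancel this
      subst h3
      exact h1 rfl
  have aoff : ∀ x : G.Dart, (∀ j, x ≠ e j) → (∀ j, x ≠ (e j).symm) →
      a (R.face x.symm) = a (R.face x) := by
    intro x h1 h2
    have h3 := hya x
    rw [hy0 x h1 h2] at h3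
    linarith
  have hPQ : ∀ i, (e i).symm ≠ e (i + 1) := fun i h => ens (i + 1) i h.symm
  have rne : ∀ d : G.Dart, R.rot d ≠ d := fun d => rot_ne R (by rw [hc]; omega)
  -- the third dart
  have thr : ∀ i, R.next (e i) ≠ e (i + 1) →
      (∀ j, R.next (e i) ≠ e j) ∧ (∀ j, R.next (e i) ≠ (e j).symm) ∧
        R.rot (R.next (e i)) = e (i + 1) := by
    intro i hi
    have hf : (R.next (e i)).fst = w (i + 1) := R.fst_next _
    have hn : R.next (e i) ≠ (e i).symm := next_ne_symm R (by rw [hc]; omega)
    obtain ⟨h1, h2⟩ := atv i _ hf hn hi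
    refine ⟨h1, h2, ?_⟩
    set x := R.rot.symm (e (i + 1)) with hx
    have hrx : R.rot x = e (i + 1) := by rw [hx, Equiv.apply_symm_apply]
    have hxf : x.fst = w (i + 1) := by
      have := R.fst_rot x
      rw [hrx] at this
      exact this.symm
    have hx1 : x ≠ e (i + 1) := by
      intro h
      rw [h] at hrx
      exact rne _ hrx
    have hx2 : x ≠ (e i).symm := by
      intro h
      rw [h] at hrx
      exact hi hrx
    have h3 : x = R.next (e i) := third_unique g3 (hPQ i) rfl hxf hf hx2 hx1 hn hi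
    rw [← h3, hrx]
  have aconst : ∀ i, a (R.face (e i)) = a (R.face (e (i + 1))) := by
    intro i
    by_cases hi : R.next (e i) = e (i + 1)
    · rw [← hi, R.face_next]
    · obtain ⟨h1, h2, h3⟩ := thr i hi
      rw [← h3, R.face_rot, aoff _ h1 h2, R.face_next]
  set α := a (R.face (e 0)) with hα
  have hL : ∀ i, a (R.face (e i)) = α :=
    zind _ rfl fun i hi => by rw [← aconst i]; exact hi
  have hR : ∀ i, a (R.face (e i).symm) = α - 1 := by
    intro i
    have := hya (e i)
    rw [hye, hL] at this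
    linarith
  exact ⟨a, α, fun x hx => aoff x hx.1 hx.2, hL, hR⟩

variable {w : ZMod l → V} {ha : ∀ i, G.Adj (w i) (w (i + 1))}

/-- The third dart at a left turn is on the right side. -/
theorem third_left (hc : ∀ v, G.degree v = 3) (hb : ∀ i, w i ≠ w (i + 2)) {a : R.Face → ℚ}
    {α : ℚ} (hR : ∀ i, a (R.face (ed w ha i).symm) = α - 1)
    {i : ZMod l} (hi : R.next (ed w ha i) = ed w ha (i + 1)) {x : G.Dart}
    (hx : x.fst = w (i + 1)) (ox : Off w ha x) : a (R.face x) = α - 1 := by
  classical
  set y := R.rot.symm x with hy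
  have hry : R.rot y = x := by rw [hy, Equiv.apply_symm_apply]
  have hyf : y.fst = w (i + 1) := by
    have := R.fst_rot y
    rw [hry] at this
    rw [← this]; exact hx
  have hPQ : (ed w ha i).symm ≠ ed w ha (i + 1) := by
    intro h
    have h2 : w i = w (i + 1 + 1) := congrArg (fun d : G.Dart => d.snd) h
    apply hb i
    rw [h2]; congr 1; ring
  have hy1 : y ≠ (ed w ha i).symm := by
    intro h
    rw [h] at hry
    exact ox.1 (i + 1) (hry.symm.trans hi)
  have hy2 : y ≠ x := by
    intro h
    rw [h] at hry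
    exact rot_ne R (by rw [hc]; omega) hry
  have hy3 : y = ed w ha (i + 1) := by
    by_contra hy3
    exact hy2 (third_unique (fun v => (hc v).le) hPQ rfl hyf hx hy1 hy3 (ox.2 i) (ox.1 (i + 1)))
  rw [← hry, hy3, R.face_rot]
  exact hR _

/-- The third dart at a right turn is on the left side. -/
theorem third_right (hc : ∀ v, G.degree v = 3) (hb : ∀ i, w i ≠ w (i + 2)) {a : R.Face → ℚ}
    {α : ℚ} (hoff : ∀ x, Off w ha x → a (R.face x.symm) = a (R.face x))
    (hL : ∀ i, a (R.face (ed w ha i)) = α)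
    {i : ZMod l} (hi : R.rot (ed w ha (i + 1)) = (ed w ha i).symm) {x : G.Dart}
    (hx : x.fst = w (i + 1)) (ox : Off w ha x) : a (R.face x) = α := by
  classical
  have hPQ : (ed w ha i).symm ≠ ed w ha (i + 1) := by
    intro h
    have h2 : w i = w (i + 1 + 1) := congrArg (fun d : G.Dart => d.snd) h
    apply hb i
    rw [h2]; congr 1; ring
  set y := R.rot.symm (ed w ha (i + 1)) with hy
  have hry : R.rot y = ed w ha (i + 1) := by rw [hy, Equiv.apply_symm_apply]
  have hyf : y.fst = w (i + 1) := by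
    have := R.fst_rot y
    rw [hry] at this
    exact this.symm
  have hy1 : y ≠ (ed w ha i).symm := by
    intro h
    rw [h] at hry
    have h3 := rot_three R (d := (ed w ha i).symm) (hc _)
    rw [hry, hi, hry] at h3
    exact hPQ h3.symm
  have hy2 : y ≠ ed w ha (i + 1) := by
    intro h
    rw [h] at hry
    exact rot_ne R (by rw [hc]; omega) hry
  have hy3 : y = x := third_unique (fun v => (hc v).le) hPQ rfl hyf hx hy1 hy2 (ox.2 i)
    (ox.1 (i + 1))
  rw [← hoff x ox, ← R.face_rot, ← hy3, hry]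
  exact hL _

/-- Around a vertex off the cycle. -/
theorem pot_vertex {a : R.Face → ℚ}
    (hoff : ∀ x, Off w ha x → a (R.face x.symm) = a (R.face x)) {d d' : G.Dart}
    (h : d'.fst = d.fst) (hd : ∀ i, d.fst ≠ w i) : a (R.face d') = a (R.face d) := by
  classical
  have h4 := R.cyc d d' h.symm
  have h5 := sameCycle_inv (f := R.rot)
    (h := fun x : G.Dart => if (∀ i, x.fst ≠ w i) then a (R.face x) else 0) (by
      intro x
      simp only [R.fst_rot]
      by_cases hx : ∀ i, x.fst ≠ w i
      · rw [if_pos hx, if_pos hx, R.face_rot]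
        exact hoff x (off_fst hx)
      · rw [if_neg hx, if_neg hx]) h4
  simp only [h] at h5
  rw [if_pos hd, if_pos hd] at h5
  exact h5.symm

/-- Along a path off the cycle. -/
theorem pot_path {a : R.Face → ℚ}
    (hoff : ∀ x, Off w ha x → a (R.face x.symm) = a (R.face x)) {β : ℚ} {z : V} :
    ∀ (p : List V) (v1 : V), (∀ i, v1 ≠ w i) → List.IsChain G.Adj (v1 :: p ++ [z]) →
      (∀ x ∈ p, ∀ i, x ≠ w i) → ∀ d : G.Dart, d.snd = v1 → a (R.face d) = β →
      ∃ d' : G.Dart, d'.fst = z ∧ (∀ i, d'.snd ≠ w i) ∧ a (R.face d') = β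
  | [], v1, hv, hch, _, d, hd, hβ => by
    have hadj : G.Adj v1 z := by simpa using hch
    have h1 : a (R.face d.symm) = β := by
      rw [hoff d (off_snd (by rw [hd]; exact hv))]
      exact hβ
    set d2 : G.Dart := ⟨(v1, z), hadj⟩ with hd2
    have h2 : a (R.face d2) = a (R.face d.symm) :=
      pot_vertex hoff (d := d.symm) (d' := d2) hd.symm (by
        intro i
        show d.snd ≠ w i
        rw [hd]; exact hv i)
    refine ⟨d2.symm, rfl, hv, ?_⟩
    rw [hoff d2 (off_fst hv), h2, h1]
  | v2 :: p, v1, hv, hch, hp, d, hd, hβ => by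
    have hch' : List.IsChain G.Adj (v1 :: v2 :: (p ++ [z])) := hch
    rw [List.isChain_cons_cons] at hch'
    have h1 : a (R.face d.symm) = β := by
      rw [hoff d (off_snd (by rw [hd]; exact hv))]
      exact hβ
    set d2 : G.Dart := ⟨(v1, v2), hch'.1⟩ with hd2
    have h2 : a (R.face d2) = a (R.face d.symm) :=
      pot_vertex hoff (d := d.symm) (d' := d2) hd.symm (by
        intro i
        show d.snd ≠ w i
        rw [hd]; exact hv i)
    exact pot_path hoff p v2 (hp v2 (by simp)) hch'.2 (fun x hx => hp x (by simp [hx])) d2 rfl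
      (h2.trans h1)

/-- **A path from the right side to the left side of a cycle meets the cycle.** -/
theorem cross_zmod (hP : R.Plane) (hc : ∀ v, G.degree v = 3) (w : ZMod l → V)
    (ha : ∀ i, G.Adj (w i) (w (i + 1))) (hb : ∀ i, w i ≠ w (i + 2))
    (hinj : Function.Injective w) {i j : ZMod l}
    (hi : R.next (ed w ha i) = ed w ha (i + 1))
    (hj : R.rot (ed w ha (j + 1)) = (ed w ha j).symm) (p : List V)
    (hch : List.IsChain G.Adj (w (i + 1) :: p ++ [w (j + 1)]))
    (hp : ∀ x ∈ p, ∀ k, x ≠ w k)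
    (h0 : p = [] → w (j + 1) ≠ w i ∧ w (j + 1) ≠ w (i + 2)) : False := by
  obtain ⟨a, α, hoff, hL, hR⟩ := cyc_pot hP hc w ha hb hinj
  rcases p with _ | ⟨v1, p⟩
  · have hadj : G.Adj (w (i + 1)) (w (j + 1)) := by simpa using hch
    obtain ⟨k1, k2⟩ := h0 rfl
    set x : G.Dart := ⟨(w (i + 1), w (j + 1)), hadj⟩ with hx
    have ox : Off w ha x := by
      constructor
      · intro k hk
        have e1 : w (i + 1) = w k := congrArg (fun d : G.Dart => d.fst) hk
        have e2 : w (j + 1) = w (k + 1) := congrArg (fun d : G.Dart => d.snd) hk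
        rw [← hinj e1] at e2
        apply k2
        rw [e2]; congr 1; ring
      · intro k hk
        have e1 : w (i + 1) = w (k + 1) := congrArg (fun d : G.Dart => d.fst) hk
        have e2 : w (j + 1) = w k := congrArg (fun d : G.Dart => d.snd) hk
        have e3 : i = k := add_right_cancel (hinj e1)
        rw [← e3] at e2
        exact k1 e2
    have h1 := third_left hc hb hR hi (x := x) rfl ox
    have h2 := third_right hc hb hoff hL hj (x := x.symm) rfl ox.symm
    rw [hoff x ox] at h2
    linarith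
  · have hch' : List.IsChain G.Adj (w (i + 1) :: v1 :: (p ++ [w (j + 1)])) := hch
    rw [List.isChain_cons_cons] at hch'
    have hv1 : ∀ k, v1 ≠ w k := hp v1 (by simp)
    set x : G.Dart := ⟨(w (i + 1), v1), hch'.1⟩ with hx
    have h1 := third_left hc hb hR hi (x := x) rfl (off_snd hv1)
    obtain ⟨d', e1, e2, e3⟩ := pot_path hoff p v1 hv1 hch'.2
      (fun y hy => hp y (by simp [hy])) x rfl h1
    have h2 := third_right hc hb hoff hL hj (x := d') e1 (off_snd e2)
    linarith

end cyc

/-! ## Lists -/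

theorem tp3_getZ {α : Type} (x : α) : ∀ (M : List α) (i : ℕ) (t : α × α × α),
    (tp3 M)[i]? = some t →
      i + 2 < M.length ∧ t = (M.getD i x, M.getD (i + 1) x, M.getD (i + 2) x)
  | [], i, t, h => by simp [tp3] at h
  | [_], i, t, h => by simp [tp3] at h
  | [_, _], i, t, h => by simp [tp3] at h
  | a :: b :: c :: M, 0, t, h => by
    simp only [tp3, List.getElem?_cons_zero, Option.some.injEq] at h
    subst h
    refine ⟨by simp, rfl⟩
  | a :: b :: c :: M, i + 1, t, h => by
    simp only [tp3, List.getElem?_cons_succ] at h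
    obtain ⟨h1, h2⟩ := tp3_getZ x (b :: c :: M) i t h
    refine ⟨by simpa using h1, ?_⟩
    rw [h2]
    simp only [List.getD_cons_succ]

theorem tps_getZ {α : Type} (x : α) {L : List α} [NeZero L.length] (hL : 2 ≤ L.length) {i : ℕ}
    {t : α × α × α} (h : (tps L)[i]? = some t) :
    i < L.length ∧ t = (cw L x (i : ZMod L.length), cw L x ((i : ZMod L.length) + 1),
      cw L x ((i : ZMod L.length) + 2)) := by
  obtain ⟨h1, h2⟩ := tp3_getZ x _ _ _ h
  rw [List.length_append, List.length_take] at h1
  have hi : i < L.length := by omega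
  refine ⟨hi, ?_⟩
  rw [h2, ext_get hL x (by omega), ext_get hL x (by omega), ext_get hL x (by omega)]
  have e1 := cw_add (L := L) x (i : ZMod L.length) 1
  have e2 := cw_add (L := L) x (i : ZMod L.length) 2
  rw [Nat.cast_one] at e1
  rw [Nat.cast_ofNat] at e2
  rw [e1, e2, cw_nat x hi, ZMod.val_natCast, Nat.mod_eq_of_lt hi]

theorem cw_memZ {α : Type} {L : List α} [NeZero L.length] (x : α) (i : ZMod L.length) :
    cw L x i ∈ L := by
  unfold cw
  have hi : i.val < L.length := ZMod.val_lt i
  rw [List.getD_eq_getElem _ _ hi]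
  exact List.getElem_mem hi

theorem cw_injZ {α : Type} {L : List α} [NeZero L.length] (x : α) (h : L.Nodup) :
    Function.Injective (cw L x) := by
  intro i j hij
  unfold cw at hij
  have hi : i.val < L.length := ZMod.val_lt i
  have hj : j.val < L.length := ZMod.val_lt j
  rw [List.getD_eq_getElem _ _ hi, List.getD_eq_getElem _ _ hj] at hij
  have := (List.Nodup.getElem_inj_iff h).1 hij
  exact ZMod.val_injective _ this

/-- **The field `cross`.** -/
theorem cross_of {R : Rot G} (hP : R.Plane) (hc : ∀ v, G.degree v = 3) :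
    ∀ L : List V, NB G L → 3 ≤ L.length → L.Nodup →
    ∀ (i : ℕ) (t : V × V × V), (tps L)[i]? = some t → Lt R t →
    ∀ (j : ℕ) (u : V × V × V), (tps L)[j]? = some u → Lt R (rv u) →
    ∀ p : List V, List.IsChain G.Adj (t.2.1 :: p ++ [u.2.1]) → (∀ x ∈ p, x ∉ L) →
    (p = [] → u.2.1 ≠ t.1 ∧ u.2.1 ≠ t.2.2) → False := by
  classical
  intro L hNB h3 hnd i t ht hlt j u hu hru p hch hp h0
  have : NeZero L.length := ⟨by omega⟩
  have hx0 : 0 < L.length := by omega
  set x0 : V := L[0] with hx0'
  obtain ⟨ha, hb⟩ := cw_spec (by omega) hNB x0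
  obtain ⟨-, rfl⟩ := tps_getZ x0 (by omega) ht
  obtain ⟨-, rfl⟩ := tps_getZ x0 (by omega) hu
  set w := cw L x0 with hw
  have hi : R.next (ed w ha (i : ZMod L.length)) = ed w ha ((i : ZMod L.length) + 1) := by
    obtain ⟨d, k1, k2, k3⟩ := hlt
    have hd : d = ed w ha (i : ZMod L.length) := SimpleGraph.Dart.ext _ _ (Prod.ext k1 k2)
    rw [hd] at k3
    refine SimpleGraph.Dart.ext _ _ (Prod.ext (R.fst_next _) ?_)
    have k4 : (R.next (ed w ha (i : ZMod L.length))).snd = w ((i : ZMod L.length) + 2) := k3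
    show (R.next (ed w ha (i : ZMod L.length))).snd = w ((i : ZMod L.length) + 1 + 1)
    rw [k4]; congr 1; ring
  have hj : R.rot (ed w ha ((j : ZMod L.length) + 1)) = (ed w ha (j : ZMod L.length)).symm := by
    obtain ⟨d, k1, k2, k3⟩ := hru
    have e : (j : ZMod L.length) + 2 = (j : ZMod L.length) + 1 + 1 := by ring
    have k1' : d.fst = w ((j : ZMod L.length) + 1 + 1) := by rw [← e]; exact k1
    have hd : d = (ed w ha ((j : ZMod L.length) + 1)).symm :=
      SimpleGraph.Dart.ext _ _ (Prod.ext k1' k2)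
    rw [hd, next_eq, SimpleGraph.Dart.symm_symm] at k3
    exact SimpleGraph.Dart.ext _ _ (Prod.ext (R.fst_rot _) k3)
  exact cross_zmod hP hc w ha hb (cw_injZ x0 hnd) hi hj p hch
    (fun x hx k h => hp x hx (h ▸ cw_memZ x0 k)) h0

end Pool.Agent.U2Geo
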