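import Mathlib
import Pool.Agent.Work.MP_392c8e_co_unl.GeoSide
import Pool.Agent.Work.MP_392c8e_co_unl.GeoC4b

/-!
# Cycles with at most three edges leaving to one side

In a cyclically 4-edge-connected cubic plane graph the ends of the edges which leave a cycle to one
side are equal if there are at most three such edges and the ends are not on the cycle.
-/

set_option autoImplicit false

namespace Pool.Agent.U2Geo

open Finset Pool.Agent.Sub392 Pool.T1Side Pool.Agent.T392 Pool.Agent.T1FF

set_option linter.unusedSectionVars false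

variable {V : Type} [Fintype V] [DecidableEq V] {G : SimpleGraph V} [DecidableRel G.Adj]
  {R : Rot G}

/-- Every vertex of a closed walk is the middle of a corner with ends on the walk. -/
theorem exists_corner {L : List V} (h3 : 3 ≤ L.length) {b : V} (hb : b ∈ L) :
    ∃ k, k < L.length ∧ ∃ t : V × V × V, (tps L)[k]? = some t ∧ t.2.1 = b ∧ t.1 ∈ L ∧
      t.2.2 ∈ L := by
  have : NeZero L.length := ⟨by omega⟩
  obtain ⟨m, hm, rfl⟩ := List.mem_iff_getElem.1 hb
  have hmem : ∀ i : ZMod L.length, cw L L[m] i ∈ L := by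
    intro i
    unfold cw
    rw [List.getD_eq_getElem _ _ (ZMod.val_lt i)]
    exact List.getElem_mem _
  set k : ℕ := ((m : ZMod L.length) - 1).val with hk
  have hkl : k < L.length := ZMod.val_lt _
  refine ⟨k, hkl, _, tps_cw' (by omega) L[m] hkl, ?_, hmem _, hmem _⟩
  show cw L L[m] ((k : ZMod L.length) + 1) = L[m]
  have h1 : ((k : ℕ) : ZMod L.length) = (m : ZMod L.length) - 1 := by
    rw [hk, ZMod.natCast_zmod_val]
  rw [h1, sub_add_cancel]
  unfold cw
  rw [ZMod.val_natCast, Nat.mod_eq_of_lt hm, List.getD_eq_getElem _ _ hm]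

/-- The middle vertex of a corner is on the walk. -/
theorem tp3_mid {α : Type} : ∀ {M : List α} {t : α × α × α}, t ∈ tp3 M → t.2.1 ∈ M
  | [], _, h => by simp [tp3] at h
  | [_], _, h => by simp [tp3] at h
  | [_, _], _, h => by simp [tp3] at h
  | a :: b :: c :: l, t, h => by
    have e : tp3 (a :: b :: c :: l) = (a, b, c) :: tp3 (b :: c :: l) := rfl
    rw [e, List.mem_cons] at h
    rcases h with rfl | h
    · simp
    · exact List.mem_cons_of_mem _ (tp3_mid h)

theorem tps_mid {α : Type} {L : List α} {i : ℕ} {t : α × α × α} (h : (tps L)[i]? = some t) :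
    t.2.1 ∈ L := by
  have h1 := tp3_mid (List.mem_of_getElem? h)
  rcases List.mem_append.1 h1 with h1 | h1
  · exact h1
  · exact List.mem_of_mem_take h1

/-- **Three edges to one side.**  All corners outside `P` turn left and `P` has at most three
elements: the third neighbours of the right turns are equal, if they are not on the cycle. -/
theorem three_side (hC : C4 R) {L : List V} (hNB : NB G L) (h3 : 3 ≤ L.length) (hnd : L.Nodup)
    {P : List ℕ} (hP : P.length ≤ 3)
    (hl : ∀ k t, (tps L)[k]? = some t → k ∉ P → Lt R t)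
    {i j : ℕ} {t u : V × V × V} (hi : (tps L)[i]? = some t) (ht : Lt R (rv t))
    (h0 : N3 R 0 t.2.1)
    (hj : (tps L)[j]? = some u) (hu : Lt R (rv u)) {x y : V} (hx : G.Adj t.2.1 x)
    (hxL : x ∉ L) (hy : G.Adj u.2.1 y) (hyL : y ∉ L) : x = y := by
  classical
  obtain ⟨c, c1, c2, c3⟩ := side_of hC.plane hC.cub hNB h3 hnd
  set A : Finset V := univ.filter fun z => z ∉ L ∧ c z = 1 with hA
  have mA : ∀ z, z ∈ A ↔ z ∉ L ∧ c z = 1 := fun z => by
    rw [hA, mem_filter]; exact and_iff_right (mem_univ _)
  have hxA : x ∈ A := (mA x).2 ⟨hxL, c3 i t x hi ht hx hxL⟩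
  have hyA : y ∈ A := (mA y).2 ⟨hyL, c3 j u y hj hu hy hyL⟩
  -- the darts which leave the set
  have key : ∀ d : G.Dart, d.fst ∈ A → d.snd ∉ A → ∃ k ∈ P, ∃ s : V × V × V,
      (tps L)[k]? = some s ∧ s.2.1 = d.snd ∧ s.1 ∈ L ∧ s.2.2 ∈ L := by
    intro d h1 h2
    rw [mA] at h1 h2
    have hb : d.snd ∈ L := by
      by_contra hb
      exact h2 ⟨hb, (c1 _ _ d.adj h1.1 hb).symm.trans h1.2⟩
    obtain ⟨k, hk, s, hs, hsb, hs1, hs2⟩ := exists_corner h3 hb
    refine ⟨k, ?_, s, hs, hsb, hs1, hs2⟩
    by_contra hkP
    have h5 := c2 k s d.fst hs (hl k s hs hkP) (by rw [hsb]; exact d.adj.symm) h1.1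
    rw [h1.2] at h5
    exact one_ne_zero h5
  have hout : out G A ≤ 3 := by
    unfold out
    have hcard : #{d : G.Dart | d.fst ∈ A ∧ d.snd ∉ A} ≤ #P.toFinset := by
      have hex : ∀ d : G.Dart, ∃ k : ℕ, (d.fst ∈ A ∧ d.snd ∉ A) → k ∈ P ∧ ∃ s : V × V × V,
          (tps L)[k]? = some s ∧ s.2.1 = d.snd ∧ s.1 ∈ L ∧ s.2.2 ∈ L := by
        intro d
        by_cases hd : d.fst ∈ A ∧ d.snd ∉ A
        · obtain ⟨k, hk, hs⟩ := key d hd.1 hd.2
          exact ⟨k, fun _ => ⟨hk, hs⟩⟩
        · exact ⟨0, fun h => absurd h hd⟩
      choose κ hκ using hex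
      refine Finset.card_le_card_of_injOn κ ?_ ?_
      · intro d hd
        have hd' : d.fst ∈ A ∧ d.snd ∉ A := by simpa using hd
        have := (hκ d hd').1
        simpa using this
      · intro d hd e he hde
        have hd' : d.fst ∈ A ∧ d.snd ∉ A := by simpa using hd
        have he' : e.fst ∈ A ∧ e.snd ∉ A := by simpa using he
        obtain ⟨-, s, hs, hsb, hs1, hs2⟩ := hκ d hd'
        obtain ⟨-, s', hs', hsb', -, -⟩ := hκ e he'
        rw [hde, hs'] at hs
        have hss : s' = s := Option.some.inj hs
        subst hss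
        have hsnd : d.snd = e.snd := hsb.symm.trans hsb'
        -- the third neighbour of a vertex of the cycle
        have hadj1 : G.Adj s'.1 s'.2.1 ∧ G.Adj s'.2.1 s'.2.2 := by
          have hNZ : NeZero L.length := ⟨by omega⟩
          obtain ⟨hw, -⟩ := cw_spec (G := G) (by omega) hNB s'.1
          obtain ⟨-, e1⟩ := tps_cw (by omega) s'.1 hs'
          have e2 := congrArg (fun q : V × V × V => q.1) e1
          have e3 := congrArg (fun q : V × V × V => q.2.1) e1
          have e4 := congrArg (fun q : V × V × V => q.2.2) e1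
          simp only at e2 e3 e4
          constructor
          · rw [e2, e3]
            have := hw (κ e : ZMod L.length)
            rw [← e2] at this ⊢
            exact this
          · rw [e3, e4]
            have := hw ((κ e : ZMod L.length) + 1)
            rw [show (κ e : ZMod L.length) + 1 + 1 = (κ e : ZMod L.length) + 2 by ring] at this
            exact this
        have hne : s'.1 ≠ s'.2.2 := by
          have hNZ : NeZero L.length := ⟨by omega⟩
          obtain ⟨-, hb⟩ := cw_spec (G := G) (by omega) hNB s'.1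
          obtain ⟨-, e1⟩ := tps_cw (by omega) s'.1 hs'
          have e2 := congrArg (fun q : V × V × V => q.1) e1
          have e4 := congrArg (fun q : V × V × V => q.2.2) e1
          simp only at e2 e4
          intro h
          refine hb (κ e : ZMod L.length) ?_
          rw [← e4, ← h]
          exact e2.symm
        have hd1 := ((mA _).1 hd'.1).1
        have he1 := ((mA _).1 he'.1).1
        have hfst : d.fst = e.fst := by
          by_contra hde'
          have h4 : #({s'.1, s'.2.2, d.fst, e.fst} : Finset V) = 4 := by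
            rw [card_insert_of_notMem, card_insert_of_notMem, card_insert_of_notMem,
              card_singleton]
            · simpa using hde'
            · simp only [mem_insert, mem_singleton, not_or]
              exact ⟨fun h => hd1 (h ▸ hs2), fun h => he1 (h ▸ hs2)⟩
            · simp only [mem_insert, mem_singleton, not_or]
              exact ⟨hne, fun h => hd1 (h ▸ hs1), fun h => he1 (h ▸ hs1)⟩
          have h5 : ({s'.1, s'.2.2, d.fst, e.fst} : Finset V) ⊆ G.neighborFinset s'.2.1 := by
            intro z hz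
            rw [SimpleGraph.mem_neighborFinset]
            simp only [mem_insert, mem_singleton] at hz
            rcases hz with rfl | rfl | rfl | rfl
            · exact hadj1.1.symm
            · exact hadj1.2
            · rw [hsb]; exact d.adj.symm
            · rw [hsb']; exact e.adj.symm
          have h6 := card_le_card h5
          rw [h4, SimpleGraph.card_neighborFinset_eq_degree, hC.cub] at h6
          omega
        exact SimpleGraph.Dart.ext _ _ (Prod.ext hfst hsnd)
    calc #{d : G.Dart | d.fst ∈ A ∧ d.snd ∉ A} ≤ #P.toFinset := hcard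
      _ ≤ P.length := P.toFinset_card_le
      _ ≤ 3 := hP
  rcases h0 A hout ⟨⟨(x, t.2.1), hx.symm⟩, hxA, fun h => ((mA _).1 h).1 (tps_mid hi),
    Or.inr ⟨SimpleGraph.Walk.nil, le_rfl⟩⟩ with h | h
  · exact Finset.card_le_one.1 h x hxA y hyA
  · exfalso
    have hLA : ∀ z ∈ L, z ∈ Aᶜ := fun z hz => by
      rw [mem_compl, mA]
      exact fun h => h.1 hz
    have h4 : #L.toFinset ≤ #Aᶜ := card_le_card fun z hz => hLA z (by simpa using hz)
    rw [List.toFinset_card_of_nodup hnd] at h4
    omega

end Pool.Agent.U2Geo
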