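import Mathlib
import Pool.Agent.Work.MP_392c8e_co_uni.StrictBaseT
import Pool.Agent.Work.MP_392c8e_co_unl.MainC

/-!
# The uniform bound after a base surgery, local form

Every nontrivial edge cut with at most three edges is near the base surgery.
-/

set_option autoImplicit false
set_option linter.unusedSectionVars false

namespace Pool.Agent.Uni21

open Finset Pool.Agent.Sub392 Pool.Agent.T392 Pool.Agent.U2Geo Pool.Agent.Disch392
open Pool.Agent.DischB
open Pool.Agent.Uni392
open Pool.Agent.Uni91 (VD ends)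
open Pool.Agent.T1Red (newG Deg3)

variable {V : Type} [Fintype V] [DecidableEq V] {G : SimpleGraph V} [DecidableRel G.Adj]

open Classical in
/-- The discharging inequality, in the form used for the growth. -/
theorem hdis_unl (R : Rot G) (hcub : ∀ v, G.degree v = 3) (U : Finset V) :
    ∑ d ∈ univ.filter (fun d : G.Dart => d.fst ∈ U), kap R d ≤
      - (1 / 1000) * (#{d : G.Dart | d.fst ∈ U ∧ sz R d ≠ 6} : ℝ) +
        (7 : ℕ) * #{d : G.Dart | d.fst ∈ U ∧ ¬ GdB R 1000 13 d} +
        (15 : ℕ) * #(bd (G := G) U) := by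
  refine (disch_locB (le_refl 1000) (le_refl 13) R hcub U).trans (le_of_eq ?_)
  push_cast
  refine congrArg (fun n : ℕ => _ + 7 * (n : ℝ) + _) (congrArg Finset.card
    (Finset.ext fun d => ?_))
  rw [mem_filter, mem_filter]
  simp only [mem_univ, true_and, GdB]

/-- **The uniform bound after a base surgery**, local form. -/
theorem strictN_base_unl (R : Rot G) (hC : C4 R) {r m : ℕ}
    (hT : TabC R 1000 (AtCat (PlOK R r))) (hT' : TabC (mir R) 1000 (AtCat (PlOK R r)))
    {I0 : V → Prop} {P0 : List (V × List V × V)} {D0 : ℕ} {T : Finset V}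
    (h0 : BaseT G I0 P0 D0 T) (hlen : ∀ q ∈ P0, q.2.1.length ≤ 299)
    (hPl : Red.Pl (newG G I0 (ends P0))) (htri : (newG G I0 (ends P0)).CliqueFree 3)
    (hdeg0 : Deg3 (newG G I0 (ends P0)))
    (hcut : ∀ A : Finset V, out G A ≤ 3 → 2 ≤ #A → 2 ≤ #Aᶜ → ∀ y : G.Dart, y.fst ∈ A →
      y.snd ∉ A → ∃ x, Near R m y x ∧ x.fst ∈ BV G I0) :
    StrictN (newG G I0 (ends P0)) (NBase 7 15 (13 + 363 + m) r D0) := by
  classical
  have g := hC.geo
  refine strictN_baseT (R := R) (T := T) (Gd := GdB R 1000 13) hC.plane hC.cub g.br h0 hlen hPl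
    htri hdeg0 (PlOK R r) (fun _ h => h)
    (occ_gdC_base hC.cub g.four_le_sz (by norm_num) hT hT' hcut) (A := 7) (E := 15) ?_
  intro U
  exact hdis_unl R hC.cub U

end Pool.Agent.Uni21
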