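import Mathlib
import Pool.Agent.Work.MP_392c8e_co_unl.LabC
import Pool.Agent.Work.MP_392c8e_co_uni.CertFlower
import Pool.Agent.Work.MP_392c8e_co_uni.RotTabs

/-!
# Stage C: the flower
-/

namespace Pool.Agent.U2Geo

open Pool.T1Side Pool.Agent.T1Red Pool.Agent.T1FF Pool.Agent.Sub392 Pool.Agent.T392
open Pool.Agent.Disch392

set_option linter.unusedSectionVars false

theorem Flowu_finT : finT Flower [] [] []
    [] [] [] [] [] tfl [] (stepsT 20 Flowu_steps) = true := by
  decide +kernel

variable {V : Type} [Fintype V] [DecidableEq V] {G : SimpleGraph V} [DecidableRel G.Adj]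
  {R : Rot G} {S : V → Prop}

theorem sz_ac_nb (R : Rot G) (d : G.Dart) (i : ℕ) : sz R (ac R d i) = nb R d i := by
  unfold nb ac
  rw [← Equiv.Perm.iterate_eq_pow]

/-- The labels of the flower are far from the faces of length four. -/
theorem n4_Flower (h3 : ∀ v, G.degree v = 3) {d : G.Dart} (g : sz R d = 5)
    (g' : ∀ i < 5, nb R d i = 5) {m : ℕ} (hN : N4 R (m + 8) d.fst) :
    ∀ k, k < 20 → N4 R m (ffl R d k) :=
  n4_labels (A := Flower) (tabfl (good_cub h3 g) fun n hn => good_cub h3 (by
    rw [sz_ac_nb]; exact g' n hn)) (by decide) (r := 5) (n := 8) (by decide +kernel) rfl hN le_rfl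

/-- **The patch of the flower.** -/
theorem patch_FlowerT (hG : ClsT R S) {d : G.Dart} (hS : ∀ k, k < 20 → S (ffl R d k))
    (g : sz R d = 5) (g' : ∀ i < 5, nb R d i = 5) :
    Patch G Flower [] [] [] [] (ffl R d) := by
  have h := good_cub hG.cub g
  have h' : ∀ n, n < 5 → Pool.Agent.T1FF.Good R (ac R d n) 5 := fun n hn =>
    good_cub hG.cub (by rw [sz_ac_nb]; exact g' n hn)
  exact patch_ofT hG (tabfl h h') (rotfl h h') (by decide) hS
    (fun e he => absurd he List.not_mem_nil)
    (fun e he => absurd he List.not_mem_nil) (fun e he => absurd he List.not_mem_nil)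
    (fun e he => absurd he List.not_mem_nil) (fun e he => absurd he List.not_mem_nil) Flowu_finT

/-- The place of the line `flower`. -/
theorem good_FlowerT (hG : ClsT R S) {d : G.Dart} (hS : ∀ k, k < 20 → S (ffl R d k))
    (g : sz R d = 5) (g' : ∀ i < 5, nb R d i = 5) :
    Uni91.Good (plc Flower [] [] [] [] [] (ffl R d)) G :=
  good_of Flowu_ext Flowu_data Flowu_psOk (patch_FlowerT hG hS g g')

end Pool.Agent.U2Geo
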