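import Mathlib
import Pool.Agent.Work.MP_392c8e_co_unl.GeoC4b

/-!
# Closed walks of length at most eight in cyclically 4-edge-connected cubic plane graphs, lists
-/

namespace Pool.Agent.U2Geo

open Finset Pool.Agent.Sub392 Pool.T1Side Pool.Agent.T392 Pool.Agent.T1FF Pool.Agent.OddFlow

set_option linter.unusedSectionVars false

variable {V : Type} [Fintype V] [DecidableEq V] {G : SimpleGraph V} [DecidableRel G.Adj]
  {R : Rot G}

section cyc

variable {l : ℕ} [NeZero l]

theorem lt_iff (w : ZMod l → V) (ha : ∀ i, G.Adj (w i) (w (i + 1))) (i : ZMod l) :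
    Lt R (w i, w (i + 1), w (i + 2)) ↔ R.next (ed w ha i) = ed w ha (i + 1) := by
  have e2 : (ed w ha (i + 1)).snd = w (i + 2) := by
    show w (i + 1 + 1) = w (i + 2)
    congr 1; ring
  constructor
  · rintro ⟨d, h1, h2, h3⟩
    have hd : d = ed w ha i := SimpleGraph.Dart.ext _ _ (Prod.ext h1 h2)
    subst hd
    exact SimpleGraph.Dart.ext _ _ (Prod.ext (R.fst_next _) (h3.trans e2.symm))
  · intro h
    exact ⟨ed w ha i, rfl, rfl, by rw [h, e2]⟩

theorem rt_iff (hh : C4 R) (w : ZMod l → V) (ha : ∀ i, G.Adj (w i) (w (i + 1)))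
    (hb : ∀ i, w i ≠ w (i + 2)) (i : ZMod l) :
    Lt R (rv (w i, w (i + 1), w (i + 2))) ↔ R.next (ed w ha i) ≠ ed w ha (i + 1) := by
  rw [← turn_iff hh w ha hb i]
  have e2 : (ed w ha (i + 1)).symm.fst = w (i + 2) := by
    show w (i + 1 + 1) = w (i + 2)
    congr 1; ring
  constructor
  · rintro ⟨d, h1, h2, h3⟩
    have hd : d = (ed w ha (i + 1)).symm :=
      SimpleGraph.Dart.ext _ _ (Prod.ext (h1.trans e2.symm) h2)
    subst hd
    rw [next_eq, SimpleGraph.Dart.symm_symm] at h3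
    exact SimpleGraph.Dart.ext _ _ (Prod.ext (R.fst_rot _) h3)
  · intro h
    refine ⟨(ed w ha (i + 1)).symm, e2, rfl, ?_⟩
    rw [next_eq, SimpleGraph.Dart.symm_symm, h]
    rfl

end cyc

/-- The data of a closed walk with a vertex far from the faces of length four. -/
theorem far_cw {L : List V} [NeZero L.length] (hL : 2 ≤ L.length) (h8 : L.length ≤ 8)
    (h : NB G L) (x : V) (hS : ∃ y ∈ L, N4 R 8 y) (i : ZMod L.length) : FV R (cw L x i) := by
  obtain ⟨ha, -⟩ := cw_spec hL h x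
  obtain ⟨y, hy, h4⟩ := hS
  obtain ⟨k, hk, rfl⟩ := List.getElem_of_mem hy
  have h1 : cw L x (k : ZMod L.length) = L[k] := by
    rw [cw_nat x hk, List.getD_eq_getElem _ _ hk]
  exact N4.far h8 (cw L x) ha (i0 := (k : ZMod L.length)) (by rw [h1]; exact h4) i

/-- **Closed walks of length at most seven.** -/
theorem C4.sevenZ (hh : C4 R) {L : List V} [NeZero L.length] (hL : 2 ≤ L.length)
    (h7 : L.length ≤ 7) (h : NB G L) (x : V) (hS : ∃ y ∈ L, N4 R 8 y) :
    ∃ ha : ∀ i, G.Adj (cw L x i) (cw L x (i + 1)),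
    (∀ i, R.next (ed (cw L x) ha i) = ed (cw L x) ha (i + 1)) ∨
    (∀ i, R.next (ed (cw L x) ha i) ≠ ed (cw L x) ha (i + 1)) := by
  obtain ⟨ha, hb⟩ := cw_spec hL h x
  refine ⟨ha, ?_⟩
  rcases hh.sidesT (by omega) (cw L x) ha hb (inj_of_short hh.tri h7 _ ha hb)
    (four_le_of_short hh.tri _ ha hb) (far_cw hL (by omega) h x hS) with h1 | h1 | h1
  · exact Or.inl h1
  · exact Or.inr h1
  · exact absurd h1.1 (by omega)

/-- **Closed walks of length at most seven**, lists. -/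
theorem C4.seven (hh : C4 R) (L : List V) (hS : ∃ y ∈ L, N4 R 8 y) (h : NB G L)
    (h3 : 3 ≤ L.length) (h7 : L.length ≤ 7) :
    (∀ t ∈ tps L, Lt R t) ∨ (∀ t ∈ tps L, Lt R (rv t)) := by
  have : NeZero L.length := ⟨by omega⟩
  obtain ⟨x, hx, hx4⟩ := hS
  obtain ⟨ha, h1⟩ := hh.sevenZ (by omega) h7 h x ⟨x, hx, hx4⟩
  obtain ⟨-, hb⟩ := cw_spec (by omega) h x
  rcases h1 with h1 | h1
  · left
    intro t ht
    obtain ⟨i, hi⟩ := List.mem_iff_getElem?.1 ht
    obtain ⟨-, h2⟩ := tps_cw (by omega) x hi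
    rw [h2]
    exact (lt_iff _ ha _).2 (h1 _)
  · right
    intro t ht
    obtain ⟨i, hi⟩ := List.mem_iff_getElem?.1 ht
    obtain ⟨-, h2⟩ := tps_cw (by omega) x hi
    rw [h2]
    exact (rt_iff hh _ ha hb _).2 (h1 _)

/-- **No closed walks of length four.** -/
theorem C4.four (hh : C4 R) (a b c d : V) (hS : N4 R 8 a) : ¬ NB G [a, b, c, d] := by
  intro h
  obtain ⟨ha, hb⟩ := cw_spec (L := [a, b, c, d]) (by norm_num) h a
  exact hh.no4Z (cw [a, b, c, d] a) ha hb
    (far_cw (L := [a, b, c, d]) (by norm_num) (by norm_num) h a ⟨a, by simp, hS⟩)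

/-- A face through a corner of a closed walk. -/
theorem C4.cornerZ (hh : C4 R) {l : ℕ} [NeZero l] (hl : l ≤ 7) (w : ZMod l → V)
    (ha : ∀ i, G.Adj (w i) (w (i + 1))) (hb : ∀ i, w i ≠ w (i + 2))
    (hs : (∀ i, R.next (ed w ha i) = ed w ha (i + 1)) ∨
      (∀ i, R.next (ed w ha i) ≠ ed w ha (i + 1))) (d : G.Dart)
    (h0 : d.fst = w 0) (h1 : d.snd = w 1) (h2 : (R.next d).snd = w 2) :
    sz R d = l ∧ ∀ i : ℕ, (R.next^[i] d).fst = w i := by
  have hd : d = ed w ha 0 := SimpleGraph.Dart.ext _ _ (Prod.ext h0 (by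
    show d.snd = w (0 + 1)
    rw [h1, zero_add]))
  have hd1 : R.next d = ed w ha 1 := SimpleGraph.Dart.ext _ _ (Prod.ext (by
    show (R.next d).fst = w 1
    rw [R.fst_next, h1]) (by
    show (R.next d).snd = w (1 + 1)
    rw [h2, one_add_one_eq_two]))
  have key : ∀ i, R.next (ed w ha i) = ed w ha (i + 1) := by
    rcases hs with h | h
    · exact h
    · exfalso
      have h3 := h 0
      rw [zero_add, ← hd1, ← hd] at h3
      exact h3 rfl
  refine ⟨?_, fun i => ?_⟩
  · rw [hd]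
    exact sz_of_left hh hl w ha key 0
  · rw [hd, face_of_left w ha key 0 i, zero_add]
    rfl

/-- A face through a corner of a closed walk, opposite direction. -/
theorem C4.cornerZ' (hh : C4 R) {l : ℕ} [NeZero l] (hl : l ≤ 7) (w : ZMod l → V)
    (ha : ∀ i, G.Adj (w i) (w (i + 1))) (hb : ∀ i, w i ≠ w (i + 2))
    (hs : (∀ i, R.next (ed w ha i) = ed w ha (i + 1)) ∨
      (∀ i, R.next (ed w ha i) ≠ ed w ha (i + 1))) (d : G.Dart)
    (h0 : d.fst = w 2) (h1 : d.snd = w 1) (h2 : (R.next d).snd = w 0) :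
    sz R d = l ∧ ∀ i : ℕ, (R.next^[i] d).fst = w (2 - i) := by
  have hd : d = (ed w ha 1).symm := SimpleGraph.Dart.ext _ _ (Prod.ext (by
    show d.fst = w (1 + 1)
    rw [h0, one_add_one_eq_two]) h1)
  have key : ∀ i, R.next (ed w ha i) ≠ ed w ha (i + 1) := by
    rcases hs with h | h
    · exfalso
      have h3 := (turn_iff hh w ha hb 0).1 (by
        rw [zero_add]
        have h4 : R.next d = R.rot (ed w ha 1) := by
          rw [hd, next_eq, SimpleGraph.Dart.symm_symm]
        rw [← h4]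
        refine SimpleGraph.Dart.ext _ _ (Prod.ext ?_ h2)
        show (R.next d).fst = w (0 + 1)
        rw [R.fst_next, h1, zero_add])
      exact h3 (h 0)
    · exact h
  refine ⟨?_, fun i => ?_⟩
  · rw [hd]
    exact sz_of_right hh hl w ha hb key 1
  · rw [hd, face_of_right hh w ha hb key 1 i]
    show w (1 - i + 1) = w (2 - i)
    congr 1
    ring

/-- Two closed walks through a common corner. -/
theorem C4.two_corner (hh : C4 R) {l m : ℕ} [NeZero l] [NeZero m] (hl : l ≤ 7) (hm : m ≤ 7)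
    (w : ZMod l → V) (w' : ZMod m → V)
    (ha : ∀ i, G.Adj (w i) (w (i + 1))) (hb : ∀ i, w i ≠ w (i + 2))
    (ha' : ∀ i, G.Adj (w' i) (w' (i + 1))) (hb' : ∀ i, w' i ≠ w' (i + 2))
    (hs : (∀ i, R.next (ed w ha i) = ed w ha (i + 1)) ∨
      (∀ i, R.next (ed w ha i) ≠ ed w ha (i + 1)))
    (hs' : (∀ i, R.next (ed w' ha' i) = ed w' ha' (i + 1)) ∨
      (∀ i, R.next (ed w' ha' i) ≠ ed w' ha' (i + 1)))
    (h0 : w 0 = w' 0) (h1 : w 1 = w' 1) (h2 : w 2 = w' 2) :
    l = m ∧ ∀ i : ℕ, w i = w' i := by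
  rcases hs with h | h
  · set d := ed w ha 0 with hd
    have hd0 : d.fst = w 0 := rfl
    have hd1 : d.snd = w 1 := by
      show w (0 + 1) = w 1
      rw [zero_add]
    have hn2 : (R.next d).snd = w 2 := by
      rw [hd, h 0]
      show w (0 + 1 + 1) = w 2
      rw [zero_add, one_add_one_eq_two]
    obtain ⟨e1, e2⟩ := hh.cornerZ hl w ha hb (Or.inl h) d hd0 hd1 hn2
    obtain ⟨e3, e4⟩ := hh.cornerZ hm w' ha' hb' hs' d (hd0.trans h0) (hd1.trans h1)
      (hn2.trans h2)
    exact ⟨e1.symm.trans e3, fun i => (e2 i).symm.trans (e4 i)⟩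
  · set d' := (ed w ha 1).symm with hd'
    have k0 : d'.fst = w 2 := by
      show w (1 + 1) = w 2
      rw [one_add_one_eq_two]
    have k1 : d'.snd = w 1 := rfl
    have k2 : (R.next d').snd = w 0 := by
      have h3 := (turn_iff hh w ha hb 0).2 (h 0)
      rw [zero_add] at h3
      rw [next_eq, hd', SimpleGraph.Dart.symm_symm, h3]
      rfl
    obtain ⟨e1, e2⟩ := hh.cornerZ' hl w ha hb (Or.inr h) d' k0 k1 k2
    obtain ⟨e3, e4⟩ := hh.cornerZ' hm w' ha' hb' hs' d' (k0.trans h2) (k1.trans h1)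
      (k2.trans h0)
    have hlm : l = m := e1.symm.trans e3
    subst hlm
    refine ⟨rfl, fun i => ?_⟩
    have h5 : (((2 - (i : ZMod l)).val : ℕ) : ZMod l) = 2 - (i : ZMod l) :=
      ZMod.natCast_zmod_val _
    have h6 := (e2 (2 - (i : ZMod l)).val).symm.trans (e4 (2 - (i : ZMod l)).val)
    rw [h5, sub_sub_cancel] at h6
    exact h6

theorem cw_zero {L : List V} [NeZero L.length] (x : V) (h : 0 < L.length) :
    cw L x 0 = L.getD 0 x := by
  have := cw_nat (L := L) x (i := 0) h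
  rw [Nat.cast_zero] at this
  exact this

theorem cw_one {L : List V} [NeZero L.length] (x : V) (h : 1 < L.length) :
    cw L x 1 = L.getD 1 x := by
  have := cw_nat (L := L) x (i := 1) h
  rw [Nat.cast_one] at this
  exact this

theorem cw_two {L : List V} [NeZero L.length] (x : V) (h : 2 < L.length) :
    cw L x 2 = L.getD 2 x := by
  have := cw_nat (L := L) x (i := 2) h
  rw [Nat.cast_ofNat] at this
  exact this

/-- **Corners**, lists. -/
theorem C4.corner (hh : C4 R) (a v b : V) (l l' : List V) (hS : N4 R 8 a)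
    (h : NB G (a :: v :: b :: l)) (h' : NB G (a :: v :: b :: l')) (hl : l.length ≤ 4)
    (hl' : l'.length ≤ 4) : l = l' := by
  set L := a :: v :: b :: l with hL
  set L' := a :: v :: b :: l' with hL'
  have e1 : L.length = l.length + 3 := rfl
  have e2 : L'.length = l'.length + 3 := rfl
  have : NeZero L.length := ⟨by rw [e1]; omega⟩
  have : NeZero L'.length := ⟨by rw [e2]; omega⟩
  obtain ⟨ha, h1⟩ := hh.sevenZ (L := L) (by omega) (by omega) h a ⟨a, by simp [hL], hS⟩
  obtain ⟨ha', h1'⟩ := hh.sevenZ (L := L') (by omega) (by omega) h' a ⟨a, by simp [hL'], hS⟩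
  obtain ⟨-, hb⟩ := cw_spec (by omega) h a
  obtain ⟨-, hb'⟩ := cw_spec (by omega) h' a
  obtain ⟨h3, h4⟩ := hh.two_corner (by omega) (by omega) (cw L a) (cw L' a) ha hb ha' hb' h1 h1'
    (by rw [cw_zero a (by omega), cw_zero a (by omega)]; rfl)
    (by rw [cw_one a (by omega), cw_one a (by omega)]; rfl)
    (by rw [cw_two a (by omega), cw_two a (by omega)]; rfl)
  have h5 : L = L' := by
    refine list_eq_of_cw a h3 fun i hi => ?_
    rw [← cw_nat a hi, ← cw_nat a (by rw [← h3]; exact hi)]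
    exact h4 i
  rw [hL, hL'] at h5
  simpa using h5

/-- **A closed walk of length five through the corner of a face.** -/
theorem C4.five (hh : C4 R) (d : G.Dart) (x y : V) (hS : N4 R 8 d.fst) (hd : sz R d ≠ 5) :
    ¬ NB G [d.fst, d.snd, (R.next d).snd, x, y] := by
  intro h
  set L := [d.fst, d.snd, (R.next d).snd, x, y] with hL
  have : NeZero L.length := ⟨by rw [hL]; norm_num⟩
  have e1 : L.length = 5 := rfl
  obtain ⟨ha, h1⟩ := hh.sevenZ (L := L) (by omega) (by omega) h d.fst ⟨d.fst, by simp [hL], hS⟩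
  obtain ⟨-, hb⟩ := cw_spec (by omega) h d.fst
  obtain ⟨h2, -⟩ := hh.cornerZ (by omega) (cw L d.fst) ha hb h1 d
    (by rw [cw_zero _ (by omega)]; rfl) (by rw [cw_one _ (by omega)]; rfl)
    (by rw [cw_two _ (by omega)]; rfl)
  exact hd (h2.trans e1)


/-- Closed walks of length eight, as functions on residues. -/
theorem C4.eightZ (hh : C4 R) (w : ZMod 8 → V) (ha : ∀ i, G.Adj (w i) (w (i + 1)))
    (hb : ∀ i, w i ≠ w (i + 2)) (hf : ∀ i, FV R (w i)) (P : List ℕ) (hP : P.Nodup)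
    (h5 : 5 ≤ P.length) (hP8 : ∀ i ∈ P, i < 8 ∧ R.next (ed w ha i) = ed w ha (i + 1))
    (q : ℕ) (hq : q < 8) (hq1 : R.next (ed w ha q) ≠ ed w ha (q + 1))
    (h : ¬ G.Adj (w (q + 1)) (w (q + 4 + 1)) ∨ (q + 4) % 8 ∈ P ∨
      ∃ q' : ℕ, q' < 8 ∧ R.next (ed w ha q') ≠ ed w ha (q' + 1) ∧ q' ≠ q ∧ q' ≠ (q + 4) % 8) :
    False := by
  classical
  have hcard : 5 ≤ #{i : ZMod 8 | R.next (ed w ha i) = ed w ha (i + 1)} := by
    have h1 : (P.toFinset.image fun i : ℕ => (i : ZMod 8)) ⊆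
        univ.filter fun i : ZMod 8 => R.next (ed w ha i) = ed w ha (i + 1) := by
      intro i hi
      rw [mem_image] at hi
      obtain ⟨k, hk, rfl⟩ := hi
      rw [List.mem_toFinset] at hk
      simp only [mem_filter, mem_univ, true_and]
      exact (hP8 k hk).2
    refine le_trans ?_ (card_le_card h1)
    rw [card_image_of_injOn, List.toFinset_card_of_nodup hP]
    · exact h5
    · intro i hi j hj hij
      have hi8 := (hP8 i (List.mem_toFinset.1 hi)).1
      have hj8 := (hP8 j (List.mem_toFinset.1 hj)).1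
      have h2 : (i : ZMod 8) = (j : ZMod 8) := hij
      rw [ZMod.natCast_eq_natCast_iff'] at h2
      omega
  have h8 : (((q + 4) % 8 : ℕ) : ZMod 8) = (q : ZMod 8) + 4 := by
    rw [ZMod.natCast_mod]
    push_cast
    rfl
  have hinj := hh.inj8 w ha hb hf
  rcases hh.sidesT le_rfl w ha hb hinj (by norm_num) hf with h1 | h1 | ⟨-, h1 | ⟨j, h1, h2 | h2⟩⟩
  · exact hq1 (h1 _)
  · obtain ⟨i, hi⟩ : ∃ i, i ∈ P := List.exists_mem_of_length_pos (by omega)
    exact h1 _ (hP8 i hi).2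
  · omega
  · have h3 := (h2 q).1 hq1
    have j8 : j + 4 + 4 = j := by
      rw [add_assoc, show (4 + 4 : ZMod 8) = 0 by decide, add_zero]
    have hq4 : R.next (ed w ha ((q : ZMod 8) + 4)) ≠ ed w ha ((q : ZMod 8) + 4 + 1) := by
      refine (h2 _).2 ?_
      rcases h3 with h3 | h3
      · right
        rw [← h3]; ring
      · left
        rw [← j8, ← h3]; ring
    rcases h with h | h | ⟨q', h4, h6, h7, h9⟩
    · apply h
      rcases h3 with h3 | h3
      · rw [h3, show (q : ZMod 8) + 4 + 1 = j + 4 by rw [← h3]; ring]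
        exact h1
      · rw [h3, show (q : ZMod 8) + 4 + 1 = j by rw [← j8, ← h3]; ring]
        exact h1.symm
    · have h4 := (hP8 _ h).2
      rw [h8] at h4
      exact hq4 h4
    · have h10 := (h2 q').1 h6
      have h11 : (q' : ZMod 8) = q ∨ (q' : ZMod 8) = q + 4 := by
        rcases h3 with h3 | h3 <;> rcases h10 with h10 | h10
        · exact Or.inl (add_right_cancel (h10.trans h3.symm))
        · right
          rw [← h3] at h10
          have : (q' : ZMod 8) + 1 = q + 4 + 1 := by rw [h10]; ring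
          exact add_right_cancel this
        · right
          rw [← j8, ← h3] at h10
          have : (q' : ZMod 8) + 1 = q + 4 + 1 := by rw [h10]; ring
          exact add_right_cancel this
        · exact Or.inl (add_right_cancel (h10.trans h3.symm))
      rcases h11 with h11 | h11
      · rw [ZMod.natCast_eq_natCast_iff'] at h11
        omega
      · rw [← h8, ZMod.natCast_eq_natCast_iff'] at h11
        omega
  · have h3 : #{i : ZMod 8 | R.next (ed w ha i) = ed w ha (i + 1)} ≤ 2 := by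
      have h4 : (univ.filter fun i : ZMod 8 => R.next (ed w ha i) = ed w ha (i + 1)) ⊆
          {j - 1, j + 4 - 1} := by
        intro i hi
        simp only [mem_filter, mem_univ, true_and] at hi
        simp only [mem_insert, mem_singleton]
        rcases (h2 i).1 hi with h5 | h5
        · left; rw [← h5]; ring
        · right; rw [← h5]; ring
      exact (card_le_card h4).trans card_le_two
    omega

/-- **Closed walks of length eight**, lists. -/
theorem C4.eight (hh : C4 R) (L : List V) (hS : ∃ y ∈ L, N4 R 8 y) (h : NB G L)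
    (hL : L.length = 8) (P : List ℕ) (hP : P.Nodup) (h5 : 5 ≤ P.length)
    (hP8 : ∀ i ∈ P, ∃ t : V × V × V, (tps L)[i]? = some t ∧ Lt R t)
    (q : ℕ) (t : V × V × V) (hq : (tps L)[q]? = some t) (hq1 : Lt R (rv t))
    (hc : (∃ u : V × V × V, (tps L)[(q + 4) % 8]? = some u ∧ ¬ G.Adj t.2.1 u.2.1) ∨
      (q + 4) % 8 ∈ P ∨ ∃ (q' : ℕ) (u : V × V × V), (tps L)[q']? = some u ∧ Lt R (rv u) ∧
        q' ≠ q ∧ q' ≠ (q + 4) % 8) : False := by
  obtain ⟨c0, c1, c2, c3, c4, c5, c6, c7, rfl⟩ : ∃ c0 c1 c2 c3 c4 c5 c6 c7,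
      L = [c0, c1, c2, c3, c4, c5, c6, c7] := by
    match L, hL with
    | [c0, c1, c2, c3, c4, c5, c6, c7], _ => exact ⟨_, _, _, _, _, _, _, _, rfl⟩
  set L := [c0, c1, c2, c3, c4, c5, c6, c7] with hLL
  obtain ⟨ha, hb⟩ := cw_spec (L := [c0, c1, c2, c3, c4, c5, c6, c7]) (by norm_num) h c0
  have hf := far_cw (L := [c0, c1, c2, c3, c4, c5, c6, c7]) (by norm_num) (by norm_num) h c0 hS
  have get : ∀ (i : ℕ) (t : V × V × V), (tps L)[i]? = some t → i < 8 ∧
      t = (cw L c0 (i : ZMod 8), cw L c0 ((i : ZMod 8) + 1), cw L c0 ((i : ZMod 8) + 2)) :=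
    fun i t ht => tps_cw (L := [c0, c1, c2, c3, c4, c5, c6, c7]) (by norm_num) c0 ht
  obtain ⟨hq8, hqt⟩ := get q t hq
  refine hh.eightZ (cw L c0) ha hb hf P hP h5 ?_ q hq8 ?_ ?_
  · intro i hi
    obtain ⟨u, h1, h2⟩ := hP8 i hi
    obtain ⟨h3, h4⟩ := get i u h1
    rw [h4] at h2
    exact ⟨h3, (lt_iff (l := 8) _ ha _).1 h2⟩
  · rw [hqt] at hq1
    exact (rt_iff (l := 8) hh _ ha hb _).1 hq1
  · rcases hc with ⟨u, h1, h2⟩ | h1 | ⟨q', u, h1, h2, h3, h4⟩
    · left
      obtain ⟨h3, h4⟩ := get _ u h1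
      rw [hqt, h4] at h2
      have h8 : (((q + 4) % 8 : ℕ) : ZMod 8) = (q : ZMod 8) + 4 := by
        rw [ZMod.natCast_mod]
        push_cast
        rfl
      rw [h8] at h2
      exact h2
    · exact Or.inr (Or.inl h1)
    · right; right
      obtain ⟨h6, h7⟩ := get q' u h1
      rw [h7] at h2
      exact ⟨q', h6, (rt_iff (l := 8) hh _ ha hb _).1 h2, h3, h4⟩

end Pool.Agent.U2Geo
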