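import Mathlib
import Pool.Agent.Work.MP_392c8e_co_unl.CertG2X
import Pool.Agent.Work.MP_392c8e_co_unl.LabC

/-!
# The patch G2'' in cyclically 4-edge-connected graphs

The three neighbours of the 7-face and the two outer neighbours of the last one have length five, and
the common outer face of the first two has length five.  The patch is good except when the
terminals 2 and 8 are equal and the terminals 3 and 7 are adjacent, and this does not happen for
the patch and its mirror image at the same time.
-/

set_option autoImplicit false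

namespace Pool.Agent.U2Geo

open Finset Pool.Agent.Sub392 Pool.T1Side Pool.Agent.T392 Pool.Agent.T1FF Pool.Agent.T1Red
open Pool.Agent.Once392 (NbR RotOk Dt)
open Pool.Agent.Disch392 (mir)

set_option linter.unusedSectionVars false

variable {V : Type} [Fintype V] [DecidableEq V] {G : SimpleGraph V} [DecidableRel G.Adj]
variable {R : Rot G} {S : V → Prop} {f : ℕ → V}

theorem xjX (ht : TabOk G f tG2X) : ∀ e ∈ xjG2X, G.Adj (f e.1) (f e.2) := by
  have r3 := ht (3, 4, 18, 28) (by decide)
  have r4 := ht (4, 20, 3, 29) (by decide)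
  have r9 := ht (9, 0, 27, 31) (by decide)
  have r0 := ht (0, 24, 9, 30) (by decide)
  intro e he
  simp only [xjG2X, List.mem_cons, List.not_mem_nil, or_false] at he
  rcases he with rfl | rfl | rfl | rfl | rfl | rfl
  · exact r0.hb
  · exact r3.ha
  · exact r3.hc
  · exact r4.hc
  · exact r0.hc
  · exact r9.hc

theorem xnX (ht : TabOk G f tG2X) : ∀ e ∈ xnG2X, f e.1 ≠ f e.2 := by
  have r3 := ht (3, 4, 18, 28) (by decide)
  have r4 := ht (4, 20, 3, 29) (by decide)
  have r9 := ht (9, 0, 27, 31) (by decide)
  have r0 := ht (0, 24, 9, 30) (by decide)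
  intro e he
  simp only [xnG2X, List.mem_cons, List.not_mem_nil, or_false] at he
  rcases he with rfl | rfl | rfl | rfl | rfl | rfl | rfl | rfl
  · exact r3.ac.symm
  · exact r3.bc.symm
  · exact r4.ac.symm
  · exact r4.bc.symm
  · exact r0.ac.symm
  · exact r0.bc.symm
  · exact r9.bc.symm
  · exact r9.ac.symm

theorem forall_two {P : ℕ × ℕ → Prop} {a b : ℕ × ℕ} (ha : P a) (hb : P b) : ∀ e ∈ [a, b], P e := by
  intro e he
  simp only [List.mem_cons, List.not_mem_nil, or_false] at he
  rcases he with rfl | rfl
  · exact ha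
  · exact hb

/-- **The cases of the patch.** -/
theorem coreG2X (hC : C4 R) (hG : ClsT R S) (hN : RotOk R f tG2X) (hS : ∀ k, k < 28 → S (f k))
    (h0 : ∀ k, k < 28 → N3 R 0 (f k))
    (hF : No5 G cnG2X f) :
    Patch G G2R [] [] comG2R [] f ∨ Patch G G2R [] [(2, 7)] comG2R [(3, 8)] f ∨
      Patch G G2R [] [(3, 8)] comG2R [(2, 7)] f ∨ Patch G G2R [] [(2, 8)] comG2R [(3, 7)] f ∨
      (f 2 = f 8 ∧ G.Adj (f 3) (f 7)) := by
  have ht : TabOk G f tG2X := tab_of_rot hC.cub hN
  have hxj := xjX ht
  have hxn := xnX ht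
  have hne := ne_ofT hG (ti := []) (xa := []) ht hN chkG2X hS hF (by simp) hxj hxn (by simp) neG2X
  have a25 : G.Adj (f 25) (f 7) := (ht (25, 26, 22, 7) (by decide)).hc
  have a26 : G.Adj (f 26) (f 8) := (ht (26, 27, 25, 8) (by decide)).hc
  have h37 : f 3 ≠ f 7 := by
    intro h
    have h1 : f 25 = f 28 := by
      rcases (ht (3, 4, 18, 28) (by decide)).all (f 25) (by
        show G.Adj (f 3) (f 25)
        rw [h]; exact a25.symm) with h2 | h2 | h2
      · exact absurd h2 (hne (25, 4) (by decide))
      · exact absurd h2 (hne (25, 18) (by decide))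
      · exact h2
    exact false_ofT3 hC hG ht hN chkG2X hS h0 hF
      (forall_two (P := fun e => f e.1 = f e.2) h h1) hxj hxn (by simp) absG2X37
  have h48 : f 4 ≠ f 8 := by
    intro h
    have h1 : f 26 = f 29 := by
      rcases (ht (4, 20, 3, 29) (by decide)).all (f 26) (by
        show G.Adj (f 4) (f 26)
        rw [h]; exact a26.symm) with h2 | h2 | h2
      · exact absurd h2 (hne (26, 20) (by decide))
      · exact absurd h2 (hne (26, 3) (by decide))
      · exact h2
    exact false_ofT3 hC hG ht hN chkG2X hS h0 hF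
      (forall_two (P := fun e => f e.1 = f e.2) h h1) hxj hxn (by simp) absG2X48
  have hxn2 : ∀ e ∈ [(3, 7), (4, 8)] ++ xnG2X, f e.1 ≠ f e.2 := by
    intro e he
    rcases List.mem_append.1 he with he | he
    · exact forall_two (P := fun e => f e.1 ≠ f e.2) h37 h48 e he
    · exact hxn e he
  by_cases h27 : f 2 = f 7
  · exact Or.inr (Or.inl (patch_ofT hG ht hN chkG2X hS hF (by simpa using h27) hxj hxn2
      (by simp) finG2X27))
  by_cases h38 : f 3 = f 8
  · exact Or.inr (Or.inr (Or.inl (patch_ofT hG ht hN chkG2X hS hF (by simpa using h38) hxj hxn2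
      (by simp) finG2X38)))
  by_cases h28 : f 2 = f 8
  · by_cases ha : G.Adj (f 3) (f 7)
    · exact Or.inr (Or.inr (Or.inr (Or.inr ⟨h28, ha⟩)))
    · exact Or.inr (Or.inr (Or.inr (Or.inl (patch_ofT hG ht hN chkG2X hS hF (by simpa using h28)
        hxj hxn2 (by simpa using ha) finG2X28))))
  · refine Or.inl (patch_ofT hG ht hN chkG2X hS hF (by simp) hxj ?_ (by simp) finG2X00)
    intro e he
    rcases List.mem_append.1 he with he | he
    · simp only [List.mem_cons, List.not_mem_nil, or_false] at he
      rcases he with rfl | rfl | rfl | rfl | rfl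
      · exact h27
      · exact h28
      · exact h37
      · exact h48
      · exact h38
    · exact hxn e he

/-- **The exceptional case does not happen on both sides.** -/
theorem not_bothG2X (hC : C4 R) (hG : ClsT R S) (hN : RotOk R f tG2X)
    (hS : ∀ k, k < 28 → S (f k)) (hF : No5 G cnG2X f) (h1 : f 2 = f 8) (h2 : f 5 = f 31) :
    False := by
  have ht : TabOk G f tG2X := tab_of_rot hC.cub hN
  exact false_ofT hG ht hN chkG2X hS hF (forall_two (P := fun e => f e.1 = f e.2) h1 h2)
    (xjX ht) (xnX ht) (by simp) absG2Xe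

end Pool.Agent.U2Geo
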