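import Mathlib
import Pool.Agent.Work.MP_392c8e_co_unl.SideT
import Pool.Agent.Work.MP_392c8e_co_uni.RingSz

/-!
# Hypotheses of the patches in labels

Outer faces which have not length five give corners without closed walks of length five, and the
vertices of a patch are near to its root.
-/

namespace Pool.Agent.U2Geo

open Pool.T1Side Pool.Agent.T1Red Pool.Agent.T1FF Pool.Agent.Sub392 Pool.Agent.T392
open Pool.Agent.Once392 (RotOk NbR Dt nx nx_ok sF sF_sz adL adLN adLN_ok)

set_option linter.unusedSectionVars false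

/-- The corner lies on one of the faces which are reached from `q` by the lists `Ls`. -/
def cornF (N : List (ℕ × ℕ × ℕ × ℕ)) (q : ℕ × ℕ) (Ls : List (List ℕ)) (e : ℕ × ℕ × ℕ) : Bool :=
  nx N (e.1, e.2.1) == some (e.2.1, e.2.2) && Ls.any fun l => match adLN N l q with
    | some p => sF N (e.1, e.2.1) p || sF N p (e.1, e.2.1)
    | none => false

/-- The labels at distance at most `D` from the labels of the list. -/
def lev (N : List (ℕ × ℕ × ℕ × ℕ)) : ℕ → List ℕ → List ℕ
  | 0, s => s
  | D + 1, s => lev N D (s ++ N.flatMap fun e =>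
      cond (s.elem e.1) [e.2.1, e.2.2.1, e.2.2.2] [])

/-- All labels below `n` except those of `ex` are near to `a`. -/
def levB (N : List (ℕ × ℕ × ℕ × ℕ)) (D a n : ℕ) (ex : List ℕ) : Bool :=
  (List.range n).all fun k => (lev N D [a]).elem k || ex.elem k

section

variable {V : Type} [Fintype V] [DecidableEq V] {G : SimpleGraph V} [DecidableRel G.Adj]
  {R : Rot G} {S : V → Prop} {f : ℕ → V} {N : List (ℕ × ℕ × ℕ × ℕ)}

/-- **Corners of outer faces.** -/
theorem no5_of (hG : ClsT R S) (hN : RotOk R f N) {q : ℕ × ℕ} {d : G.Dart} (hd : Dt f q d)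
    {n : ℕ} (hS : ∀ k, k < n → S (f k)) {Ls : List (List ℕ)}
    (hs : ∀ l ∈ Ls, sz R (adL R l d) ≠ 5) {F : List (ℕ × ℕ × ℕ)}
    (h : (F.all fun e => Nat.blt e.1 n && cornF N q Ls e) = true) : No5 G F f := by
  intro e he x y hNB
  rw [List.all_eq_true] at h
  have h1 := h e he
  rw [Bool.and_eq_true, Nat.blt_eq] at h1
  obtain ⟨hn, h1⟩ := h1
  unfold cornF at h1
  rw [Bool.and_eq_true, List.any_eq_true, beq_iff_eq] at h1
  obtain ⟨h2, l, hl, h3⟩ := h1
  have hadj : G.Adj (f e.1) (f e.2.1) := hNB.1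
  set u : G.Dart := ⟨(f e.1, f e.2.1), hadj⟩ with hu
  have hu1 : Dt f (e.1, e.2.1) u := ⟨rfl, rfl⟩
  have hu2 := nx_ok hN h2 hu1
  have hsz : sz R u ≠ 5 := by
    split at h3
    · rename_i p hp
      have h4 := adLN_ok hN hp hd
      rw [Bool.or_eq_true] at h3
      rcases h3 with h3 | h3
      · rw [← sF_sz hN h3 hu1 h4]
        exact hs l hl
      · rw [sF_sz hN h3 h4 hu1]
        exact hs l hl
    · exact absurd h3 (by simp)
  refine hG.five u x y (hS e.1 hn) hsz ?_
  have e1 : (R.next u).snd = f e.2.2 := hu2.2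
  rw [e1]
  exact hNB

theorem lev_ok (hN : TabOk G f N) : ∀ (D : ℕ) (s : List ℕ) (k : ℕ), k ∈ lev N D s →
    ∃ a ∈ s, ∃ p : G.Walk (f a) (f k), p.length ≤ D
  | 0, s, k, h => ⟨k, h, SimpleGraph.Walk.nil, le_rfl⟩
  | D + 1, s, k, h => by
    obtain ⟨a, ha, p, hp⟩ := lev_ok hN D _ k h
    rw [List.mem_append, List.mem_flatMap] at ha
    rcases ha with ha | ⟨e, he, ha⟩
    · exact ⟨a, ha, p, by omega⟩
    · cases hc : s.elem e.1 with
      | false => rw [hc] at ha; simp at ha
      | true =>
        rw [hc] at ha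
        simp only [cond_true, List.mem_cons, List.not_mem_nil, or_false] at ha
        have h1 := hN e he
        have h2 : G.Adj (f e.1) (f a) := by
          rcases ha with rfl | rfl | rfl
          · exact h1.ha
          · exact h1.hb
          · exact h1.hc
        refine ⟨e.1, by simpa using hc, SimpleGraph.Walk.cons h2 p, ?_⟩
        rw [SimpleGraph.Walk.length_cons]
        omega

/-- **The labels are near to the root.** -/
theorem n4_lab (hN : TabOk G f N) {m D a n : ℕ} {ex : List ℕ} (h : N4 R (m + D) (f a))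
    (hex : ∀ k ∈ ex, N4 R m (f k)) (hc : levB N D a n ex = true) :
    ∀ k, k < n → N4 R m (f k) := by
  intro k hk
  unfold levB at hc
  rw [List.all_eq_true] at hc
  have h1 := hc k (List.mem_range.2 hk)
  rw [Bool.or_eq_true, List.elem_eq_mem, List.elem_eq_mem, decide_eq_true_eq,
    decide_eq_true_eq] at h1
  rcases h1 with h1 | h1
  · obtain ⟨b, hb, p, hp⟩ := lev_ok hN D [a] k h1
    rw [List.mem_singleton] at hb
    subst hb
    exact h.walk p hp
  · exact hex k h1

end

end Pool.Agent.U2Geo
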