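import Mathlib
import Pool.Agent.Work.MP_392c8e_co_unl.RingTwoB
import Pool.Agent.Work.MP_392c8e_co_unl.GeoSide

/-!
# Annular patches

The leaving darts of the patch form two cycles on the two sides of a cycle of the patch.  If each of
them has at most seven elements then no outer face comes back to the patch in two gaps.
-/

namespace Pool.Agent.RingTwo

open Finset Pool.Agent.Sub392 Pool.Agent.T392 Pool.Agent.Disch392 Pool.Agent.Uni392
  Pool.Agent.U2Geo Pool.Agent.Ring392 Pool.Agent.Once392 Pool.Agent.RingB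
open Pool.T1Side (NB Tr)
open Pool.Agent.Uni91 (Good GainP JoinP)
open Pool.Agent.T1Red (Red Int Same Real Old)

set_option linter.unusedSectionVars false

variable {V : Type} [Fintype V] [DecidableEq V] {G : SimpleGraph V} [DecidableRel G.Adj]
  {R : Rot G} {U : V → Prop} {f : ℕ → V} {N : List (ℕ × ℕ × ℕ × ℕ)} {r : ℕ × ℕ}
  {D D₁ D₂ : List Gp}

/-- The last gap is followed by the first one. -/
def cls (D : List Gp) : Bool :=
  match D.head?, D.getLast? with
  | some x, some y => y.b == x.a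
  | _, _ => true

/-- The value at the end of a chain. -/
theorem end_sum {g g' : Gp} {p : V → ℚ} : ∀ (l : List Gp) (e : Gp),
    (∀ x ∈ e :: l, p (f x.b.2) = p (f x.a.2) + (dl g g' x : ℚ)) →
    (((e :: l).zip l).all fun q => q.1.b == q.2.a) = true → ∀ y ∈ (e :: l).getLast?,
    p (f y.b.2) = p (f e.a.2) + ((((e :: l).map (dl g g')).sum : ℤ) : ℚ) := by
  intro l
  induction l with
  | nil =>
    intro e h1 _ y hy
    obtain rfl : e = y := by simpa using hy
    rw [h1 e List.mem_cons_self]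
    simp
  | cons e' l ih =>
    intro e h1 h2 y hy
    rw [List.zip_cons_cons, List.all_cons, Bool.and_eq_true, beq_iff_eq] at h2
    have h3 := ih e' (fun x hx => h1 x (List.mem_cons_of_mem _ hx)) h2.2 y (by
      rwa [List.getLast?_cons_cons] at hy)
    rw [h3, ← h2.1, h1 e List.mem_cons_self, List.map_cons (a := e), List.sum_cons]
    push_cast
    ring

/-- The changes along a closed chain have sum zero. -/
theorem sum_closed {g g' : Gp} {p : V → ℚ} (hp : Pot G U f D g g' p) {D' : List Gp}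
    (hsub : ∀ e ∈ D', e ∈ D) (hz : chn D' = true) (hc : cls D' = true) :
    (D'.map (dl g g')).sum = 0 := by
  cases D' with
  | nil => rfl
  | cons e l =>
    obtain ⟨y, hy⟩ : ∃ y, (e :: l).getLast? = some y := by
      rw [← Option.isSome_iff_exists]
      simp
    have h1 := end_sum l e (fun x hx => hp.gap x (hsub x hx)) hz y hy
    unfold cls at hc
    rw [hy] at hc
    simp only [List.head?_cons, beq_iff_eq] at hc
    rw [hc] at h1
    have h2 : ((((e :: l).map (dl g g')).sum : ℤ) : ℚ) = 0 := by linarith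
    exact_mod_cast h2

/-- The two cycles are separated. -/
def Sep (G : SimpleGraph V) (U : V → Prop) (f : ℕ → V) (D₁ D₂ : List Gp) : Prop :=
  ∃ c : V → ℚ, (∀ u v, G.Adj u v → ¬ U u → ¬ U v → c u = c v) ∧
    (∀ g ∈ D₁, c (f g.a.2) = 0) ∧ ∀ g ∈ D₂, c (f g.a.2) = 1

theorem Sep.symm (h : Sep G U f D₁ D₂) : Sep G U f D₂ D₁ := by
  obtain ⟨c, h1, h2, h3⟩ := h
  refine ⟨fun v => 1 - c v, ?_, ?_, ?_⟩
  · intro u v huv hu hv
    show 1 - c u = 1 - c v
    rw [h1 u v huv hu hv]
  · intro g hg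
    show 1 - c (f g.a.2) = 0
    rw [h3 g hg]
    ring
  · intro g hg
    show 1 - c (f g.a.2) = 1
    rw [h2 g hg]
    ring

/-- **Every value is taken at least four times in its cycle.** -/
theorem count_sep (h : Lab R U f N) (hC : Cut3 R U) (hU : Disc G U)
    (hc : gpw N r (D₁ ++ D₂) = true) (hs : Sep G U f D₁ D₂) {p : V → ℚ}
    (hp : ∀ u v, G.Adj u v → ¬ U u → ¬ U v → p u = p v) (z : ℚ)
    (hz : z ∈ D₁.map fun e => p (f e.a.2)) : 4 ≤ (D₁.map fun e => p (f e.a.2)).count z := by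
  obtain ⟨c, h1, h2, h3⟩ := hs
  rw [List.mem_map] at hz
  obtain ⟨g, hg, rfl⟩ := hz
  have h4 := countP_ge h hC hU hc (fun v => (c v, p v)) (fun u v huv hu hv => by
    rw [h1 u v huv hu hv, hp u v huv hu hv]) (List.mem_append_left D₂ hg)
  rw [List.countP_append] at h4
  have e2 : (D₂.countP fun e => decide ((c (f e.a.2), p (f e.a.2)) =
      (c (f g.a.2), p (f g.a.2)))) = 0 := by
    rw [List.countP_eq_zero]
    intro e he h5
    rw [decide_eq_true_eq, Prod.mk.injEq, h3 e he, h2 g hg] at h5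
    exact one_ne_zero h5.1
  rw [e2, Nat.add_zero] at h4
  refine h4.trans ?_
  rw [List.count, List.countP_map]
  refine List.countP_mono_left fun e _ h5 => ?_
  rw [decide_eq_true_eq, Prod.mk.injEq] at h5
  simp [h5.2]

theorem many_sep (h : Lab R U f N) (hC : Cut3 R U) (hU : Disc G U)
    (hc : gpw N r (D₁ ++ D₂) = true) (hs : Sep G U f D₁ D₂) {g g' : Gp} {p : V → ℚ}
    (hp : Pot G U f D g g' p) (hsub : ∀ e ∈ D₁, e ∈ D) (hz : chn D₁ = true) :
    many (vl g g' 0 D₁) = true := by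
  obtain ⟨C, h3⟩ := hp.vals hsub hz
  refine many_of (φ := fun x : ℤ => C + (x : ℚ)) ?_ h3 fun z hz => ?_
  · intro x y hxy
    have : (x : ℚ) = y := by simpa using hxy
    exact_mod_cast this
  · exact count_sep h hC hU hc hs (fun u v huv hu _ => hp.out u v huv (Or.inl hu)) z hz

/-- The pair is impossible. -/
def bad2 (D₁ D₂ : List Gp) (g h : Gp) : Bool :=
  (D₁.map (dl g h)).sum != 0 || (D₂.map (dl g h)).sum != 0 || !many (vl g h 0 D₁) ||
    !many (vl g h 0 D₂)

/-- **The check for two cycles.** -/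
def chk2 (D₁ D₂ : List Gp) : Bool :=
  chn D₁ && cls D₁ && chn D₂ && cls D₂ &&
    (D₁ ++ D₂).all fun g => (D₁ ++ D₂).all fun h => g.a == h.a || bad2 D₁ D₂ g h

/-- **No outer face comes back in two gaps.** -/
theorem noPair_two (h : Lab R U f N) (hC : Cut3 R U) (hU : Disc G U)
    (hc : gpw N r (D₁ ++ D₂) = true) (hs : Sep G U f D₁ D₂) (hk : chk2 D₁ D₂ = true) :
    NoPair R f (D₁ ++ D₂) := by
  intro g hg g' hg' x y hx hy hne hF
  obtain ⟨p, hp⟩ := exists_Pot h hC hc hg hg' hx hy hF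
  unfold chk2 at hk
  simp only [Bool.and_eq_true] at hk
  obtain ⟨⟨⟨⟨k1, k2⟩, k3⟩, k4⟩, k5⟩ := hk
  have h1 := List.all_eq_true.1 (List.all_eq_true.1 k5 g hg) g' hg'
  rw [Bool.or_eq_true, beq_iff_eq] at h1
  have h2 := h1.resolve_left hne
  have s1 : ∀ e ∈ D₁, e ∈ D₁ ++ D₂ := fun e he => List.mem_append_left _ he
  have s2 : ∀ e ∈ D₂, e ∈ D₁ ++ D₂ := fun e he => List.mem_append_right _ he
  have hc' : gpw N r (D₂ ++ D₁) = true := by
    unfold gpw at hc ⊢
    simp only [Bool.and_eq_true, List.all_eq_true, List.mem_append] at hc ⊢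
    refine ⟨⟨hc.1.1, fun e he => hc.1.2 e he.symm⟩, fun e he c hcc => ?_⟩
    have := hc.2 e he c hcc
    simp only [Bool.or_eq_true, List.any_append] at this ⊢
    tauto
  have m1 := many_sep h hC hU hc hs hp s1 k1
  have m2 := many_sep h hC hU hc' hs.symm hp s2 k3
  have z1 := sum_closed hp s1 k1 k2
  have z2 := sum_closed hp s2 k3 k4
  unfold bad2 at h2
  rw [m1, m2, z1, z2] at h2
  simp at h2

/-! ## The separation from a cycle of the patch -/

/-- Adjacency of labels, in either order. -/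
def adjB (N : List (ℕ × ℕ × ℕ × ℕ)) (a b : ℕ) : Bool := nbr N (a, b) || nbr N (b, a)

theorem adjB_adj (hN : RotOk R f N) {a b : ℕ} (h : adjB N a b = true) : G.Adj (f a) (f b) := by
  unfold adjB at h
  rw [Bool.or_eq_true] at h
  rcases h with h | h
  · exact nbr_adj hN h
  · exact (nbr_adj hN h).symm

/-- A closed walk without turning back, in labels. -/
def trL (N : List (ℕ × ℕ × ℕ × ℕ)) : List ℕ → Bool
  | a :: b :: c :: l => adjB N a b && a != c && trL N (b :: c :: l)
  | _ => true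

theorem trL_ok (h : Lab R U f N) : ∀ l : List ℕ, (∀ a ∈ l, a ∈ ins N) → trL N l = true →
    Tr G (l.map f)
  | [], _, _ => trivial
  | [_], _, _ => trivial
  | [_, _], _, _ => trivial
  | a :: b :: c :: l, hi, ht => by
    unfold trL at ht
    simp only [Bool.and_eq_true, bne_iff_ne] at ht
    refine ⟨adjB_adj h.rot ht.1.1, ?_, trL_ok h (b :: c :: l)
      (fun x hx => hi x (List.mem_cons_of_mem _ hx)) ht.2⟩
    intro he
    exact ht.1.2 (h.inj a (hi a (by simp)) c (lbs_of_ins (hi c (by simp))) he)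

/-- The labels after `a` form a path off `L`. -/
def offL (N : List (ℕ × ℕ × ℕ × ℕ)) (L : List ℕ) : ℕ → List ℕ → Bool
  | _, [] => true
  | a, b :: π => adjB N a b && !L.contains b && (lbs N).contains b && offL N L b π

/-- The corner number `i` turns left (right), and the path leads from it to the label `z`. -/
def exitL (N : List (ℕ × ℕ × ℕ × ℕ)) (L : List ℕ) (s : Bool) (i : ℕ) (π : List ℕ) (z : ℕ) : Bool :=
  match (tps L)[i]? with
  | some t => (if s then nx N (t.1, t.2.1) == some (t.2.1, t.2.2) && nbr N (t.1, t.2.1)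
      else nx N (t.2.2, t.2.1) == some (t.2.1, t.1) && nbr N (t.2.2, t.2.1)) &&
      offL N L t.2.1 π && π.getLast? == some z
  | none => false

/-- **The check for the separation.** -/
def sepL (N : List (ℕ × ℕ × ℕ × ℕ)) (L : List ℕ) (D₁ D₂ : List Gp)
    (P₁ P₂ : List (ℕ × List ℕ)) : Bool :=
  (L.all fun a => (ins N).contains a) && trL N (L ++ L.take 2) && decide (3 ≤ L.length) &&
    decide L.Nodup && (D₁.all fun g => P₁.any fun x => exitL N L true x.1 x.2 g.a.2) &&
    D₂.all fun g => P₂.any fun x => exitL N L false x.1 x.2 g.a.2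

theorem off_ok (h : Lab R U f N) {L : List ℕ} (hL : ∀ a ∈ L, a ∈ ins N) {c : V → ℚ}
    (hc : ∀ x y, G.Adj x y → x ∉ L.map f → y ∉ L.map f → c x = c y) {v : ℚ} :
    ∀ (π : List ℕ) (a z : ℕ), (∀ y, G.Adj (f a) y → y ∉ L.map f → c y = v) →
    offL N L a π = true → π.getLast? = some z → c (f z) = v := by
  intro π
  induction π with
  | nil => exact fun a z _ _ hz => by simp at hz
  | cons b π ih =>
    intro a z ha hoff hz
    unfold offL at hoff
    simp only [Bool.and_eq_true, Bool.not_eq_true'] at hoff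
    obtain ⟨⟨⟨h1, h2⟩, h3⟩, h4⟩ := hoff
    have hb : f b ∉ L.map f := by
      intro hmem
      obtain ⟨i, hi, hfi⟩ := List.mem_map.1 hmem
      have h5 := h.inj i (hL i hi) b (by simpa using h3) hfi
      subst h5
      simp [hi] at h2
    have hcb := ha _ (adjB_adj h.rot h1) hb
    cases π with
    | nil =>
      obtain rfl : b = z := by simpa using hz
      exact hcb
    | cons b' π =>
      refine ih b z (fun y hy hyL => ?_) h4 (by rwa [List.getLast?_cons_cons] at hz)
      rw [← hc _ _ hy hb hyL]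
      exact hcb

theorem sep_of (h : Lab R U f N) (hC : Cut3 R U) {L : List ℕ} {P₁ P₂ : List (ℕ × List ℕ)}
    (hk : sepL N L D₁ D₂ P₁ P₂ = true) : Sep G U f D₁ D₂ := by
  unfold sepL at hk
  simp only [Bool.and_eq_true, List.all_eq_true, decide_eq_true_eq, List.contains_iff_mem] at hk
  obtain ⟨⟨⟨⟨⟨k1, k2⟩, k3⟩, k4⟩, k5⟩, k6⟩ := hk
  have hNB : NB G (L.map f) := by
    unfold NB
    rw [← List.map_take, ← List.map_append]
    refine trL_ok h _ ?_ k2
    intro a ha
    rw [List.mem_append] at ha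
    rcases ha with ha | ha
    · exact k1 a ha
    · exact k1 a (List.mem_of_mem_take ha)
  have hnd : (L.map f).Nodup := by
    rw [List.nodup_map_iff_inj_on k4]
    intro a ha b hb hab
    exact h.inj a (k1 a ha) b (lbs_of_ins (k1 b hb)) hab
  obtain ⟨c, c1, c2, c3⟩ := side_of hC.plane hC.cub hNB (by rwa [List.length_map]) hnd
  refine ⟨c, ?_, ?_, ?_⟩
  · intro u v huv hu hv
    refine c1 u v huv ?_ ?_
    · intro hmem
      obtain ⟨i, hi, rfl⟩ := List.mem_map.1 hmem
      exact hu (h.u_of (k1 i hi))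
    · intro hmem
      obtain ⟨i, hi, rfl⟩ := List.mem_map.1 hmem
      exact hv (h.u_of (k1 i hi))
  · intro g hg
    have h1 := k5 g hg
    rw [List.any_eq_true] at h1
    obtain ⟨⟨i, π⟩, -, h2⟩ := h1
    unfold exitL at h2
    split at h2
    · rename_i t ht
      simp only [if_true, Bool.and_eq_true, beq_iff_eq] at h2
      obtain ⟨⟨⟨h3, h4⟩, h5⟩, h6⟩ := h2
      have ht' : (tps (L.map f))[i]? = some (f t.1, f t.2.1, f t.2.2) := by
        rw [tps_map, List.getElem?_map, ht]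
        rfl
      have hd : Dt f (t.1, t.2.1) (⟨(f t.1, f t.2.1), nbr_adj h.rot h4⟩ : G.Dart) := ⟨rfl, rfl⟩
      have hlt : Lt R (f t.1, f t.2.1, f t.2.2) := ⟨_, rfl, rfl, (nx_ok h.rot h3 hd).2⟩
      exact off_ok h k1 c1 π t.2.1 _ (fun y hy hyL => c2 i _ y ht' hlt hy hyL) h5 h6
    · simp at h2
  · intro g hg
    have h1 := k6 g hg
    rw [List.any_eq_true] at h1
    obtain ⟨⟨i, π⟩, -, h2⟩ := h1
    unfold exitL at h2
    split at h2
    · rename_i t ht
      simp only [Bool.false_eq_true, if_false, Bool.and_eq_true, beq_iff_eq] at h2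
      obtain ⟨⟨⟨h3, h4⟩, h5⟩, h6⟩ := h2
      have ht' : (tps (L.map f))[i]? = some (f t.1, f t.2.1, f t.2.2) := by
        rw [tps_map, List.getElem?_map, ht]
        rfl
      have hd : Dt f (t.2.2, t.2.1) (⟨(f t.2.2, f t.2.1), nbr_adj h.rot h4⟩ : G.Dart) := ⟨rfl, rfl⟩
      have hlt : Lt R (rv (f t.1, f t.2.1, f t.2.2)) := ⟨_, rfl, rfl, (nx_ok h.rot h3 hd).2⟩
      exact off_ok h k1 c1 π t.2.1 _ (fun y hy hyL => c3 i _ y ht' hlt hy hyL) h5 h6
    · simp at h2

/-! ## Places -/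

/-- The check for an annular place in a cyclically 4-edge-connected graph. -/
def placeA (R : Red) (nl co : List (ℕ × ℕ)) (N : List (ℕ × ℕ × ℕ × ℕ)) (r : ℕ × ℕ)
    (D₁ D₂ : List Gp) (L : List ℕ) (P₁ P₂ : List (ℕ × List ℕ)) : Bool :=
  connB R && Nat.ble 2 R.m && outB R co && labB R nl N && gpw N r (D₁ ++ D₂) && chk2 D₁ D₂ &&
    sepL N L D₁ D₂ P₁ P₂

/-- **The gain of an annular place.** -/
theorem gainAL {q : Place V} {K : ℕ} (hC : Cut3 R (Int q.R q.f)) (hg : Good q G)
    (hm : q.miss = []) (hN : RotOk R q.f N) {L : List ℕ} {P₁ P₂ : List (ℕ × List ℕ)}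
    (hp : placeA q.R q.nl q.co N r D₁ D₂ L P₁ P₂ = true) (bs : List (List (ℕ × ℕ)))
    (hbs : ∀ B ∈ bs, ∃ c ∈ B, ∃ d : G.Dart, Dt q.f c d ∧ sz R d ≤ K)
    (h : ((chs bs).all fun sh => goodB q.R q.nl q.ps q.co (gsOf N (D₁ ++ D₂) sh)) = true) :
    GainP G q (10 * (K + 1)) := by
  obtain ⟨sh, h1, h2⟩ := chs_of hbs
  unfold placeA at hp
  simp only [Bool.and_eq_true, Nat.ble_eq] at hp
  obtain ⟨⟨⟨⟨⟨⟨p1, p2⟩, p3⟩, p4⟩, p5⟩, p6⟩, p7⟩ := hp
  obtain ⟨hl, hreal⟩ := lab_of hg hm hN p4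
  have hH := noPair_two hl hC (disc_of hC hg hm p1 p2 p3) p5 (sep_of hl hC p7) p6
  exact gainP_of hg hm (gaps_noPair hC hl hreal p5 hH h2) (List.all_eq_true.1 h sh h1)

theorem gainA {K : ℕ} {s : Shape} {f : ℕ → V} {v : V} (hR : C4 R) (h4 : N4 R 60 v)
    (hs : shOK s = true) (hv : v ∈ (s.pl f).Vert) (hg : Good (s.pl f) G)
    (hm : (s.pl f).miss = [])
    (hN : RotOk R (s.pl f).f N) {L : List ℕ} {P₁ P₂ : List (ℕ × List ℕ)}
    (hp : placeA (s.pl f).R (s.pl f).nl (s.pl f).co N r D₁ D₂ L P₁ P₂ = true) (bs : List (List (ℕ × ℕ)))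
    (hbs : ∀ B ∈ bs, ∃ c ∈ B, ∃ d : G.Dart, Dt (s.pl f).f c d ∧ sz R d ≤ K)
    (h : ((chs bs).all fun sh => goodB (s.pl f).R (s.pl f).nl (s.pl f).ps (s.pl f).co (gsOf N (D₁ ++ D₂) sh)) = true) :
    GainP G (s.pl f) (10 * (K + 1)) := gainAL (cut3_of hR h4 hs hg hv) hg hm hN hp bs hbs h

end Pool.Agent.RingTwo
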