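import Mathlib
import Pool.Agent.Work.MP_392c8e_co_unl.GeoX
import Pool.Agent.Work.MP_392c8e_co_uni.LineG
import Pool.Agent.Work.MP_392c8e_co_unl.RingAnn
import Pool.Agent.Work.MP_392c8e_co_uni.RingShB
import Pool.Agent.Work.MP_392c8e_co_uni.PlW
import Pool.Agent.Work.MP_392c8e_co_unl.GeoC4d

/-!
# Stage C: the line g3, the annular case

The stubs 2 and 8 of G3 end at the same vertex and the ends of the stubs 3 and 7 are adjacent.  Then
the place G3X has a gain if the three neighbours of length five have only short neighbours.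
-/

set_option autoImplicit false

namespace Pool.Agent.RotX

open Finset Pool.Agent.Sub392 Pool.T1Side Pool.Agent.T392 Pool.Agent.T1FF Pool.Agent.T1Red
open Pool.Agent.Disch392 Pool.Agent.U2Geo Pool.Agent.Once392 Pool.Agent.RingB
  Pool.Agent.Ring392 Pool.Agent.RingTwo
open Pool.Agent.Uni91 (GainP)
open Pool.Agent.DischB (Bf Snd)

set_option linter.unusedSectionVars false

/-- The gaps at the terminals 3, …, 7. -/
def gX1 : List Gp :=
  [⟨(19, 4), [(19, 11), (11, 10), (10, 18), (18, 26)], (26, 3), [(11, 10)]⟩,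
    ⟨(26, 3), [(26, 27)], (27, 7), [(26, 27), (18, 17), (10, 9)]⟩,
    ⟨(27, 7), [(27, 22), (22, 13), (13, 12), (12, 21)], (21, 6), [(13, 12)]⟩,
    ⟨(21, 6), [(21, 20)], (20, 5), [(21, 20), (12, 11)]⟩,
    ⟨(20, 5), [(20, 19)], (19, 4), [(20, 19), (12, 11)]⟩]

/-- The gaps at the terminals 8, 0, 1, 2. -/
def gX2 : List Gp :=
  [⟨(15, 0), [(15, 14), (14, 24)], (24, 8), [(15, 14)]⟩,
    ⟨(24, 8), [(24, 23), (23, 25)], (25, 2), [(24, 23), (14, 13)]⟩,
    ⟨(25, 2), [(25, 17), (17, 16)], (16, 1), [(17, 16), (10, 9)]⟩,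
    ⟨(16, 1), [(16, 9), (9, 15)], (15, 0), [(9, 15)]⟩]

/-- The cycle between the two sides. -/
def LX : List ℕ := [26, 18, 10, 11, 19, 20, 21, 12, 13, 22, 27]

/-- The paths to the terminals 3, …, 7. -/
def PX1 : List (ℕ × List ℕ) := [(3, [4]), (4, [5]), (5, [6]), (9, [7]), (10, [3])]

/-- The paths to the terminals 8, 0, 1, 2. -/
def PX2 : List (ℕ × List ℕ) :=
  [(1, [9, 15, 0]), (1, [9, 16, 1]), (0, [17, 25, 2]), (8, [23, 24, 8])]

theorem placeX : placeA G3X [] [(3, 4), (6, 7)] tG3X (9, 10) gX1 gX2 LX PX1 PX2 = true := by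
  decide +kernel

/-- The short positions. -/
def shG3X : List (ℕ × ℕ) := shOf tG3X (9, 10) [[0], [2], [4]] []

/-- The short positions, as choices. -/
def bsG3X : List (List (ℕ × ℕ)) := shG3X.map fun c => [c]

theorem gdX : ((chs bsG3X).all fun sh =>
    goodB G3X [] psG3X [(3, 4), (6, 7)] (gsOf tG3X (gX1 ++ gX2) sh)) = true := by
  decide +kernel

theorem ok_G3X : shOK sG3X = true := by decide +kernel

variable {V : Type} [Fintype V] [DecidableEq V] {G : SimpleGraph V} [DecidableRel G.Adj]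
  {R : Rot G} {K : ℕ}

/-- **The annular place has a gain.** -/
theorem instG3X (hext : G3X.Ext [(3, 4), (6, 7)]) (hR : C4 R) {d : G.Dart}
    (hN : N4 R 60 d.fst) (hs : sz R d = 7) (a0 : Snd R K (ad R d 0)) (a2 : Snd R K (ad R d 2))
    (a4 : Snd R K (ad R d 4)) (c0 : c5 R (ad R d 0) = 0) (c2 : c5 R (ad R d 2) = 0)
    (c4 : c5 R (ad R d 4) = 0) (h28 : fG3 R d 2 = fG3 R d 8)
    (h37 : G.Adj (fG3 R d 3) (fG3 R d 7)) :
    ∃ f : ℕ → V, Uni91.Good (sG3X.pl f) G ∧ GainP G (sG3X.pl f) (10 * (K + 1)) ∧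
      d.fst ∈ (sG3X.pl f).Vert := by
  have h3 := hR.cub
  have e0 := nb_ne_of_c5 c0
  have e2 := nb_ne_of_c5 c2
  have e4 := nb_ne_of_c5 c4
  have h0 : nb R d 0 = 5 := a0.1.1
  have h2 : nb R d 2 = 5 := a2.1.1
  have h4 : nb R d 4 = 5 := a4.1.1
  have hG : IsG3 R d := ⟨good_cub h3 hs, good_cub h3 (by rw [sz_ac]; exact h0),
    good_cub h3 (by rw [sz_ac]; exact h2), good_cub h3 (by rw [sz_ac]; exact h4)⟩
  have hL : ∀ l ∈ LsX, sz R (adL R l d) ≠ 5 := by
    intro l hl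
    simp only [LsX, List.mem_cons, List.not_mem_nil, or_false] at hl
    rcases hl with rfl | rfl | rfl | rfl | rfl | rfl | rfl | rfl
    · show nb R d 1 ≠ 5
      rw [← nb_ad_last h3 d h0]; exact e0 4 (by norm_num)
    · show nb R d 3 ≠ 5
      rw [← nb_ad_last h3 d h2]; exact e2 4 (by norm_num)
    · show nb R d 5 ≠ 5
      rw [← nb_ad_last h3 d h4]; exact e4 4 (by norm_num)
    · show nb R d 6 ≠ 5
      rw [← nb_ad_one h3 d 6, show 6 + 1 = 0 + 7 from rfl, ad_per R hs]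
      exact e0 1 (by norm_num)
    · exact e2 3 (by norm_num)
    · exact e2 2 (by norm_num)
    · exact e0 2 (by norm_num)
    · exact e4 3 (by norm_num)
  have hg : Uni91.Good (sG3X.pl (fG3X R d)) G :=
    goodG3X hext hR.clsT hN (by norm_num) hG h28 h37 hL
  have hrot : RotOk R (fG3X R d) tG3X := rotG3X hG hR.clsT hN (by norm_num) h28 h37
  have hsh : ShOk R K (fG3X R d) shG3X := by
    refine shOk_of hrot dt_fG3X ?_ (by simp)
    intro l hl
    simp only [List.mem_cons, List.not_mem_nil, or_false] at hl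
    rcases hl with rfl | rfl | rfl
    · exact a0.1
    · exact a2.1
    · exact a4.1
  have hv : d.fst ∈ (sG3X.pl (fG3X R d)).Vert := by
    refine ⟨9, ?_, rfl⟩
    show Real G3X [] [] 9
    exact ⟨by decide, by decide, by decide⟩
  refine ⟨fG3X R d, hg, gainA hR hN ok_G3X hv hg rfl hrot placeX bsG3X ?_ gdX, hv⟩
  intro B hB
  unfold bsG3X at hB
  rw [List.mem_map] at hB
  obtain ⟨c, hc, rfl⟩ := hB
  exact ⟨c, List.mem_singleton.2 rfl, hsh c hc⟩

/-- **The annular case of the line g3 of stage C.** -/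
theorem lineC_g3X (hext : G3X.Ext [(3, 4), (6, 7)]) (hR : C4 R) {r : ℕ} (hr : 20 ≤ r)
    (hrK : 10 * (K + 1) ≤ r) (d : G.Dart) (hN : N4 R 60 d.fst) (hs : sz R d = 7)
    (a0 : Snd R K (ad R d 0)) (a2 : Snd R K (ad R d 2)) (a4 : Snd R K (ad R d 4))
    (c0 : c5 R (ad R d 0) = 0) (c2 : c5 R (ad R d 2) = 0) (c4 : c5 R (ad R d 4) = 0)
    (h28 : fG3 R d 2 = fG3 R d 8) (h37 : G.Adj (fG3 R d 3) (fG3 R d 7)) : PP R r d.fst :=
  ppW ok_G3X hr hrK (instG3X hext hR hN hs a0 a2 a4 c0 c2 c4 h28 h37)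

end Pool.Agent.RotX
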