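import Mathlib
import Pool.Agent.Work.MP_392c8e_co_unl.PatchMC
import Pool.Agent.Work.MP_392c8e_co_unl.RingTwoB
import Pool.Agent.Work.MP_392c8e_co_unl.GeoC4d

/-!
# Stage C: the lines for three faces of length five in a row

The lines `m2`, `m3`, `m6` of the table of stage C.
-/

set_option autoImplicit false

namespace Pool.Agent.InstM

open Finset Pool.Agent.Sub392 Pool.T1Side Pool.Agent.T392 Pool.Agent.T1FF Pool.Agent.T1Red
open Pool.Agent.Disch392 Pool.Agent.U2Geo Pool.Agent.Once392 Pool.Agent.RingB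
  Pool.Agent.Ring392 Pool.Agent.GapData Pool.Agent.RingTwo
open Pool.Agent.Uni91 (GainP)

set_option linter.unusedSectionVars false

theorem place_M2a : placeC C3 [] [] tC' (8, 9) gCp = true := by decide +kernel

theorem place_M2b : placeC C3 [] [(0, 6)] tC' (8, 9) gCp = true := by decide +kernel

theorem place_M3 : placeC C3M3 [] [(0, 6)] tC' (8, 9) gCp = true := by decide +kernel

theorem place_M6 : placeC C3M6 [] [(0, 6)] tC' (8, 9) gCp = true := by decide +kernel

theorem gd_M2a : ((chs bsM2).all fun sh => goodC C3 [] psM2 [] tC' gCp sh) = true := by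
  decide +kernel

theorem gd_M2b : ((chs bsM2).all fun sh => goodC C3 [] psM2 [(0, 6)] tC' gCp sh) = true := by
  decide +kernel

theorem gd_M3 : ((chs bsM3).all fun sh => goodC C3M3 [] psM3 [(0, 6)] tC' gCp sh) = true := by
  decide +kernel

theorem gd_M6 : ((chs bsM6).all fun sh => goodC C3M6 [] psM6 [(0, 6)] tC' gCp sh) = true := by
  decide +kernel

variable {V : Type} [Fintype V] [DecidableEq V] {G : SimpleGraph V} [DecidableRel G.Adj]
  {R : Rot G} {K : ℕ}

/-- **The first line for three faces of length five in a row, stage C.** -/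
theorem lineC_m2 (hR : C4 R) {r : ℕ} (hr : 20 ≤ r) (hrK : 10 * (K + 1) ≤ r) (d : G.Dart)
    (hN : N4 R 60 d.fst) (h : Chain R d) (hO : nb R (ad R d 4) 2 ≠ 5)
    (hF : ¬ (nb R d 0 = 5 ∧ nb R d 2 = 5))
    (k1 : ¬ (K ≤ nb R (ad R d 4) 3 ∧ K ≤ nb R d 3))
    (k2 : ¬ (K ≤ nb R (ad R d 1) 3 ∧ K ≤ nb R (ad R d 1) 2))
    (k3 : ¬ (K ≤ nb R d 2 ∧ K ≤ nb R d 0)) : PP R r d.fst := by
  have h3 := hR.cub
  have hbs : ∀ B ∈ bsM2, ∃ c ∈ B, ∃ e : G.Dart, Dt (fM2 R d) c e ∧ sz R e ≤ K := by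
    intro B hB
    simp only [bsM2, List.mem_cons, List.not_mem_nil, or_false] at hB
    rcases hB with rfl | rfl | rfl
    · rcases not_and_or.1 k1 with k | k
      · exact ⟨(7, 11), by simp, chainC_short h3 h (l := [4, 3]) (by decide) (le_of_not_ge k)⟩
      · exact ⟨(12, 16), by simp, chainC_short h3 h (l := [3]) (by decide) (le_of_not_ge k)⟩
    · rcases not_and_or.1 k2 with k | k
      · exact ⟨(17, 14), by simp, chainC_short h3 h (l := [1, 3]) (by decide) (le_of_not_ge k)⟩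
      · exact ⟨(14, 10), by simp, chainC_short h3 h (l := [1, 2]) (by decide) (le_of_not_ge k)⟩
    · rcases not_and_or.1 k3 with k | k
      · exact ⟨(16, 13), by simp, chainC_short h3 h (l := [2]) (by decide) (le_of_not_ge k)⟩
      · exact ⟨(9, 8), by simp, chainC_short h3 h (l := [0]) (by decide) (le_of_not_ge k)⟩
  rcases goodC_M2 hR.clsT hN (by norm_num) h hO hF with hg | hg
  · have hv : d.fst ∈ (cM2a.pl (fM2 R d)).Vert := mem_M h rfl (by decide)
    exact ⟨cM2a.pl (fM2 R d), plW ok_M2a hg hr (gainC hR hN ok_M2a hv hg rfl (chainC_rot h3 h)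
      place_M2a bsM2 hbs gd_M2a) hrK, hv⟩
  · have hv : d.fst ∈ (cM2b.pl (fM2 R d)).Vert := mem_M h rfl (by decide)
    exact ⟨cM2b.pl (fM2 R d), plW ok_M2b hg hr (gainC hR hN ok_M2b hv hg rfl (chainC_rot h3 h)
      place_M2b bsM2 hbs gd_M2b) hrK, hv⟩

/-- **The second line for three faces of length five in a row, stage C.** -/
theorem lineC_m3 (hR : C4 R) {r : ℕ} (hr : 20 ≤ r) (hrK : 10 * (K + 1) ≤ r) (d : G.Dart)
    (hN : N4 R 60 d.fst) (h : Chain R d) (hO : nb R (ad R d 4) 2 ≠ 5)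
    (hO3 : nb R (ad R d 1) 3 ≠ 5) (k0 : nb R d 0 < K) (k2 : nb R d 2 < K)
    (k3 : nb R d 3 < K) : PP R r d.fst := by
  have h3 := hR.cub
  have hbs : ∀ B ∈ bsM3, ∃ c ∈ B, ∃ e : G.Dart, Dt (fM2 R d) c e ∧ sz R e ≤ K := by
    intro B hB
    simp only [bsM3, List.mem_cons, List.not_mem_nil, or_false] at hB
    rcases hB with rfl | rfl | rfl
    · exact ⟨(9, 8), by simp, chainC_short h3 h (l := [0]) (by decide) (le_of_lt k0)⟩
    · exact ⟨(16, 13), by simp, chainC_short h3 h (l := [2]) (by decide) (le_of_lt k2)⟩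
    · exact ⟨(12, 16), by simp, chainC_short h3 h (l := [3]) (by decide) (le_of_lt k3)⟩
  have hg := goodC_M3 hR.clsT hN (by norm_num) h hO hO3
  have hv : d.fst ∈ (cM3.pl (fM2 R d)).Vert := mem_M h rfl (by decide)
  exact ⟨cM3.pl (fM2 R d), plW ok_M3 hg hr (gainC hR hN ok_M3 hv hg rfl (chainC_rot h3 h) place_M3
    bsM3 hbs gd_M3) hrK, hv⟩

/-- **The third line for three faces of length five in a row, stage C.** -/
theorem lineC_m6 (hR : C4 R) {r : ℕ} (hr : 20 ≤ r) (hrK : 10 * (K + 1) ≤ r) (d : G.Dart)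
    (hN : N4 R 60 d.fst) (h : Chain R d) (hO : nb R (ad R d 4) 2 ≠ 5)
    (hRr : nb R (ad R d 1) 2 ≠ 5) (k0 : nb R d 0 < K) (k2 : nb R d 2 < K)
    (k3 : nb R d 3 < K) (k4 : nb R (ad R d 1) 3 < K) : PP R r d.fst := by
  have h3 := hR.cub
  have hbs : ∀ B ∈ bsM6, ∃ c ∈ B, ∃ e : G.Dart, Dt (fM2 R d) c e ∧ sz R e ≤ K := by
    intro B hB
    simp only [bsM6, List.mem_cons, List.not_mem_nil, or_false] at hB
    rcases hB with rfl | rfl | rfl | rfl
    · exact ⟨(9, 8), by simp, chainC_short h3 h (l := [0]) (by decide) (le_of_lt k0)⟩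
    · exact ⟨(16, 13), by simp, chainC_short h3 h (l := [2]) (by decide) (le_of_lt k2)⟩
    · exact ⟨(12, 16), by simp, chainC_short h3 h (l := [3]) (by decide) (le_of_lt k3)⟩
    · exact ⟨(17, 14), by simp, chainC_short h3 h (l := [1, 3]) (by decide) (le_of_lt k4)⟩
  have hg := goodC_M6 hR.clsT hN (by norm_num) h hO hRr
  have hv : d.fst ∈ (cM6.pl (fM2 R d)).Vert := mem_M h rfl (by decide)
  exact ⟨cM6.pl (fM2 R d), plW ok_M6 hg hr (gainC hR hN ok_M6 hv hg rfl (chainC_rot h3 h) place_M6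
    bsM6 hbs gd_M6) hrK, hv⟩

end Pool.Agent.InstM
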