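import Mathlib
import Pool.Agent.Work.MP_392c8e_co_unl.SideTX
import Pool.Agent.Work.MP_392c8e_co_uni.PatchR2
import Pool.Agent.Work.MP_392c8e_co_uni.RotTabs2

/-!
# The place R2 in stage C
-/

namespace Pool.Agent.U2Geo

open Finset Pool.Agent.Sub392 Pool.T1Side Pool.Agent.T392 Pool.Agent.T1FF Pool.Agent.T1Red

set_option linter.unusedSectionVars false

/-- Certificate. -/
def tsR2T : List StepT :=
  [.ne 0 1 (.base (.tri 0 12 13)), .ne 0 9 (.base (.tri 0 12 13)), .ne 0 10 (.base (.tri 0 12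
  11)), .ne 0 19 (.base (.tri 0 12 11)), .ne 1 10 (.base (.tri 1 13 9)), .ne 1 11 (.base (.tri 1
  12 13)), .ne 1 14 (.base (.tri 1 13 9)), .ne 2 3 (.base (.tri 2 14 15)), .ne 2 10 (.base (.tri 2
  9 14)), .ne 2 13 (.base (.tri 2 9 14)), .ne 2 16 (.base (.tri 2 14 15)), .ne 3 9 (.base (.tri 14
  3 15)), .ne 3 10 (.base (.tri 15 3 16)), .ne 3 17 (.base (.tri 15 3 16)), .ne 4 5 (.base (.tri
  17 4 18)), .ne 4 10 (.base (.tri 16 4 17)), .ne 4 15 (.base (.tri 16 4 17)), .ne 4 19 (.base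
  (.tri 17 4 18)), .ne 5 6 (.base (.tri 18 5 19)), .ne 5 11 (.base (.tri 18 5 19)), .ne 5 16
  (.base (.tri 17 5 18)), .ne 6 10 (.base (.tri 11 6 19)), .ne 6 12 (.base (.tri 11 6 19)), .ne 6
  17 (.base (.tri 18 6 19)), .ne 9 17 (.base (.tri 10 9 16)), .ne 9 19 (.base (.tri 10 9 11)), .ne
  10 18 (.base (.tri 11 10 19)), .ne 11 14 (.base (.tri 10 9 11)), .ne 11 15 (.base (.tri 10 11
  16)), .ne 11 17 (.base (.tri 11 18 19)), .ne 12 14 (.base (.tri 9 12 13)), .ne 12 16 (.base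
  (.tri 10 12 11)), .ne 12 18 (.base (.tri 11 12 19)), .ne 13 15 (.base (.tri 9 13 14)), .ne 13 16
  (.base (.tri 9 13 10)), .ne 13 19 (.base (.tri 11 12 13)), .ne 14 17 (.base (.tri 15 14 16)),
  .ne 15 18 (.base (.tri 16 15 17)), .ne 16 19 (.base (.tri 16 17 18)), .ne 0 6 (.four 0 19 11
  12), .ne 0 14 (.four 0 9 13 12), .ne 0 16 (.four 0 10 11 12), .ne 0 18 (.four 0 19 11 12), .ne 1
  2 (.four 1 13 9 14), .ne 1 15 (.four 1 13 9 14), .ne 1 16 (.four 1 10 9 13), .ne 1 19 (.four 1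
  11 12 13), .ne 2 11 (.four 2 10 9 14), .ne 2 12 (.four 2 13 9 14), .ne 2 17 (.four 2 16 15 14),
  .ne 3 4 (.four 3 17 16 15), .ne 3 11 (.four 3 10 16 15), .ne 3 13 (.four 3 9 14 15), .ne 3 18
  (.four 3 17 16 15), .ne 4 6 (.four 4 17 18 19), .ne 4 9 (.four 4 17 16 10), .ne 4 11 (.four 4 17
  16 10), .ne 4 14 (.four 4 17 16 15), .ne 5 10 (.four 5 16 17 18), .ne 5 12 (.four 5 18 19 11),
  .ne 5 15 (.four 5 16 17 18), .ne 6 9 (.four 6 10 11 19), .ne 6 13 (.four 6 19 11 12), .ne 6 16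
  (.four 6 17 18 19), .ne 9 18 (.four 9 10 16 17), .ne 12 15 (.four 12 11 10 16), .ne 12 17 (.four
  12 11 10 16), .ne 13 17 (.four 13 9 10 16), .ne 13 18 (.four 13 12 11 19), .ne 14 18 (.four 14
  15 16 17), .ne 14 19 (.four 14 9 10 11), .ne 15 19 (.four 15 11 10 16), .ne 0 2 (.five 0 12 13 9
  14), .ne 0 5 (.seven [0, 18, 19, 11, 12]), .ne 0 15 (.five 0 12 13 9 14), .ne 0 17 (.seven [0,
  16, 10, 11, 12]), .ne 1 3 (.seven [1, 13, 9, 14, 15]), .ne 1 6 (.seven [1, 19, 11, 12, 13]), .ne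
  1 17 (.seven [1, 16, 10, 9, 13]), .ne 1 18 (.seven [1, 13, 12, 11, 19]), .ne 2 4 (.five 15 14 2
  17 16), .ne 2 18 (.five 15 14 2 17 16), .ne 2 19 (.seven [2, 11, 10, 9, 14]), .ne 3 5 (.seven
  [3, 18, 17, 16, 15]), .ne 3 12 (.seven [3, 11, 10, 16, 15]), .ne 3 19 (.seven [3, 18, 17, 16,
  15]), .ne 4 12 (.seven [4, 17, 16, 10, 11]), .ne 4 13 (.seven [4, 9, 10, 16, 17]), .ne 5 9
  (.seven [5, 10, 16, 17, 18]), .ne 5 13 (.seven [5, 18, 19, 11, 12]), .ne 5 14 (.seven [5, 18,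
  17, 16, 15]), .ne 6 14 (.seven [6, 9, 10, 11, 19]), .ne 6 15 (.seven [6, 16, 17, 18, 19]), .ne 0
  3 (.seven [0, 12, 11, 10, 16, 15]), .ne 0 4 (.seven [0, 17, 16, 10, 11, 12]), .ne 1 4 (.seven
  [1, 17, 16, 10, 9, 13]), .ne 1 5 (.seven [1, 18, 19, 11, 12, 13]), .ne 2 5 (.seven [2, 18, 17,
  16, 15, 14]), .ne 2 6 (.seven [2, 19, 11, 10, 9, 14]), .ne 3 6 (.seven [3, 19, 11, 10, 16, 15]),
  .cn 0 1 (.five 0 12 13 1 20), .cn 2 3 (.five 2 14 15 3 20), .na 4 6 (.seven [4, 17, 18, 19, 6])]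

theorem fin_R2T : finT R2 nlR2 [] comR2 badR2 [] [] [] [] tR2 cfR2 tsR2T = true := by
  decide +kernel

theorem rch_R2 : ((List.range 20).all fun j => (rchN tR2 20 9 8).elem j || [7, 8].elem j) = true := by
  decide +kernel

variable {V : Type} [Fintype V] [DecidableEq V] {G : SimpleGraph V} [DecidableRel G.Adj]
  {R : Rot G} {d : G.Dart} {S : V → Prop}

/-- The labels of R2 are far from the faces of length four. -/
theorem n4_R2 (h : Good R d 5) (g0 : Good R (ac R d 0) 5) (g1 : Good R (ac R d 1) 6) {m : ℕ}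
    (hN : N4 R (m + 8) d.fst) : ∀ k, k < 20 → N4 R m (fR2 R d k) := by
  refine n4_tab (tabR2 h g0 g1) (b := 9) (al := [7, 8]) ?_ rch_R2 hN
  intro j hj
  simp only [List.mem_cons, List.not_mem_nil, or_false] at hj
  rcases hj with rfl | rfl <;> rfl

/-- **The patch R2.** -/
theorem patch_R2T (hG : ClsT R S) (hS : ∀ k, k < 20 → S (fR2 R d k)) (h : Good R d 5)
    (g0 : Good R (ac R d 0) 5) (g1 : Good R (ac R d 1) 6)
    (k3 : sz R (ac R d 3) ≠ 5) (k0 : sz R (ac R (ac R d 0) 2) ≠ 5) :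
    Patch G R2 nlR2 [] comR2 badR2 (fR2 R d) := by
  have e4 : X R d 4 = fR2 R d 13 := rfl
  have e15 : X R (ac R d 0) 3 = fR2 R d 15 := rfl
  refine patch_ofT hG (tabR2 h g0 g1) (rotR2 h g0 g1) (by decide +kernel) hS ?_
    (fun e he => absurd he List.not_mem_nil) (fun e he => absurd he List.not_mem_nil)
    (fun e he => absurd he List.not_mem_nil) (fun e he => absurd he List.not_mem_nil) fin_R2T
  intro e he x y
  simp only [cfR2, List.mem_cons, List.not_mem_nil, or_false] at he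
  rcases he with rfl | rfl
  · exact hG.no5a d 3 (by rw [e4]; exact hS 13 (by norm_num)) k3 x y
  · have := hG.no5a (ac R d 0) 2 (by rw [e15]; exact hS 15 (by norm_num)) k0 x y
    rwa [ac_X2] at this

/-- **The place R2.** -/
theorem good_R2T (hG : ClsT R S) (hS : ∀ k, k < 20 → S (fR2 R d k)) (h : Good R d 5)
    (g0 : Good R (ac R d 0) 5) (g1 : Good R (ac R d 1) 6)
    (k3 : sz R (ac R d 3) ≠ 5) (k0 : sz R (ac R (ac R d 0) 2) ≠ 5) :
    Uni91.Good (plc R2 nlR2 psR2 [] comR2 badR2 (fR2 R d)) G :=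
  good_of ext_R2 data_R2 ok_R2 (patch_R2T hG hS h g0 g1 k3 k0)

end Pool.Agent.U2Geo
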