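import Mathlib
import Pool.Agent.Work.MP_392c8e_co_uni.LineBR2
import Pool.Agent.Work.MP_392c8e_co_unl.PatchR2T
import Pool.Agent.Work.MP_392c8e_co_unl.RingTwoB
import Pool.Agent.Work.MP_392c8e_co_unl.GeoC4d
import Pool.Agent.Work.MP_392c8e_co_uni.PlW

/-!
# The line r2 of stage C
-/

namespace Pool.Agent.DischB

open Finset Pool.Agent.Sub392 Pool.T1Side Pool.Agent.T392 Pool.Agent.T1FF Pool.Agent.T1Red
open Pool.Agent.U2Geo Pool.Agent.Disch392 Pool.Agent.Once392 Pool.Agent.RingB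
  Pool.Agent.GapData Pool.Agent.RingTwo
open Pool.Agent.Uni91 (Good GainP)

set_option linter.unusedSectionVars false

variable {V : Type} [Fintype V] [DecidableEq V] {G : SimpleGraph V} [DecidableRel G.Adj]
  {R : Rot G} {K : ℕ}

theorem placeC_R2 : placeC R2 nlR2 [] tR2 (10, 16) gR2 = true := by decide +kernel

theorem shOK_R2 : shOK sR2 = true := by decide +kernel

theorem goodC_R2 : goodC R2 nlR2 psR2 [] tR2 gR2 shR2 = true := by decide +kernel

/-- A good place R2 with gain. -/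
theorem exC_r2 (hR : C4 R) (d : G.Dart) (hN4 : N4 R 60 d.fst) (hS : Snd R K d)
    (hp : PairS R d) (h1 : nb R d 1 = 6) :
    ∃ f : ℕ → V, Good (sR2.pl f) G ∧ GainP G (sR2.pl f) (10 * (K + 1)) ∧
      d.fst ∈ (sR2.pl f).Vert := by
  have g : T1FF.Good R d 5 := ⟨hS.1.1, fun _ => hR.cub _⟩
  have e0 : sz R (ac R d 0) = 5 := by rw [sz_ac]; exact hp.s0
  have e1 : sz R (ac R d 1) = 6 := by rw [sz_ac]; exact h1
  have g0 : T1FF.Good R (ac R d 0) 5 := ⟨e0, fun _ => hR.cub _⟩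
  have g1 : T1FF.Good R (ac R d 1) 6 := ⟨e1, fun _ => hR.cub _⟩
  have hl : ∀ k, k < 20 → N4 R 8 (fR2 R d k) := n4_R2 g g0 g1 (hN4.mono (by norm_num))
  have hg : Good (sR2.pl (fR2 R d)) G := by
    refine good_R2T hR.clsT hl g g0 g1 ?_ ?_
    · rw [sz_ac]
      exact hp.n3
    · rw [sz_ac, ac_eq_ad]
      exact hp.n02
  have hN : RotOk R (fR2 R d) tR2 := rotR2 g g0 g1
  have hv : d.fst ∈ (sR2.pl (fR2 R d)).Vert := by
    refine ⟨9, ?_, rfl⟩
    show Real R2 nlR2 [] 9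
    exact ⟨by decide, by decide, by decide⟩
  refine ⟨fR2 R d, hg, ?_, hv⟩
  refine gainC_of (cut3_of hR hN4 shOK_R2 hg hv) hg rfl hN placeC_R2 (sh := shR2) ?_ goodC_R2
  refine shOk_of hN dt_fR2 (fun l hl => ?_) (by simp)
  obtain rfl := List.mem_singleton.1 hl
  exact hS.1

/-- **The line r2 of stage C.** -/
theorem lineC_r2 (hR : C4 R) {r : ℕ} (hr : 20 ≤ r) (hrK : 10 * (K + 1) ≤ r) (d : G.Dart)
    (hN4 : N4 R 60 d.fst) (hS : Snd R K d) (hp : PairS R d) (h1 : nb R d 1 = 6) :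
    PP R r d.fst :=
  ppW shOK_R2 hr hrK (exC_r2 hR d hN4 hS hp h1)

end Pool.Agent.DischB
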