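import Mathlib
import Pool.Agent.Work.MP_392c8e_co_unl.GoodG2C
import Pool.Agent.Work.MP_392c8e_co_unl.RingTwoB
import Pool.Agent.Work.MP_392c8e_co_uni.GapData
import Pool.Agent.Work.MP_392c8e_co_uni.RingShB
import Pool.Agent.Work.MP_392c8e_co_uni.PlW

/-!
# Stage C: the line g2 of the table
-/

set_option autoImplicit false

namespace Pool.Agent.U2Geo

open Finset Pool.Agent.Sub392 Pool.T1Side Pool.Agent.T392 Pool.Agent.T1FF Pool.Agent.T1Red
open Pool.Agent.Once392 (RotOk Dt dt_fG2 shG2 shOk_G2)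
open Pool.Agent.DischB (HypG2 Pair7 Snd)
open Pool.Agent.Disch392 (nb ad)
open Pool.Agent.RingTwo (placeC goodC gainC_of cut3_of)
open Pool.Agent.Uni91 (GainP)

set_option linter.unusedSectionVars false

theorem placeC_G2 : placeC G2 [] [] tG2 (9, 10) Pool.Agent.GapData.gG2 = true := by
  decide +kernel

theorem goodC_G2 : goodC G2 [] psG2 [] tG2 Pool.Agent.GapData.gG2 shG2 = true := by
  decide +kernel

theorem shOK_sG2 : shOK sG2 = true := by decide +kernel

variable {V : Type} [Fintype V] [DecidableEq V] {G : SimpleGraph V} [DecidableRel G.Adj]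
  {R : Rot G} {K : ℕ}

/-- **The line g2 of the table of stage C.** -/
theorem lineC_g2 (hext : G2.Ext []) (hR : C4 R) {r : ℕ} (hr : 20 ≤ r) (hrK : 10 * (K + 1) ≤ r)
    (d : G.Dart) (hN : N4 R 60 d.fst) (h : HypG2 R d) (o3 : nb R (ad R d 0) 3 = 5)
    (a0 : Snd R K (ad R d 0)) (a1 : Snd R K (ad R d 1)) (a4 : Snd R K (ad R d 4)) :
    PP R r d.fst := by
  have g : Good R d 7 := good_cub hR.cub h.s
  have g0 : Good R (ac R d 0) 5 := good_cub hR.cub (by rw [sz_ac]; exact h.s0)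
  have g1 : Good R (ac R d 1) 5 := good_cub hR.cub (by rw [sz_ac]; exact h.s1)
  have g4 : Good R (ac R d 4) 5 := good_cub hR.cub (by rw [sz_ac]; exact h.s4)
  have ht : TabOk G (fG2 R d) tG2 := tabG2 g g0 g1 g4
  have hrot : RotOk R (fG2 R d) tG2 := rotG2 g g0 g1 g4
  have hS : ∀ k, k < 24 → N4 R 8 (fG2 R d k) :=
    n4_labels ht chk_G2 allR_G2 (v := d.fst) rfl hN (by norm_num)
  have hP := patchC_G2 hR.clsT ht hrot dt_fG2 hS h o3
  have hg : Uni91.Good (sG2.pl (fG2 R d)) G := hP.good hext data_G2 back_G2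
  have hv : d.fst ∈ (sG2.pl (fG2 R d)).Vert := by
    refine ⟨9, ⟨?_, List.not_mem_nil, fun p hp => absurd hp List.not_mem_nil⟩, rfl⟩
    show 9 < 9 + 15
    norm_num
  exact ⟨sG2.pl (fG2 R d), plW shOK_sG2 hg hr (gainC_of (cut3_of hR hN shOK_sG2 hg hv) hg rfl hrot
    placeC_G2 (shOk_G2 hrot a0.1 a1.1 a4.1) goodC_G2) hrK, hv⟩

end Pool.Agent.U2Geo
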