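import Mathlib
import Pool.Agent.Work.MP_392c8e_co_unl.SideTX
import Pool.Agent.Work.MP_392c8e_co_uni.LineP
import Pool.Agent.Work.MP_392c8e_co_uni.RotTabs

/-!
# The place P2 in stage C

A face of length seven with neighbours of length five across the edges 0, 1, 3, 5 in a cyclically
4-edge-connected cubic plane graph, far from the faces of length four.  The terminals 1 and 6, or
the terminals 2 and 7, may be equal, but not both.
-/

namespace Pool.Agent.U2Geo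

open Finset Pool.Agent.Sub392 Pool.T1Side Pool.Agent.T392 Pool.Agent.T1FF Pool.Agent.T1Red

set_option linter.unusedSectionVars false

/-- The corners. -/
def cfP2T : List (ℕ × ℕ × ℕ) := [(13, 12, 21), (15, 14, 24), (10, 16, 27), (18, 17, 0), (21, 20, 2)]

/-- The new edges. -/
def comP2T : List (ℕ × ℕ) := [(0, 1), (2, 3), (4, 6), (7, 9)]

/-- The pairs of terminals which may be equal. -/
def coP2n : List (ℕ × ℕ) := [(0, 5), (1, 5), (2, 8), (3, 8)]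

/-- The pairs of terminals which may be equal. -/
def coP2l : List (ℕ × ℕ) := [(0, 5), (1, 5), (2, 8), (3, 8), (1, 6)]

/-- The pairs of terminals which may be equal. -/
def coP2r : List (ℕ × ℕ) := [(0, 5), (1, 5), (2, 8), (3, 8), (2, 7)]

/-- The shape P2, the terminals 1, 6 and 2, 7 are different. -/
def sP2n : Shape := ⟨P2 (4, 6) (7, 9), [], psP2, coP2n, comP2T, []⟩

/-- The shape P2, the terminals 1 and 6 may be equal. -/
def sP2l : Shape := ⟨P2 (4, 6) (7, 9), [], psP2, coP2l, comP2T, [(0, 4)]⟩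

/-- The shape P2, the terminals 2 and 7 may be equal. -/
def sP2r : Shape := ⟨P2 (4, 6) (7, 9), [], psP2, coP2r, comP2T, [(3, 9)]⟩

/-- Certificates of all cases. -/
def tsP2T : List StepT :=
  [.ne 0 1 (.base (.tri 0 17 18)), .ne 0 11 (.base (.tri 0 17 10)), .ne 0 16 (.base (.tri 0 17
  10)), .ne 0 19 (.base (.tri 0 17 18)), .ne 1 10 (.base (.tri 1 17 18)), .ne 1 11 (.base (.tri 1
  18 19)), .ne 1 20 (.base (.tri 1 18 19)), .ne 2 3 (.base (.tri 20 2 21)), .ne 2 11 (.base (.tri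
  19 2 20)), .ne 2 12 (.base (.tri 20 2 21)), .ne 2 18 (.base (.tri 19 2 20)), .ne 3 11 (.base
  (.tri 3 12 21)), .ne 3 13 (.base (.tri 12 3 21)), .ne 3 19 (.base (.tri 3 20 21)), .ne 4 5
  (.base (.tri 4 22 23)), .ne 4 12 (.base (.tri 4 22 13)), .ne 4 14 (.base (.tri 4 13 22)), .ne 4
  24 (.base (.tri 22 4 23)), .ne 5 6 (.base (.tri 5 23 24)), .ne 5 13 (.base (.tri 5 22 23)), .ne
  5 14 (.base (.tri 5 24 23)), .ne 6 13 (.base (.tri 14 6 24)), .ne 6 15 (.base (.tri 14 6 24)),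
  .ne 6 22 (.base (.tri 23 6 24)), .ne 7 8 (.base (.tri 7 26 25)), .ne 7 14 (.base (.tri 15 7
  25)), .ne 7 16 (.base (.tri 15 7 25)), .ne 7 27 (.base (.tri 25 7 26)), .ne 8 9 (.base (.tri 8
  26 27)), .ne 8 15 (.base (.tri 8 26 25)), .ne 8 16 (.base (.tri 8 26 27)), .ne 9 10 (.base (.tri
  9 27 16)), .ne 9 15 (.base (.tri 9 27 16)), .ne 9 25 (.base (.tri 9 26 27)), .ne 10 13 (.base
  (.tri 11 10 12)), .ne 10 14 (.base (.tri 15 10 16)), .ne 10 20 (.base (.tri 11 10 19)), .ne 10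
  21 (.base (.tri 10 12 11)), .ne 10 25 (.base (.tri 15 10 16)), .ne 10 26 (.base (.tri 16 10
  27)), .ne 11 14 (.base (.tri 11 12 13)), .ne 11 15 (.base (.tri 10 11 16)), .ne 11 22 (.base
  (.tri 11 12 13)), .ne 11 27 (.base (.tri 10 11 16)), .ne 12 15 (.base (.tri 13 12 14)), .ne 12
  16 (.base (.tri 10 12 11)), .ne 12 17 (.base (.tri 10 12 11)), .ne 12 18 (.base (.tri 11 12
  19)), .ne 12 23 (.base (.tri 13 12 22)), .ne 12 24 (.base (.tri 13 12 14)), .ne 13 16 (.base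
  (.tri 14 13 15)), .ne 13 19 (.base (.tri 11 12 13)), .ne 13 20 (.base (.tri 13 12 21)), .ne 13
  25 (.base (.tri 14 13 15)), .ne 14 21 (.base (.tri 13 12 14)), .ne 14 26 (.base (.tri 15 14
  25)), .ne 14 27 (.base (.tri 15 14 16)), .ne 15 17 (.base (.tri 15 10 16)), .ne 15 22 (.base
  (.tri 14 13 15)), .ne 15 23 (.base (.tri 14 15 24)), .ne 16 18 (.base (.tri 10 17 16)), .ne 16
  19 (.base (.tri 10 16 11)), .ne 16 24 (.base (.tri 15 14 16)), .ne 17 20 (.base (.tri 18 17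
  19)), .ne 17 27 (.base (.tri 10 17 16)), .ne 18 21 (.base (.tri 19 18 20)), .ne 21 22 (.base
  (.tri 13 12 21)), .ne 24 25 (.base (.tri 14 15 24)), .ne 0 12 (.four 0 17 10 11), .ne 0 15
  (.four 0 16 10 17), .ne 0 20 (.four 0 17 18 19), .ne 0 27 (.four 0 16 10 17), .ne 1 2 (.four 1
  18 19 20), .ne 1 12 (.four 1 18 19 11), .ne 1 16 (.four 1 10 17 18), .ne 1 21 (.four 1 18 19
  20), .ne 2 10 (.four 2 11 19 20), .ne 2 13 (.four 2 20 21 12), .ne 2 17 (.four 2 18 19 20), .ne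
  3 10 (.four 3 11 12 21), .ne 3 14 (.four 3 21 12 13), .ne 3 18 (.four 3 19 20 21), .ne 3 22
  (.four 3 21 12 13), .ne 4 6 (.four 4 24 23 22), .ne 4 11 (.four 4 12 13 22), .ne 4 15 (.four 4
  14 13 22), .ne 4 21 (.four 4 12 13 22), .ne 5 12 (.four 5 13 22 23), .ne 5 15 (.four 5 14 24
  23), .ne 6 12 (.four 6 24 14 13), .ne 6 16 (.four 6 24 14 15), .ne 6 25 (.four 6 24 14 15), .ne
  7 9 (.four 7 25 26 27), .ne 7 10 (.four 7 16 15 25), .ne 7 13 (.four 7 25 15 14), .ne 7 24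
  (.four 7 25 15 14), .ne 8 10 (.four 8 16 27 26), .ne 8 14 (.four 8 26 25 15), .ne 9 11 (.four 9
  27 16 10), .ne 9 14 (.four 9 27 16 15), .ne 9 17 (.four 9 27 16 10), .ne 10 22 (.four 10 11 12
  13), .ne 10 24 (.four 10 14 15 16), .ne 11 23 (.four 11 12 13 22), .ne 11 24 (.four 11 12 13
  14), .ne 11 25 (.four 11 10 16 15), .ne 11 26 (.four 11 10 16 27), .ne 12 25 (.four 12 13 14
  15), .ne 12 27 (.four 12 11 10 16), .ne 13 17 (.four 13 10 11 12), .ne 13 18 (.four 13 12 11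
  19), .ne 13 26 (.four 13 14 15 25), .ne 13 27 (.four 13 14 15 16), .ne 14 17 (.four 14 10 16
  15), .ne 14 19 (.four 14 11 12 13), .ne 14 20 (.four 14 13 12 21), .ne 15 18 (.four 15 16 10
  17), .ne 15 19 (.four 15 11 10 16), .ne 15 21 (.four 15 12 13 14), .ne 16 20 (.four 16 10 11
  19), .ne 16 21 (.four 16 10 11 12), .ne 16 22 (.four 16 13 14 15), .ne 16 23 (.four 16 15 14
  24), .ne 17 21 (.four 17 10 11 12), .ne 17 25 (.four 17 10 16 15), .ne 17 26 (.four 17 10 16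
  27), .ne 18 27 (.four 18 16 10 17), .ne 19 22 (.four 19 11 12 13), .ne 19 27 (.four 19 11 10
  16), .ne 20 22 (.four 20 13 12 21), .ne 21 23 (.four 21 12 13 22), .ne 21 24 (.four 21 12 13
  14), .ne 22 25 (.four 22 13 14 15), .ne 23 25 (.four 23 15 14 24), .ne 24 26 (.four 24 14 15
  25), .ne 24 27 (.four 24 14 15 16), .ne 0 2 (.five 0 17 18 19 20), .ne 0 9 (.five 10 16 27 0
  17), .ne 0 13 (.seven [0, 17, 10, 11, 12]), .ne 0 14 (.seven [0, 17, 10, 16, 15]), .ne 0 21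
  (.five 0 17 18 19 20), .ne 0 25 (.seven [0, 17, 10, 16, 15]), .ne 0 26 (.five 10 16 27 0 17),
  .ne 1 3 (.seven [1, 18, 19, 11, 12, 21]), .ne 1 13 (.seven [1, 18, 19, 11, 12]), .ne 1 15
  (.seven [1, 16, 10, 17, 18]), .ne 1 27 (.seven [1, 16, 10, 17, 18]), .ne 2 14 (.five 2 20 21 12
  13), .ne 2 16 (.seven [2, 10, 11, 19, 20]), .ne 2 22 (.five 13 12 21 20 2), .ne 3 4 (.five 21 12
  13 22 3), .ne 3 15 (.five 21 12 13 14 3), .ne 3 16 (.seven [3, 10, 11, 12, 21]), .ne 3 17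
  (.seven [3, 10, 11, 12, 21]), .ne 3 23 (.five 21 12 13 22 3), .ne 3 24 (.five 21 12 13 14 3),
  .ne 4 10 (.seven [4, 11, 12, 13, 22]), .ne 4 16 (.seven [4, 22, 13, 14, 15]), .ne 4 19 (.seven
  [4, 11, 12, 13, 22]), .ne 4 20 (.five 21 12 13 22 4), .ne 4 25 (.seven [4, 22, 13, 14, 15]), .ne
  5 11 (.seven [5, 12, 13, 22, 23]), .ne 5 16 (.five 24 14 15 5 23), .ne 5 21 (.seven [5, 12, 13,
  22, 23]), .ne 5 25 (.five 15 14 24 23 5), .ne 6 7 (.five 24 14 15 25 6), .ne 6 10 (.five 24 14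
  15 16 6), .ne 6 11 (.seven [6, 24, 14, 13, 12]), .ne 6 21 (.seven [6, 24, 14, 13, 12]), .ne 6 26
  (.five 24 14 15 25 6), .ne 6 27 (.five 24 14 15 16 6), .ne 7 11 (.seven [7, 25, 15, 16, 10]),
  .ne 7 12 (.seven [7, 25, 15, 14, 13]), .ne 7 17 (.seven [7, 25, 15, 16, 10]), .ne 7 22 (.seven
  [7, 25, 15, 14, 13]), .ne 7 23 (.five 24 14 15 25 7), .ne 8 11 (.five 27 16 10 8 26), .ne 8 13
  (.seven [8, 26, 25, 15, 14]), .ne 8 17 (.five 10 16 27 26 8), .ne 8 24 (.seven [8, 26, 27, 16,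
  15, 14]), .ne 9 12 (.five 27 16 10 11 9), .ne 9 13 (.seven [9, 27, 16, 15, 14]), .ne 9 18 (.five
  27 16 10 17 9), .ne 9 19 (.five 27 16 10 11 9), .ne 9 24 (.seven [9, 27, 16, 15, 14]), .ne 10 23
  (.five 15 14 24 10 16), .ne 12 26 (.five 10 16 27 12 11), .ne 14 18 (.seven [14, 13, 12, 11,
  19]), .ne 15 20 (.five 13 12 21 15 14), .ne 17 22 (.seven [17, 10, 11, 12, 13]), .ne 17 24
  (.seven [17, 10, 16, 15, 14]), .ne 18 22 (.seven [18, 13, 12, 11, 19]), .ne 18 25 (.seven [18,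
  15, 16, 10, 17]), .ne 18 26 (.five 10 16 27 18 17), .ne 19 23 (.seven [19, 11, 12, 13, 22]), .ne
  19 24 (.seven [19, 11, 12, 13, 14]), .ne 19 25 (.seven [19, 11, 10, 16, 15]), .ne 19 26 (.five
  10 16 27 19 11), .ne 20 23 (.five 21 12 13 22 20), .ne 20 24 (.five 13 12 21 20 14), .ne 20 27
  (.seven [20, 16, 10, 11, 19]), .ne 21 25 (.five 21 12 13 14 15), .ne 21 27 (.seven [21, 12, 11,
  10, 16]), .ne 22 26 (.seven [22, 13, 14, 15, 25]), .ne 22 27 (.seven [22, 13, 14, 15, 16]), .ne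
  23 26 (.five 24 14 15 25 23), .ne 23 27 (.five 15 14 24 23 16), .ne 0 3 (.seven [0, 17, 18, 19,
  20, 21]), .ne 0 7 (.seven [0, 17, 10, 16, 15, 25]), .ne 0 8 (.seven [0, 17, 10, 16, 27, 26]),
  .ne 0 22 (.seven [0, 17, 10, 11, 12, 13]), .ne 0 24 (.seven [0, 17, 10, 16, 15, 14]), .ne 1 9
  (.seven [1, 18, 17, 10, 16, 27]), .ne 1 14 (.seven [1, 18, 17, 10, 16, 15]), .ne 1 22 (.seven
  [1, 18, 19, 11, 12, 13]), .ne 1 25 (.seven [1, 18, 17, 10, 16, 15]), .ne 1 26 (.seven [1, 18,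
  17, 10, 16, 27]), .ne 2 4 (.seven [2, 20, 21, 12, 13, 22]), .ne 2 15 (.seven [2, 16, 10, 11, 19,
  20]), .ne 2 23 (.seven [2, 20, 21, 12, 13, 22]), .ne 2 24 (.seven [2, 20, 21, 12, 13, 14]), .ne
  2 27 (.seven [2, 16, 10, 11, 19, 20]), .ne 3 5 (.seven [3, 21, 12, 13, 22, 23]), .ne 3 6 (.seven
  [3, 24, 14, 13, 12, 21]), .ne 3 25 (.seven [3, 15, 14, 13, 12, 21]), .ne 3 27 (.seven [3, 16,
  10, 11, 12, 21]), .ne 4 7 (.seven [4, 25, 15, 14, 13, 22]), .ne 4 17 (.seven [4, 10, 11, 12, 13,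
  22]), .ne 4 18 (.seven [4, 19, 11, 12, 13, 22]), .ne 4 26 (.seven [4, 25, 15, 14, 13, 22]), .ne
  4 27 (.seven [4, 16, 15, 14, 13, 22]), .ne 5 7 (.seven [5, 25, 15, 14, 24, 23]), .ne 5 10
  (.seven [5, 16, 15, 14, 24, 23]), .ne 5 19 (.seven [5, 11, 12, 13, 22, 23]), .ne 5 20 (.seven
  [5, 21, 12, 13, 22, 23]), .ne 5 26 (.seven [5, 25, 15, 14, 24, 23]), .ne 5 27 (.seven [5, 16,
  15, 14, 24, 23]), .ne 6 8 (.seven [6, 24, 14, 15, 16, 27, 26]), .ne 6 9 (.seven [6, 24, 14, 15,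
  16, 27]), .ne 6 17 (.seven [6, 24, 14, 15, 16, 10]), .ne 6 19 (.seven [6, 24, 14, 13, 12, 11]),
  .ne 6 20 (.seven [6, 24, 14, 13, 12, 21]), .ne 7 18 (.seven [7, 17, 10, 16, 15, 25]), .ne 7 19
  (.seven [7, 25, 15, 16, 10, 11]), .ne 7 21 (.seven [7, 25, 15, 14, 13, 12]), .ne 8 12 (.seven
  [8, 13, 14, 15, 25, 26]), .ne 8 18 (.seven [8, 17, 10, 16, 27, 26]), .ne 8 19 (.seven [8, 26,
  27, 16, 10, 11]), .ne 8 22 (.seven [8, 26, 25, 15, 14, 13]), .ne 8 23 (.seven [8, 24, 14, 15,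
  25, 26]), .ne 9 20 (.seven [9, 27, 16, 10, 11, 19]), .ne 9 21 (.seven [9, 27, 16, 10, 11, 12]),
  .ne 9 22 (.seven [9, 27, 16, 15, 14, 13]), .ne 9 23 (.seven [9, 24, 14, 15, 16, 27]), .ne 17 23
  (.seven [17, 10, 16, 15, 14, 24]), .ne 18 23 (.seven [18, 19, 11, 12, 13, 22]), .ne 18 24
  (.seven [18, 14, 13, 12, 11, 19]), .ne 20 25 (.seven [20, 15, 16, 10, 11, 19]), .ne 20 26
  (.seven [20, 19, 11, 10, 16, 27]), .ne 21 26 (.seven [21, 12, 11, 10, 16, 27]), .ne 0 4 (.seven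
  [0, 17, 10, 11, 12, 13, 22]), .ne 0 6 (.seven [0, 24, 14, 15, 16, 10, 17]), .ne 0 23 (.seven [0,
  24, 14, 15, 16, 10, 17]), .ne 1 4 (.seven [1, 18, 19, 11, 12, 13, 22]), .ne 1 7 (.seven [1, 25,
  15, 16, 10, 17, 18]), .ne 1 8 (.seven [1, 18, 17, 10, 16, 27, 26]), .ne 1 23 (.seven [1, 18, 19,
  11, 12, 13, 22]), .ne 1 24 (.seven [1, 18, 17, 10, 16, 15, 14]), .ne 2 5 (.seven [2, 20, 21, 12,
  13, 22, 23]), .ne 2 6 (.seven [2, 24, 14, 13, 12, 21, 20]), .ne 2 9 (.seven [2, 27, 16, 10, 11,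
  19, 20]), .ne 2 25 (.seven [2, 20, 19, 11, 10, 16, 15]), .ne 2 26 (.seven [2, 27, 16, 10, 11,
  19, 20]), .ne 3 7 (.seven [3, 25, 15, 14, 13, 12, 21]), .ne 3 9 (.seven [3, 27, 16, 10, 11, 12,
  21]), .ne 3 26 (.seven [3, 25, 15, 14, 13, 12, 21]), .ne 4 8 (.seven [4, 26, 25, 15, 14, 13,
  22]), .ne 4 9 (.seven [4, 27, 16, 15, 14, 13, 22]), .ne 5 8 (.seven [5, 26, 25, 15, 14, 24,
  23]), .ne 5 9 (.seven [5, 27, 16, 15, 14, 24, 23]), .ne 5 17 (.seven [5, 10, 16, 15, 14, 24,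
  23]), .ne 5 18 (.seven [5, 19, 11, 12, 13, 22, 23]), .ne 6 18 (.seven [6, 24, 14, 13, 12, 11,
  19]), .ne 7 20 (.seven [7, 25, 15, 16, 10, 11, 19]), .ne 8 20 (.seven [8, 19, 11, 10, 16, 27,
  26]), .ne 8 21 (.seven [8, 26, 25, 15, 14, 13, 12]), .cn 0 1 (.five 0 17 18 1 28), .cn 2 3
  (.five 2 20 21 3 28), .cn 4 6 (.seven [28, 4, 22, 23, 24, 6]), .cn 7 9 (.seven [28, 9, 27, 26,
  25, 7])]

theorem fin_P2nT : finT (P2 (4, 6) (7, 9)) [] coP2n comP2T [] [] [] [(1, 6), (2, 7)] [] tP2 cfP2T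
    tsP2T = true := by
  decide +kernel

/-- Certificates of the case l. -/
def xsP2l : List StepT :=
  [.ne 2 7 (.cross [2, 25, 15, 16, 10, 11, 19, 20] 5 1 [18, 1, 24, 14]), .na 0 4 (.cross [0, 17,
  18, 1, 24, 23, 22, 4] 3 0 [14, 15, 16, 10])]

theorem fin_P2lT : finT (P2 (4, 6) (7, 9)) [] coP2l comP2T [(0, 4)] [(1, 6)] [] [] [] tP2 cfP2T
    (tsP2T ++ xsP2l) = true := by
  decide +kernel

/-- Certificates of the case r. -/
def xsP2r : List StepT :=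
  [.ne 1 6 (.cross [1, 24, 14, 13, 12, 11, 19, 18] 1 5 [15, 25, 2, 20]), .na 3 9 (.cross [3, 9,
  27, 16, 10, 11, 12, 21] 6 1 [20, 2, 25, 26])]

theorem fin_P2rT : finT (P2 (4, 6) (7, 9)) [] coP2r comP2T [(3, 9)] [(2, 7)] [] [] [] tP2 cfP2T
    (tsP2T ++ xsP2r) = true := by
  decide +kernel

set_option synthInstance.maxSize 200000 in
theorem data_P2n : Data (P2 (4, 6) (7, 9)) [] psP2 [] coP2n comP2T [] := by
  constructor <;> decide +kernel

theorem psOk_P2n : PsOk (P2 (4, 6) (7, 9)) [] psP2 coP2n := by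
  constructor <;> decide +kernel

set_option synthInstance.maxSize 200000 in
theorem data_P2l : Data (P2 (4, 6) (7, 9)) [] psP2 [] coP2l comP2T [(0, 4)] := by
  constructor <;> decide +kernel

theorem psOk_P2l : PsOk (P2 (4, 6) (7, 9)) [] psP2 coP2l := by
  constructor <;> decide +kernel

set_option synthInstance.maxSize 200000 in
theorem data_P2r : Data (P2 (4, 6) (7, 9)) [] psP2 [] coP2r comP2T [(3, 9)] := by
  constructor <;> decide +kernel

theorem psOk_P2r : PsOk (P2 (4, 6) (7, 9)) [] psP2 coP2r := by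
  constructor <;> decide +kernel

theorem rch_P2 : ((List.range 28).all fun j => (rchN tP2 28 10 8).elem j || [].elem j) = true := by
  decide +kernel

theorem chk_P2 : chk (P2 (4, 6) (7, 9)).ed (inner (P2 (4, 6) (7, 9))) tP2 = true := by
  decide +kernel

variable {V : Type} [Fintype V] [DecidableEq V] {G : SimpleGraph V} [DecidableRel G.Adj]
  {R : Rot G} {d : G.Dart} {S : V → Prop}

/-- The labels of P2 are far from the faces of length four. -/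
theorem n4_P2 (h : Good R d 7) (g0 : Good R (ac R d 0) 5) (g1 : Good R (ac R d 1) 5)
    (g3 : Good R (ac R d 3) 5) (g5 : Good R (ac R d 5) 5) {m : ℕ} (hN : N4 R (m + 8) d.fst) :
    ∀ k, k < 28 → N4 R m (fP2 R d k) :=
  n4_tab (tabP2 h g0 g1 g3 g5) (b := 10) (al := []) (fun _ hj => absurd hj List.not_mem_nil)
    rch_P2 hN

/-- The corners of P2. -/
theorem no5_P2T (hG : ClsT R S) (hS : ∀ k, k < 28 → S (fP2 R d k)) (h : IsP2 R d) :
    No5 G cfP2T (fP2 R d) := by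
  have h7 : Good R d 7 := ⟨h.s, fun _ => hG.cub _⟩
  have g1 : Good R (ac R d 1) 5 := ⟨h.s1, fun _ => hG.cub _⟩
  have e1 : X R (ac R d 1) 4 = Y R d 2 := h7.ac_last 1 g1 (by norm_num)
  have e7 : X R d 7 = X R d 0 := by
    have := h7.pow_add 0
    unfold X
    rw [← this]
  intro e he x y
  simp only [cfP2T, List.mem_cons, List.not_mem_nil, or_false] at he
  rcases he with rfl | rfl | rfl | rfl | rfl
  · exact hG.no5a d 2 (hS 13 (by norm_num)) h.n2 x y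
  · exact hG.no5a d 4 (hS 15 (by norm_num)) h.n4 x y
  · have := hG.no5a d 6 (by rw [e7]; exact hS 10 (by norm_num)) h.n6 x y
    rwa [e7] at this
  · have := hG.no5a (ac R d 0) 2 (hS 18 (by norm_num)) h.n02 x y
    rwa [ac_X2] at this
  · have := hG.no5a (ac R d 1) 3 (by rw [e1]; exact hS 21 (by norm_num)) h.n13 x y
    rwa [e1] at this

/-- **The patch P2, case n.** -/
theorem patch_P2nT (hG : ClsT R S) (hS : ∀ k, k < 28 → S (fP2 R d k)) (h : IsP2 R d)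
    (h1 : fP2 R d 1 ≠ fP2 R d 6) (h2 : fP2 R d 2 ≠ fP2 R d 7) :
    Patch G (P2 (4, 6) (7, 9)) [] coP2n comP2T [] (fP2 R d) := by
  have h7 : Good R d 7 := ⟨h.s, fun _ => hG.cub _⟩
  have g0 : Good R (ac R d 0) 5 := ⟨h.s0, fun _ => hG.cub _⟩
  have g1 : Good R (ac R d 1) 5 := ⟨h.s1, fun _ => hG.cub _⟩
  have g3 : Good R (ac R d 3) 5 := ⟨h.s3, fun _ => hG.cub _⟩
  have g5 : Good R (ac R d 5) 5 := ⟨h.s5, fun _ => hG.cub _⟩
  refine patch_ofT hG (tabP2 h7 g0 g1 g3 g5) (rotP2 h7 g0 g1 g3 g5) chk_P2 hS (no5_P2T hG hS h)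
    (fun e he => absurd he List.not_mem_nil) (fun e he => absurd he List.not_mem_nil) ?_
    (fun e he => absurd he List.not_mem_nil) fin_P2nT
  intro e he
  simp only [List.mem_cons, List.not_mem_nil, or_false] at he
  rcases he with rfl | rfl
  · exact h1
  · exact h2

/-- **The patch P2, case l.** -/
theorem patch_P2lT (hG : ClsT R S) (hS : ∀ k, k < 28 → S (fP2 R d k)) (h : IsP2 R d)
    (h1 : fP2 R d 1 = fP2 R d 6) :
    Patch G (P2 (4, 6) (7, 9)) [] coP2l comP2T [(0, 4)] (fP2 R d) := by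
  have h7 : Good R d 7 := ⟨h.s, fun _ => hG.cub _⟩
  have g0 : Good R (ac R d 0) 5 := ⟨h.s0, fun _ => hG.cub _⟩
  have g1 : Good R (ac R d 1) 5 := ⟨h.s1, fun _ => hG.cub _⟩
  have g3 : Good R (ac R d 3) 5 := ⟨h.s3, fun _ => hG.cub _⟩
  have g5 : Good R (ac R d 5) 5 := ⟨h.s5, fun _ => hG.cub _⟩
  refine patch_ofT hG (tabP2 h7 g0 g1 g3 g5) (rotP2 h7 g0 g1 g3 g5) chk_P2 hS (no5_P2T hG hS h)
    ?_ (fun e he => absurd he List.not_mem_nil) (fun e he => absurd he List.not_mem_nil)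
    (fun e he => absurd he List.not_mem_nil) fin_P2lT
  intro e he
  simp only [List.mem_cons, List.not_mem_nil, or_false] at he
  subst he
  exact h1

/-- **The patch P2, case r.** -/
theorem patch_P2rT (hG : ClsT R S) (hS : ∀ k, k < 28 → S (fP2 R d k)) (h : IsP2 R d)
    (h1 : fP2 R d 2 = fP2 R d 7) :
    Patch G (P2 (4, 6) (7, 9)) [] coP2r comP2T [(3, 9)] (fP2 R d) := by
  have h7 : Good R d 7 := ⟨h.s, fun _ => hG.cub _⟩
  have g0 : Good R (ac R d 0) 5 := ⟨h.s0, fun _ => hG.cub _⟩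
  have g1 : Good R (ac R d 1) 5 := ⟨h.s1, fun _ => hG.cub _⟩
  have g3 : Good R (ac R d 3) 5 := ⟨h.s3, fun _ => hG.cub _⟩
  have g5 : Good R (ac R d 5) 5 := ⟨h.s5, fun _ => hG.cub _⟩
  refine patch_ofT hG (tabP2 h7 g0 g1 g3 g5) (rotP2 h7 g0 g1 g3 g5) chk_P2 hS (no5_P2T hG hS h)
    ?_ (fun e he => absurd he List.not_mem_nil) (fun e he => absurd he List.not_mem_nil)
    (fun e he => absurd he List.not_mem_nil) fin_P2rT
  intro e he
  simp only [List.mem_cons, List.not_mem_nil, or_false] at he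
  subst he
  exact h1

/-- **The place P2 in stage C.** -/
theorem good_P2T (en : (P2 (4, 6) (7, 9)).Ext coP2n) (el : (P2 (4, 6) (7, 9)).Ext coP2l)
    (er : (P2 (4, 6) (7, 9)).Ext coP2r) (hG : ClsT R S) (hS : ∀ k, k < 28 → S (fP2 R d k))
    (h : IsP2 R d) : ∃ s ∈ [sP2n, sP2l, sP2r], Uni91.Good (s.pl (fP2 R d)) G := by
  by_cases h1 : fP2 R d 1 = fP2 R d 6
  · exact ⟨sP2l, by simp, good_of el data_P2l psOk_P2l (patch_P2lT hG hS h h1)⟩
  · by_cases h2 : fP2 R d 2 = fP2 R d 7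
    · exact ⟨sP2r, by simp, good_of er data_P2r psOk_P2r (patch_P2rT hG hS h h2)⟩
    · exact ⟨sP2n, by simp, good_of en data_P2n psOk_P2n (patch_P2nT hG hS h h1 h2)⟩

/-- The root is a vertex of the place. -/
theorem mem_P2T {s : Shape} (hs : s ∈ [sP2n, sP2l, sP2r]) (R : Rot G) (d : G.Dart) :
    d.fst ∈ (s.pl (fP2 R d)).Vert := by
  simp only [List.mem_cons, List.not_mem_nil, or_false] at hs
  rcases hs with rfl | rfl | rfl
  · exact ⟨10, (⟨by decide, by decide, by decide⟩ : Real (P2 (4, 6) (7, 9)) [] [] 10), rfl⟩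
  · exact ⟨10, (⟨by decide, by decide, by decide⟩ : Real (P2 (4, 6) (7, 9)) [] [] 10), rfl⟩
  · exact ⟨10, (⟨by decide, by decide, by decide⟩ : Real (P2 (4, 6) (7, 9)) [] [] 10), rfl⟩

end Pool.Agent.U2Geo
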