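import Mathlib
import Pool.Agent.Work.MP_392c8e_co_unl.BaseStarA

/-!
# A bound for the constant
-/

set_option autoImplicit false

namespace Pool.Agent.BCore

open Pool.Agent.Uni392

theorem four_pow_le (m : ℕ) : (4 : ℕ) ^ (83 * m) ≤ 10 ^ (50 * m) := by
  rw [pow_mul, pow_mul]
  exact Nat.pow_le_pow_left (by norm_num) m

theorem le_four_pow {a b k m : ℕ} (ha : a ≤ 4 ^ k) (hb : b ≤ 4 ^ m) : a * b ≤ 4 ^ (k + m) := by
  rw [pow_add]
  exact Nat.mul_le_mul ha hb

theorem add_four_pow {a b k : ℕ} (ha : a ≤ 4 ^ k) (hb : b ≤ 4 ^ k) : a + b ≤ 4 ^ (k + 1) := by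
  rw [pow_succ]
  omega

theorem four_mono {a k m : ℕ} (ha : a ≤ 4 ^ k) (hkm : k ≤ m) : a ≤ 4 ^ m :=
  ha.trans (Nat.pow_le_pow_right (by norm_num) hkm)

/-- The size of the constant. -/
theorem nbase_le {ρ D N : ℕ} (hD : DBs ρ 20020 1 ≤ D) (hN : D1Bs ρ 20020 1 ≤ N) :
    NBase 7 15 ρ 20020 1 ≤ 4 ^ (D + N + 60) := by
  have e1 : NBs ρ 20020 1 ≤ 4 ^ (N + 6) := by
    unfold NBs
    refine add_four_pow (k := N + 5) ?_ ?_
    · exact le_four_pow (Nat.pow_le_pow_right (by norm_num) hN) (by norm_num)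
    · refine (le_four_pow (k := ρ) (m := 3) le_rfl (by norm_num)).trans
        (Nat.pow_le_pow_right (by norm_num) ?_)
      unfold D1Bs at hN
      omega
  have e2 : NBs ρ 20020 1 + 1 ≤ 4 ^ (N + 7) :=
    add_four_pow e1 (Nat.one_le_pow _ _ (by norm_num))
  have e3 : CBs 7 15 ρ 20020 1 ≤ 4 ^ (D + N + 24) := by
    unfold CBs
    refine add_four_pow (k := D + N + 23) ?_ ?_
    · have h1 : (3000 * (7 + 15 + 9) + 3) * 4 ^ (DBs ρ 20020 1 + 6) ≤ 4 ^ (9 + (D + 6)) :=
        le_four_pow (by norm_num) (Nat.pow_le_pow_right (by norm_num) (by omega))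
      exact four_mono (le_four_pow h1 e2) (by omega)
    · exact four_mono (k := 9) (by norm_num) (by omega)
  have e4 : 3000000 * CBs 7 15 ρ 20020 1 + 1 ≤ 4 ^ (D + N + 37) := by
    refine add_four_pow (k := D + N + 36) ?_ (Nat.one_le_pow _ _ (by norm_num))
    exact four_mono (le_four_pow (k := 11) (by norm_num) e3) (by omega)
  have e5 : 300 * (3000000 * CBs 7 15 ρ 20020 1 + 1) + 1 ≤ 4 ^ (D + N + 44) := by
    refine add_four_pow (k := D + N + 43) ?_ (Nat.one_le_pow _ _ (by norm_num))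
    exact four_mono (le_four_pow (k := 5) (by norm_num) e4) (by omega)
  unfold NBase
  exact four_mono (le_four_pow (k := 5) (by norm_num) e5) (by omega)

/-- **The constant is less than `10 ^ 90000`.** -/
theorem nstar_le {r : ℕ} (hr : r ≤ 100) : NStar 20020 (r + 1) + 8 ≤ 10 ^ 90000 := by
  have h1 : NStar 20020 (r + 1) ≤ 4 ^ (102000 + 41000 + 60) := by
    unfold NStar
    refine nbase_le ?_ ?_
    · unfold DBs D1Bs
      omega
    · unfold D1Bs
      omega
  have h2 : NStar 20020 (r + 1) + 8 ≤ 4 ^ (143060 + 1) :=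
    add_four_pow h1 (le_trans (show 8 ≤ 4 ^ 2 by norm_num)
      (Nat.pow_le_pow_right (by norm_num) (by norm_num)))
  refine h2.trans ((Nat.pow_le_pow_right (by norm_num) (show 143060 + 1 ≤ 83 * 1800 by
    norm_num)).trans ((four_pow_le 1800).trans ?_))
  exact Nat.pow_le_pow_right (by norm_num) (by norm_num)

end Pool.Agent.BCore
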