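import Mathlib
import Pool.Agent.Work.MP_392c8e_co_unl.BaseStar

/-!
# The small cuts of a graph of the base class
-/

set_option autoImplicit false
set_option linter.unusedSectionVars false

namespace Pool.Agent.BCore

open Finset Pool.Agent.Red Pool.Agent.Sub392 Pool.Agent.T392 Pool.Agent.Uni392 Pool.Agent.U2Geo
open Pool.Agent.Poles
open Pool.Agent.CutN (BaseG BaseR Th3 EX Deg2In Thick)

variable {W : Type} [Fintype W] [DecidableEq W] {L : SimpleGraph W} [DecidableRel L.Adj]

/-- A set with at most two vertices and two vertices of degree three has four leaving edges. -/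
theorem four_out {S : Finset W} (hS : #S ≤ 2) (h3 : 2 ≤ #(S.filter fun v => L.degree v = 3)) :
    4 ≤ out L S := by
  obtain ⟨a, ha, b, hb, hab⟩ := one_lt_card.1 (show 1 < #(S.filter fun v => L.degree v = 3) by
    omega)
  rw [mem_filter] at ha hb
  have key : ∀ z ∈ S, L.degree z = 3 → 2 ≤ #((outp L S).filter fun p => p.1 = z) := by
    intro z hz hd
    have h1 := star_out (G := L) hz
    have h2 : #((S.erase z).filter fun w => L.Adj z w) ≤ 1 := by
      refine (card_filter_le _ _).trans ?_
      rw [card_erase_of_mem hz]
      omega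
    omega
  have h4 := key a ha.1 ha.2
  have h5 := key b hb.1 hb.2
  have h6 : Disjoint ((outp L S).filter fun p => p.1 = a) ((outp L S).filter fun p => p.1 = b) := by
    rw [disjoint_left]
    intro p hp hp'
    exact hab ((mem_filter.1 hp).2.symm.trans (mem_filter.1 hp').2)
  have h7 := card_le_card (union_subset (filter_subset (fun p : W × W => p.1 = a) (outp L S))
    (filter_subset (fun p : W × W => p.1 = b) (outp L S)))
  rw [card_union_of_disjoint h6, card_outp] at h7
  omega

theorem thick_of {A : Finset W} (h : 2 ≤ #(A.filter fun v => L.degree v = 3)) :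
    Thick L (A : Set W) := by
  unfold Thick
  refine h.trans (le_of_eq ?_)
  rw [← Set.ncard_coe_finset]
  congr 1
  ext v
  rw [Finset.mem_coe, mem_filter, Set.mem_ofPred_eq, Finset.mem_coe, ncard_nb]

/-- **The small cuts.** -/
theorem nearOut (r : ℕ) : NearOut r := by
  intro W _ _ L _ x h A hA h1 h2 u hu v hv huv
  have h3 : 3 ≤ out L A := by
    by_contra hcon
    have h4 : (leave L (A : Set W)).ncard ≤ 2 := by
      rw [Poles.ncard_leave]
      omega
    rcases h.cut2 _ h4 with h5 | h5
    · rw [Set.ncard_coe_finset] at h5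
      have := four_out h5 h1
      omega
    · rw [← Finset.coe_compl, Set.ncard_coe_finset] at h5
      have h6 := four_out h5 h2
      rw [out_compl] at h6
      omega
  have h4 : (leave L (A : Set W)).ncard = 3 := by
    rw [Poles.ncard_leave]
    omega
  have h4' : (leave L ((Aᶜ : Finset W) : Set W)).ncard = 3 := by
    rw [Poles.ncard_leave, out_compl]
    omega
  by_cases hx : x ∈ A
  · have h5 : Th3 L ((Aᶜ : Finset W) : Set W) := ⟨h4', thick_of h2, by
      rw [← Finset.coe_compl, compl_compl]
      exact thick_of h1⟩
    obtain ⟨m, hm, p, hp, -⟩ := h.near _ (by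
      rw [Finset.mem_coe, mem_compl]
      exact fun h => h hx) h5 v (by
      rw [Finset.mem_coe, mem_compl]
      exact hv) ⟨u, by
        rw [Finset.mem_coe, mem_compl]
        exact fun h => h hu, huv.symm⟩
    exact ⟨m, by rw [← ncard_nb]; exact hm, SimpleGraph.Walk.cons huv p, by
      rw [SimpleGraph.Walk.length_cons]
      omega⟩
  · have h5 : Th3 L (A : Set W) := ⟨h4, thick_of h1, by
      rw [← Finset.coe_compl]
      exact thick_of h2⟩
    obtain ⟨m, hm, p, hp, -⟩ := h.near _ (by
      rw [Finset.mem_coe]
      exact hx) h5 u (by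
      rw [Finset.mem_coe]
      exact hu) ⟨v, by
        rw [Finset.mem_coe]
        exact hv, huv⟩
    exact ⟨m, by rw [← ncard_nb]; exact hm, p, by omega⟩

/-- **One level for the base class**, from the table of places only. -/
theorem exists_baseLevel {rr : ℕ} (hTab : TabH rr) (r : ℕ) :
    ∃ n : ℤ, 2 ≤ n ∧ CutN.BaseLevel r n :=
  ⟨_, by push_cast; omega, baseLevel hTab (nearOut r)⟩

end Pool.Agent.BCore
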