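import Mathlib
import Pool.Agent.Work.MP_392c8e_co_unl.NStarLe
import Pool.Agent.Work.MP_392c8e_co_unl.NearOutH

/-!
# The level `10 ^ 100000`
-/

set_option autoImplicit false

namespace Pool.Agent.BCore

/-- **The base level is small compared with `10 ^ 100000`.** -/
theorem nstar_int {r : ℕ} (hr : r ≤ 100) :
    (1000000 : ℤ) * ((NStar 20020 (r + 1) + 8 : ℕ) : ℤ) + 1000000 ≤ ((10 ^ 100000 : ℕ) : ℤ) := by
  have h1 := nstar_le hr
  generalize NStar 20020 (r + 1) + 8 = n at h1 ⊢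
  have h2 : 1000000 * n + 1000000 ≤ 10 ^ 100000 := by
    have h3 : (10 : ℕ) ^ 90000 * 10 ^ 7 ≤ 10 ^ 100000 := by
      rw [← pow_add]
      exact Nat.pow_le_pow_right (by norm_num) (by norm_num)
    refine le_trans ?_ h3
    have h4 : 1 ≤ (10 : ℕ) ^ 90000 := Nat.one_le_pow _ _ (by norm_num)
    generalize (10 : ℕ) ^ 90000 = t at h1 h4 ⊢
    omega
  exact_mod_cast h2

/-- **A small base level.** -/
theorem baseLevel_explicit (hTab : TabH 20020) {r : ℕ} (hr : r ≤ 100) :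
    ∃ n : ℤ, 2 ≤ n ∧ 1000000 * n + 1000000 ≤ ((10 ^ 100000 : ℕ) : ℤ) ∧ CutN.BaseLevel r n :=
  ⟨((NStar 20020 (r + 1) + 8 : ℕ) : ℤ), by
    rw [Nat.cast_add]
    have : (0 : ℤ) ≤ (NStar 20020 (r + 1) : ℕ) := Int.natCast_nonneg _
    omega, nstar_int hr, baseLevel hTab (nearOut r)⟩

end Pool.Agent.BCore
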