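import Mathlib
import Pool.Agent.Work.MP_392c8e_co_unl.RingAnn

/-!
# The local hypothesis on small cuts at a place of a shape
-/

namespace Pool.Agent.RingTwo

open Finset Pool.Agent.Sub392 Pool.Agent.T392 Pool.Agent.Disch392 Pool.Agent.Uni392
  Pool.Agent.U2Geo
open Pool.Agent.Uni91 (Good)
open Pool.Agent.T1Red (Int)

variable {V : Type} [Fintype V] [DecidableEq V] {G : SimpleGraph V} [DecidableRel G.Adj]
  {R : Rot G}

/-- Cuts with at most three edges at a place are trivial. -/
theorem cut3_loc (hR : C4 R) {v : V} (hN : N4 R 60 v) {s : Shape} {f : ℕ → V}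
    (hs : shOK s = true) (hg : Good (s.pl f) G) (hv : v ∈ (s.pl f).Vert) :
    Cut3 R (Int (s.pl f).R (s.pl f).f) := cut3_of hR hN hs hg hv

end Pool.Agent.RingTwo
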