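import Pool.Agent.Work.MP_392c8e_co_unl.TabCX
import Pool.Agent.Work.MP_392c8e_co_unl.BaseStarA

/-!
# The table of places, local form, with all facts
-/

set_option autoImplicit false

namespace Pool.Agent.BCore

open Finset Pool.Agent.Sub392 Pool.Agent.T392 Pool.Agent.U2Geo Pool.Agent.Disch392
open Pool.Agent.DischB Pool.Agent.Uni392

/-- **The table.** -/
theorem tabH : TabH 20020 := fun _ _ _ _ _ _ hC =>
  ⟨tabCX hC 1000 (by norm_num) (by norm_num), tabCX_mir hC 1000 (by norm_num) (by norm_num)⟩

end Pool.Agent.BCore
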