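import Mathlib
import Pool.Agent.Work.MP_392c8e_co_unl.TabCX
import Pool.Agent.Work.MP_392c8e_co_unl.NStarInt
import Pool.Agent.Work.MP_392c8e_co_uni.UniBase
import Pool.Agent.Work.MP_392c8e_co_draw.Draw

/-!
# One level for all triangle-free planar graphs with maximum degree three
-/

set_option autoImplicit false
set_option linter.unusedSectionVars false

namespace Pool.Agent.WholeX

open Pool.Agent.Red Pool.Agent.U2Geo Pool.Agent.CutN
open Pool.Agent.Uni392 (StrictN)
open Pool.Agent.T1Red (deg3_iff)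

theorem tabH : BCore.TabH 20020 := fun _ _ _ _ _ _ hR =>
  ⟨tabCX hR 1000 (by norm_num) (by norm_num), tabCX_mir hR 1000 (by norm_num) (by norm_num)⟩

/-- **One level for the whole class.** -/
theorem strictN_whole (N : ℕ) (hN : 10 ^ 100000 = N) {V : Type} [Fintype V] [DecidableEq V]
    {G : SimpleGraph V} (h1 : Pl G) (h2 : G.CliqueFree 3)
    (h3 : ∀ v, (G.neighborSet v).ncard ≤ 3) : StrictN G N := by
  obtain ⟨n, h4, h5, h6⟩ := BCore.baseLevel_explicit tabH (r := 40) (by norm_num)
  rw [hN] at h5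
  clear hN
  have h7 : 1000 * n + 1000 ≤ (N : ℤ) := by linarith
  have h8 : 0 < N := by
    have : (0 : ℤ) < N := by linarith
    exact_mod_cast this
  exact strictN_of_colN h8 (uni_of_base le_rfl (by linarith) h7 h6 h1 h2 h3)

/-- **The final statement of the whole class.** -/
theorem whole (N : ℕ) (hN : 10 ^ 100000 = N) (V : Type) [Fintype V] (G : SimpleGraph V)
    (hfree : G.CliqueFree 3) (hdeg : ∀ v, (G.neighborSet v).ncard ≤ 3)
    (hplanar : ∃ (p : V → ℝ × ℝ) (γ : V → V → unitInterval → ℝ × ℝ),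
      Function.Injective p ∧
      (∀ u v, G.Adj u v →
        Continuous (γ u v) ∧ Function.Injective (γ u v) ∧
        γ u v 0 = p u ∧ γ u v 1 = p v ∧
        ∀ (t : unitInterval) (w : V), γ u v t = p w → w = u ∨ w = v) ∧
      (∀ u v x y, G.Adj u v → G.Adj x y → s(u, v) ≠ s(x, y) →
        ∀ (a b : unitInterval), γ u v a = γ x y b →
          (γ u v a = p u ∨ γ u v a = p v) ∧ (γ u v a = p x ∨ γ u v a = p y)))
    (m : ℕ) (hm : min (Fintype.card V) N ≤ m) :
    ∃ c : V → ℕ, (∀ v, c v < 3 * m) ∧ ∀ u v, G.Adj u v →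
      (m + 1 : ℤ) ≤ |(c u : ℤ) - c v| ∧ |(c u : ℤ) - c v| ≤ 3 * m - (m + 1) := by
  classical
  have hPl : Pl G := Pool.Agent.Draw.pl_of_drawing hplanar
  have hd3 : T1Red.Deg3 G := BCore.deg3_of_ncard hdeg
  have key : StrictN G m := by
    rcases min_le_iff.1 hm with h | h
    · exact (Uni91.strictN_of_hasStrict
        (T392.facts.strict hPl hfree (deg3_iff.1 hd3))).mono le_rfl h
    · exact (strictN_whole N hN hPl hfree hdeg).mono le_rfl h
  obtain ⟨c, h1, h2⟩ := key.hasPQ
  refine ⟨c, h1, fun u v huv => ?_⟩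
  have h4 := h2 u v huv
  push_cast at h4
  exact h4

end Pool.Agent.WholeX
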